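import Mathlib

set_option autoImplicit false

/-!
# Rigidity of the enumeration degrees: definitions

Project RIG (MP_431ff4_lc). Paper proof: ideas row 2381.
-/

namespace Pool.Agent.RIG

open Topology Filter Nat.Partrec

/-! ## Enumeration reducibility and the degrees -/

/-- Enumeration reducibility `A ≤_e B`: there is a c.e. set `W` such that `x ∈ A` iff there is a
finite set `D ⊆ B` with `⟨x, code D⟩ ∈ W`. The finite set with canonical index `u` is the set of
all `y` such that the binary digit of `u` at place `y` is one. -/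
def ERed (A B : Set ℕ) : Prop :=
  ∃ W : Set ℕ, REPred (fun n : ℕ => n ∈ W) ∧
    ∀ x : ℕ, x ∈ A ↔ ∃ u : ℕ, (∀ y : ℕ, u.testBit y = true → y ∈ B) ∧ Nat.pair x u ∈ W

/-- Enumeration equivalence. -/
def EEqv (A B : Set ℕ) : Prop := ERed A B ∧ ERed B A

/-! ## Semidecidable predicates, with a primitive recursive stage function -/

/-- `p` is c.e.: `p a` iff some stage `k` of a primitive recursive search succeeds. -/
def RE {α : Type} [Primcodable α] (p : α → Prop) : Prop :=
  ∃ f : α → ℕ → Bool, Primrec₂ f ∧ ∀ a, p a ↔ ∃ k, f a k = true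

/-! ## Operators indexed by codes (finite sets are given as lists) -/

/-- The enumeration operator with code `c`. -/
def op (c : Code) (B : Set ℕ) : Set ℕ :=
  {x | ∃ L : List ℕ, (∀ y ∈ L, y ∈ B) ∧ (Code.eval c (Nat.pair x (Encodable.encode L))).Dom}

/-- Uniform join of a sequence of sets. -/
def fam (M : ℕ → Set ℕ) : Set ℕ := {n | n.unpair.2 ∈ M n.unpair.1}

/-- Join of two sets. -/
def jn (A B : Set ℕ) : Set ℕ :=
  {n | (n.unpair.1 = 0 ∧ n.unpair.2 ∈ A) ∨ (n.unpair.1 = 1 ∧ n.unpair.2 ∈ B)}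

/-- Graph of a sequence, the entries coded by `enc`. -/
def graph {E : Type} (enc : E → ℕ) (z : ℕ → E) : Set ℕ := {m | ∃ n, m = Nat.pair n (enc (z n))}

/-- Coding of the integers by natural numbers. -/
def encZ (a : ℤ) : ℕ := Nat.pair a.toNat (-a).toNat

/-! ## Points and their names -/

/-- The parameter space. -/
abbrev P : Type := ℕ → ℤ

/-- The main space: `x = (v, y, r)`. -/
abbrev X (A : Set ℕ) : Type := (ℕ → A) × (ℕ → ℤ) × (ℕ → ℤ)

/-- coded parameter -/
def cP (p : P) : Set ℕ := graph encZ p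

/-- coded sequence in `A` -/
def cV {A : Set ℕ} (v : ℕ → A) : Set ℕ := graph (fun a : A => (a : ℕ)) v

/-- coded point of the main space -/
def cX {A : Set ℕ} (x : X A) : Set ℕ := jn (cV x.1) (jn (cP x.2.1) (cP x.2.2))

/-- the total space `(x, p, p', q, q')` -/
abbrev Z (A : Set ℕ) : Type := X A × P × P × P × P

/-- coded point of the total space -/
def cZ {A : Set ℕ} (z : Z A) : Set ℕ :=
  jn (cX z.1) (jn (cP z.2.1) (jn (cP z.2.2.1) (jn (cP z.2.2.2.1) (cP z.2.2.2.2))))

/-- The cylinder of length `s` around `x`. -/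
def boxX {A : Set ℕ} (x : X A) (s : ℕ) : Set (X A) :=
  {x' | ∀ i < s, x'.1 i = x.1 i ∧ x'.2.1 i = x.2.1 i ∧ x'.2.2 i = x.2.2 i}

/-- The cylinder of length `s` around `p`. -/
def boxP (p : P) (s : ℕ) : Set P := {p' | ∀ i < s, p' i = p i}

/-- `γ(v, j) = 0` if `j = ⟨m, a⟩ ≥ 0` and `v m = a`, otherwise `1`. -/
def gam {A : Set ℕ} (v : ℕ → A) (j : ℤ) : ℤ :=
  if 0 ≤ j ∧ (v j.toNat.unpair.1 : ℕ) = j.toNat.unpair.2 then 0 else 1

/-- translation of the registers `r` -/
def act1 {A : Set ℕ} (p : P) (x : X A) : X A := (x.1, x.2.1, x.2.2 + p)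

/-- `y` is changed by `p · γ_v(r)` -/
def act2 {A : Set ℕ} (p : P) (x : X A) : X A :=
  (x.1, x.2.1 + fun i => p i * gam x.1 (x.2.2 i), x.2.2)

/-- translation of `y` -/
def act3 {A : Set ℕ} (p : P) (x : X A) : X A := (x.1, x.2.1 + p, x.2.2)

/-- the sequence with the value `k` at `i` and zero elsewhere -/
def unitP (i : ℕ) (k : ℤ) : P := fun j => if j = i then k else 0

/-! ## Category -/

/-- `f` is Baire measurable as a map into the power set. -/
def BM {T : Type} [TopologicalSpace T] (f : T → Set ℕ) : Prop :=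
  ∀ n : ℕ, BaireMeasurableSet {z | n ∈ f z}

/-- `N` is everywhere nonmeager in `O`. -/
def EN {T : Type} [TopologicalSpace T] (N O : Set T) : Prop :=
  ∀ U : Set T, U ⊆ O → IsOpen U → U.Nonempty → ¬ IsMeagre (N ∩ U)

/-- Elimination: a set enumerable from nonmeager many names `c z` and `K` is enumerable from
`A` and `K`. -/
def Elim {T : Type} [TopologicalSpace T] (c : T → Set ℕ) (A : Set ℕ) : Prop :=
  ∀ Y K : Set ℕ, ¬ IsMeagre {z | ERed Y (jn (c z) K)} → ERed Y (jn A K)

/-! ## Automorphisms, on the level of sets -/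

/-- An automorphism of the enumeration degrees, given by representatives: `F` represents the
automorphism, `G` its inverse. -/
structure Aut where
  F : Set ℕ → Set ℕ
  G : Set ℕ → Set ℕ
  monoF : ∀ A B, ERed A B → ERed (F A) (F B)
  monoG : ∀ A B, ERed A B → ERed (G A) (G B)
  FG : ∀ A, EEqv (F (G A)) A
  GF : ∀ A, EEqv (G (F A)) A

/-- An action `al` of the group `P` on `X A` of the kind used here. -/
structure GoodAct {A : Set ℕ} (al : P → X A → X A) : Prop where
  cont : Continuous (fun z : P × X A => al z.1 z.2)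
  zero : ∀ x, al 0 x = x
  add : ∀ p q x, al (p + q) x = al p (al q x)
  loc : ∀ (s : ℕ) (p : P) (x : X A), (∀ i < s, p i = 0) → al p x ∈ boxX x s
  red : ∀ p x, ERed (cX (al p x)) (jn (cX x) (cP p))

end Pool.Agent.RIG
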