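import Pool.Agent.RIG.Targets

set_option autoImplicit false

/-!
# Rigidity of the enumeration degrees: ACT

The three actions are good. Project RIG (MP_431ff4_lc), owner helper70.
-/

namespace Pool.Agent.RIG

open Topology Filter Nat.Partrec

namespace ACT_

/-- `gam` is jointly continuous. -/
theorem cont_gam {A : Set ℕ} : Continuous (fun z : (ℕ → A) × ℤ => gam z.1 z.2) := by
  rw [continuous_prod_of_discrete_right]
  intro j
  have h : Continuous (fun b : A => if 0 ≤ j ∧ (b : ℕ) = j.toNat.unpair.2 then (0 : ℤ) else 1) :=
    continuous_of_discreteTopology
  exact h.comp (continuous_apply j.toNat.unpair.1)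

theorem cont1 (A : Set ℕ) : Continuous (fun z : P × X A => act1 z.1 z.2) := by
  unfold act1
  exact (continuous_fst.comp continuous_snd).prodMk
    (((continuous_fst.comp (continuous_snd.comp continuous_snd))).prodMk
      ((continuous_snd.comp (continuous_snd.comp continuous_snd)).add continuous_fst))

theorem cont3 (A : Set ℕ) : Continuous (fun z : P × X A => act3 z.1 z.2) := by
  unfold act3
  exact (continuous_fst.comp continuous_snd).prodMk
    (((continuous_fst.comp (continuous_snd.comp continuous_snd)).add continuous_fst).prodMk
      (continuous_snd.comp (continuous_snd.comp continuous_snd)))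

theorem cont2 (A : Set ℕ) : Continuous (fun z : P × X A => act2 z.1 z.2) := by
  unfold act2
  refine (continuous_fst.comp continuous_snd).prodMk
    (Continuous.prodMk ?_ (continuous_snd.comp (continuous_snd.comp continuous_snd)))
  refine (continuous_fst.comp (continuous_snd.comp continuous_snd)).add ?_
  refine continuous_pi fun i => ?_
  refine ((continuous_apply i).comp continuous_fst).mul ?_
  exact cont_gam.comp ((continuous_fst.comp continuous_snd).prodMk
    ((continuous_apply i).comp (continuous_snd.comp (continuous_snd.comp continuous_snd))))

end ACT_

/-- ACT. The three actions are good, the reductions come from RDX. -/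
theorem p_ACT (h_RDX : T_RDX) : ActLib where
  a1 := fun A =>
    { cont := ACT_.cont1 A
      zero := fun x => by simp [act1]
      add := fun p q x => by
        simp only [act1, Prod.mk.injEq, true_and]
        abel
      loc := fun s p x h i hi => by simp [act1, h i hi]
      red := h_RDX.1 A }
  a2 := fun A =>
    { cont := ACT_.cont2 A
      zero := fun x => by
        simp only [act2, Pi.zero_apply, zero_mul]
        refine Prod.ext rfl (Prod.ext ?_ rfl)
        funext i
        simp
      add := fun p q x => by
        simp only [act2, Prod.mk.injEq, true_and, and_true]
        funext i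
        simp only [Pi.add_apply]
        ring
      loc := fun s p x h i hi => by simp [act2, h i hi]
      red := h_RDX.2.1 A }
  a3 := fun A =>
    { cont := ACT_.cont3 A
      zero := fun x => by simp [act3]
      add := fun p q x => by
        simp only [act3, Prod.mk.injEq, true_and, and_true]
        abel
      loc := fun s p x h i hi => by simp [act3, h i hi]
      red := h_RDX.2.2.1 A }
  neg := h_RDX.2.2.2.1
  diff := h_RDX.2.2.2.2

end Pool.Agent.RIG
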