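import Pool.Agent.RIG.Targets

set_option autoImplicit false

/-!
# Rigidity of the enumeration degrees: category, first part
-/

namespace Pool.Agent.RIG

open Topology Filter Nat.Partrec

namespace CAT1_

lemma EN.mono {T : Type} [TopologicalSpace T] {N O O' : Set T} (h : EN N O) (hO : O' ⊆ O) :
    EN N O' := fun U hU hUo hUn => h U (hU.trans hO) hUo hUn

end CAT1_

theorem p_K1 : T_K1 := by
  intro T _ _ N hN
  have hb := TopologicalSpace.isBasis_countableBasis T
  have hbc := TopologicalSpace.countable_countableBasis T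
  set I : Set (Set T) := {U ∈ TopologicalSpace.countableBasis T | IsMeagre (N ∩ U)} with hI
  have hIc : I.Countable := hbc.mono (Set.sep_subset _ _)
  set W : Set T := ⋃ U ∈ I, U with hW
  have hWo : IsOpen W := isOpen_biUnion fun U hU => hb.isOpen hU.1
  have hNW : IsMeagre (N ∩ W) := by
    have h1 : N ∩ W = ⋃ U ∈ I, N ∩ U := by
      rw [hW]
      ext x
      simp only [Set.mem_inter_iff, Set.mem_iUnion]
      constructor
      · rintro ⟨h1, U, hU, hx⟩
        exact ⟨U, hU, h1, hx⟩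
      · rintro ⟨U, hU, h1, hx⟩
        exact ⟨h1, U, hU, hx⟩
    rw [h1]
    exact isMeagre_biUnion hIc fun U hU => hU.2
  refine ⟨(closure W)ᶜ, isClosed_closure.isOpen_compl, ?_, ?_⟩
  · by_contra hcon
    rw [Set.not_nonempty_iff_eq_empty] at hcon
    apply hN
    have h2 : IsMeagre Wᶜ := by
      apply IsNowhereDense.isMeagre
      rw [hWo.isClosed_compl.isNowhereDense_iff, interior_compl, hcon]
    refine (hNW.union h2).mono ?_
    intro x hx
    by_cases h3 : x ∈ W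
    · exact Or.inl ⟨hx, h3⟩
    · exact Or.inr h3
  · intro U hU hUo ⟨x, hx⟩ hmea
    obtain ⟨B, hB, hxB, hBU⟩ := hb.exists_subset_of_mem_open hx hUo
    have h3 : B ∈ I := ⟨hB, hmea.mono (Set.inter_subset_inter_right _ hBU)⟩
    have h4 : x ∈ W := Set.mem_biUnion h3 hxB
    exact hU hx (subset_closure h4)

theorem p_K7 : T_K7 := by
  intro T _ B O hB hBn hO hBO
  obtain ⟨V, hV, hBV⟩ := hB.residualEq_isOpen
  have h1 : IsMeagre (B \ V) := by
    refine Filter.mem_of_superset hBV ?_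
    intro x hx h
    have h2 : x ∈ V := (iff_of_eq hx).1 h.1
    exact h.2 h2
  have h2 : IsMeagre (V \ B) := by
    refine Filter.mem_of_superset hBV ?_
    intro x hx h
    have h2 : x ∈ B := (iff_of_eq hx).2 h.1
    exact h.2 h2
  refine ⟨V ∩ O, Set.inter_subset_right, hV.inter hO, ?_, ?_⟩
  · by_contra hcon
    rw [Set.not_nonempty_iff_eq_empty] at hcon
    apply hBn
    refine h1.mono ?_
    intro x hx
    refine ⟨hx, fun hxV => ?_⟩
    have h3 : x ∈ V ∩ O := ⟨hxV, hBO hx⟩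
    rw [hcon] at h3
    exact h3
  · refine h2.mono ?_
    intro x hx
    exact ⟨hx.1.1, hx.2⟩

theorem p_K2 (h_K7 : T_K7) : T_K2 := by
  intro T _ N O R hO hN hR hm
  by_contra hcon
  obtain ⟨U, hUO, hUo, hUn, hU⟩ := h_K7 T (O \ R) O (hO.baireMeasurableSet.diff hR) hcon hO
    Set.sdiff_subset
  apply hN U hUO hUo hUn
  refine (hU.union hm).mono ?_
  intro x hx
  by_cases h : x ∈ R
  · exact Or.inl ⟨hx.2, fun h2 => h2.2 h⟩
  · exact Or.inr ⟨⟨hx.1, hUO hx.2⟩, h⟩

theorem p_K5 (h_K1 : T_K1) (h_K2 : T_K2) : T_K5 := by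
  intro T _ _ ι _ N R S O0 hS hO0 hSO hcov hNR hR
  have h1 : ∃ i, ¬ IsMeagre (N i ∩ S) := by
    by_contra hcon
    push Not at hcon
    apply hS
    refine (hcov.union (isMeagre_iUnion hcon)).mono ?_
    intro x hx
    by_cases h : x ∈ ⋃ i, N i
    · right
      rw [Set.mem_iUnion] at h ⊢
      obtain ⟨i, hi⟩ := h
      exact ⟨i, hi, hx⟩
    · exact Or.inl ⟨hx, h⟩
  obtain ⟨i, hi⟩ := h1
  obtain ⟨O1, hO1, hO1n, hEN⟩ := h_K1 T (N i ∩ S) hi
  have hEN2 : EN (N i ∩ S) (O1 ∩ O0) := CAT1_.EN.mono hEN Set.inter_subset_left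
  refine ⟨i, O1 ∩ O0, Set.inter_subset_right, hO1.inter hO0, ?_, hEN2, ?_⟩
  · obtain ⟨x, hx⟩ := nonempty_of_not_isMeagre (hEN O1 (Set.Subset.refl _) hO1 hO1n)
    exact ⟨x, hx.2, hSO hx.1.2⟩
  · refine h_K2 T (N i ∩ S) (O1 ∩ O0) (R i) (hO1.inter hO0) hEN2 (hR i) ?_
    refine IsMeagre.empty.mono ?_
    intro x hx
    exact hx.2 (hNR i hx.1.1.1)

end Pool.Agent.RIG
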