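import Pool.Agent.RIG.Targets

set_option autoImplicit false

/-!
# Category facts K3, K4 and K6

Project RIG (MP_431ff4_lc), job RIG-CAT2.
-/

namespace Pool.Agent.RIG

open Topology Filter Nat.Partrec

namespace CAT2_

/-- For a dense open set in a product the sections over comeager many points are dense. -/
theorem section_dense {S T : Type} [TopologicalSpace S] [TopologicalSpace T]
    [SecondCountableTopology T] (U : Set (S × T)) (hU : IsOpen U) (hd : Dense U) :
    {x : S | Dense {y : T | (x, y) ∈ U}} ∈ residual S := by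
  have hB := TopologicalSpace.isBasis_countableBasis T
  have hc : (TopologicalSpace.countableBasis T).Countable :=
    TopologicalSpace.countable_countableBasis T
  have key : ∀ V ∈ TopologicalSpace.countableBasis T,
      {x : S | ∃ y ∈ V, (x, y) ∈ U} ∈ residual S := by
    intro V hV
    have hVo : IsOpen V := TopologicalSpace.isOpen_of_mem_countableBasis hV
    have hVn : V.Nonempty := TopologicalSpace.nonempty_of_mem_countableBasis hV
    have heq : {x : S | ∃ y ∈ V, (x, y) ∈ U} = Prod.fst '' (U ∩ (Set.univ ×ˢ V)) := by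
      ext x
      constructor
      · rintro ⟨y, hy, hxy⟩
        exact ⟨(x, y), ⟨hxy, ⟨Set.mem_univ _, hy⟩⟩, rfl⟩
      · rintro ⟨⟨x', y⟩, ⟨hxy, ⟨_, hy⟩⟩, rfl⟩
        exact ⟨y, hy, hxy⟩
    have hopen : IsOpen {x : S | ∃ y ∈ V, (x, y) ∈ U} := by
      rw [heq]
      exact isOpenMap_fst _ (hU.inter (isOpen_univ.prod hVo))
    refine residual_of_dense_open hopen ?_
    rw [dense_iff_inter_open]
    intro W hW hWn
    have hWV : IsOpen (W ×ˢ V) := hW.prod hVo
    have hWVn : (W ×ˢ V).Nonempty := hWn.prod hVn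
    obtain ⟨⟨x, y⟩, ⟨hx, hy⟩, hxy⟩ := hd.inter_open_nonempty _ hWV hWVn
    exact ⟨x, hx, y, hy, hxy⟩
  have hall : {x : S | ∀ V ∈ TopologicalSpace.countableBasis T, ∃ y ∈ V, (x, y) ∈ U} ∈
      residual S := by
    have h := (eventually_countable_ball hc (l := residual S)
      (p := fun x V _ => ∃ y ∈ V, (x, y) ∈ U)).2 (fun V hV => key V hV)
    exact h
  refine mem_of_superset hall ?_
  intro x hx
  rw [Set.mem_ofPred_eq] at hx ⊢
  rw [hB.dense_iff]
  intro V hV _
  obtain ⟨y, hy, hxy⟩ := hx V hV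
  exact ⟨y, hy, hxy⟩

end CAT2_

theorem p_K3 : T_K3 := by
  intro S T _ _ _ M hM
  unfold IsMeagre at hM
  rw [mem_residual_iff] at hM
  obtain ⟨F, hFo, hFd, hFc, hFs⟩ := hM
  have hall : {x : S | ∀ U ∈ F, Dense {y : T | (x, y) ∈ U}} ∈ residual S := by
    have h := (eventually_countable_ball hFc (l := residual S)
      (p := fun x U _ => Dense {y : T | (x, y) ∈ U})).2
      (fun U hU => CAT2_.section_dense U (hFo U hU) (hFd U hU))
    exact h
  show {x : S | ¬ IsMeagre {y : T | (x, y) ∈ M}}ᶜ ∈ residual S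
  refine mem_of_superset hall ?_
  intro x hx
  rw [Set.mem_compl_iff, Set.mem_ofPred_eq, not_not]
  rw [Set.mem_ofPred_eq] at hx
  have h2 : {y : T | ∀ U ∈ F, (x, y) ∈ U} ∈ residual T := by
    have h := (eventually_countable_ball hFc (l := residual T)
      (p := fun y U _ => (x, y) ∈ U)).2
      (fun U hU => residual_of_dense_open
        ((hFo U hU).preimage (Continuous.prodMk_right x)) (hx U hU))
    exact h
  show {y : T | (x, y) ∈ M}ᶜ ∈ residual T
  refine mem_of_superset h2 ?_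
  intro y hy hyM
  have : (x, y) ∈ Mᶜ := hFs (Set.mem_sInter.2 (fun U hU => hy U hU))
  exact this hyM

theorem p_K4 (h_K3 : T_K3) : T_K4 := by
  intro S T _ _ _ A B hA hB hAB
  refine hA ?_
  have h := h_K3 S T (A ×ˢ B) hAB
  refine IsMeagre.mono ?_ h
  intro x hx
  rw [Set.mem_ofPred_eq]
  have : {y : T | (x, y) ∈ A ×ˢ B} = B := by
    ext y
    constructor
    · intro hy
      exact hy.2
    · intro hy
      exact ⟨hx, hy⟩
  rw [this]
  exact hB

theorem p_K6 (h_K7 : T_K7) : T_K6 := by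
  intro S T _ _ _ m O R hc ho hO hR hM
  by_contra hcon
  have hmO : IsOpen (m '' O) := ho O hO
  have hB : BaireMeasurableSet (m '' O \ R) := hmO.baireMeasurableSet.diff hR
  obtain ⟨U, hUO, hUo, hUn, hUm⟩ := h_K7 T (m '' O \ R) (m '' O) hB hcon hmO
    Set.sdiff_subset
  have hpre : IsOpen (O ∩ m ⁻¹' U) := hO.inter (hUo.preimage hc)
  have hne : (O ∩ m ⁻¹' U).Nonempty := by
    obtain ⟨t, ht⟩ := hUn
    obtain ⟨s, hs, rfl⟩ := hUO ht
    exact ⟨s, hs, ht⟩
  refine not_isMeagre_of_isOpen hpre hne ?_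
  refine IsMeagre.mono ?_ (hM.union (IsMeagre.preimage_of_isOpenMap hc ho hUm))
  rintro s ⟨hsO, hsU⟩
  by_cases hsR : m s ∈ R
  · right
    exact ⟨hsU, fun h => h.2 hsR⟩
  · left
    exact ⟨hsO, hsR⟩

end Pool.Agent.RIG
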