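import Pool.Agent.RIG.Targets

set_option autoImplicit false

/-!
# Targets CHK and CTM
-/

namespace Pool.Agent.RIG

open Topology Filter Nat.Partrec

namespace CHK_

/-- the homeomorphism `(x, p, p') ↦ (al (p - p') x, p, p')` -/
def hom {A : Set ℕ} {al : P → X A → X A} (hal : GoodAct al) : (X A × P × P) ≃ₜ (X A × P × P) where
  toFun z := (al (z.2.1 - z.2.2) z.1, z.2)
  invFun z := (al (z.2.2 - z.2.1) z.1, z.2)
  left_inv z := by
    refine Prod.ext ?_ rfl
    show al (z.2.2 - z.2.1) (al (z.2.1 - z.2.2) z.1) = z.1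
    rw [← hal.add, sub_add_sub_cancel, sub_self, hal.zero]
  right_inv z := by
    refine Prod.ext ?_ rfl
    show al (z.2.1 - z.2.2) (al (z.2.2 - z.2.1) z.1) = z.1
    rw [← hal.add, sub_add_sub_cancel, sub_self, hal.zero]
  continuous_toFun := by
    refine Continuous.prodMk ?_ continuous_snd
    exact hal.cont.comp (Continuous.prodMk
      ((continuous_fst.comp continuous_snd).sub (continuous_snd.comp continuous_snd))
      continuous_fst)
  continuous_invFun := by
    refine Continuous.prodMk ?_ continuous_snd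
    exact hal.cont.comp (Continuous.prodMk
      ((continuous_snd.comp continuous_snd).sub (continuous_fst.comp continuous_snd))
      continuous_fst)

/-- the map `(x, p, p') ↦ (x, p)` is open -/
lemma open1 (S T U : Type) [TopologicalSpace S] [TopologicalSpace T] [TopologicalSpace U] :
    IsOpenMap (fun z : S × T × U => (z.1, z.2.1)) :=
  IsOpenMap.id.prodMap isOpenMap_fst

/-- the map `(x, p, p') ↦ (x, p')` is open -/
lemma open2 (S T U : Type) [TopologicalSpace S] [TopologicalSpace T] [TopologicalSpace U] :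
    IsOpenMap (fun z : S × T × U => (z.1, z.2.2)) :=
  IsOpenMap.id.prodMap isOpenMap_snd

lemma encZ_inj {a b : ℤ} (h : encZ a = encZ b) : a = b := by
  unfold encZ at h
  rw [Nat.pair_eq_pair] at h
  omega

lemma cP_inj {p q : P} (h : cP p = cP q) : p = q := by
  funext n
  have h1 : Nat.pair n (encZ (p n)) ∈ cP p := ⟨n, rfl⟩
  rw [h] at h1
  obtain ⟨m, hm⟩ := h1
  rw [Nat.pair_eq_pair] at hm
  obtain ⟨rfl, h2⟩ := hm
  exact encZ_inj h2

lemma meagre_singleton (p : P) : IsMeagre ({p} : Set P) := by
  have hnd : IsNowhereDense ({p} : Set P) := by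
    unfold IsNowhereDense
    rw [closure_singleton, Set.eq_empty_iff_forall_notMem]
    intro x hx
    have hxp : x ∈ ({p} : Set P) := interior_subset hx
    rw [Set.mem_singleton_iff] at hxp
    subst hxp
    have hlim : Tendsto (fun n : ℕ => Function.update x n (x n + 1)) atTop (𝓝 x) := by
      rw [tendsto_pi_nhds]
      intro i
      refine tendsto_const_nhds.congr' ?_
      filter_upwards [eventually_gt_atTop i] with n hn
      rw [Function.update_of_ne hn.ne]
    have hev := hlim.eventually (isOpen_interior.mem_nhds hx)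
    obtain ⟨n, hn⟩ := hev.exists
    have h1 : Function.update x n (x n + 1) ∈ ({x} : Set P) := interior_subset hn
    rw [Set.mem_singleton_iff] at h1
    have h2 := congrFun h1 n
    rw [Function.update_self] at h2
    omega
  exact hnd.isMeagre

end CHK_

open CHK_

theorem p_CHK (_h : SpLib) : T_CHK := by
  intro A al hal f F g g' c c' x0 p0 s hM
  have h1 := hM.preimage_of_isOpenMap (continuous_fst.prodMk (continuous_fst.comp continuous_snd))
    (open1 (X A) P P)
  have h2 := (hM.preimage_of_isOpenMap
    (continuous_fst.prodMk (continuous_snd.comp continuous_snd))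
    (open2 (X A) P P)).preimage_of_isOpenMap (hom hal).continuous (hom hal).isOpenMap
  refine (h1.union h2).mono ?_
  rintro ⟨x, p, p'⟩ ⟨hx, hp, hp', hne⟩
  by_contra hcon
  rw [Set.mem_union, not_or] at hcon
  obtain ⟨hc1, hc2⟩ := hcon
  have hr1 : F (al p x) = op c (jn (f x) (g p)) := by
    by_contra hne1
    exact hc1 ⟨hx, hp, fun h => hne1 h.1⟩
  have hloc : al (p - p') x ∈ boxX x0 s := by
    have hl := hal.loc s (p - p') x fun i hi => by
      have a1 : p i = p0 i := hp i hi
      have a2 : p' i = p0 i := hp' i hi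
      show p i - p' i = 0
      rw [a1, a2, sub_self]
    intro i hi
    obtain ⟨a1, a2, a3⟩ := hl i hi
    obtain ⟨b1, b2, b3⟩ := hx i hi
    exact ⟨a1.trans b1, a2.trans b2, a3.trans b3⟩
  have hr2 : f (al (p - p') x) = op c' (jn (F (al p' (al (p - p') x))) (g' p')) := by
    by_contra hne1
    exact hc2 ⟨hloc, hp', fun h => hne1 h.2⟩
  apply hne
  show f (al (p - p') x) = Th c c' (g p) (g' p') (f x)
  have h3 : al p' (al (p - p') x) = al p x := by
    rw [← hal.add]
    congr 1
    abel
  rw [hr2, h3, hr1]
  rfl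

theorem p_CTM (h_OP : T_OP) : T_CTM := by
  intro B
  have hsub : {p : P | EEqv (cP p) B} ⊆ ⋃ c : Code, {p : P | cP p = op c B} := by
    intro p hp
    obtain ⟨c, hc⟩ := (h_OP _ _).1 hp.1
    exact Set.mem_iUnion.2 ⟨c, hc⟩
  refine (isMeagre_iUnion fun c => ?_).mono hsub
  by_cases hne : ∃ p : P, cP p = op c B
  · obtain ⟨p, hp⟩ := hne
    refine (meagre_singleton p).mono ?_
    intro q hq
    exact cP_inj ((show cP q = op c B from hq).trans hp.symm)
  · have he : {p : P | cP p = op c B} = ∅ := by
      rw [Set.eq_empty_iff_forall_notMem]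
      intro p hp
      exact hne ⟨p, hp⟩
    rw [he]
    exact IsMeagre.empty

end Pool.Agent.RIG
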