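import Pool.Agent.RIG.Targets

set_option autoImplicit false

/-!
# RIG, target CMP: composition of operators is computable on codes
-/

namespace Pool.Agent.RIG

open Topology Filter Nat.Partrec

namespace CMP_

/-- The relation of the composed operator. -/
def Q (c d : Code) (x : ℕ) (L : List ℕ) : Prop :=
  ∃ T : List (ℕ × List ℕ), L = (T.map Prod.snd).flatten ∧
    ((∀ t ∈ T, (Code.eval d (Nat.pair t.1 (Encodable.encode t.2))).Dom) ∧
      (Code.eval c (Nat.pair x (Encodable.encode (T.map Prod.fst)))).Dom)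

theorem re_Q (h : RELib) :
    RE (fun a : (Code × Code) × (ℕ × List ℕ) => Q a.1.1 a.1.2 a.2.1 a.2.2) := by
  have h1 : RE (fun a : ((Code × Code) × (ℕ × List ℕ)) × List (ℕ × List ℕ) =>
      a.1.2.2 = (a.2.map Prod.snd).flatten) := by
    refine h.prim ?_
    exact Primrec.eq.comp (Primrec.snd.comp (Primrec.snd.comp Primrec.fst))
      (Primrec.list_flatten.comp
        (Primrec.list_map Primrec.snd (Primrec.snd.comp Primrec.snd).to₂))
  have h2 : RE (fun a : ((Code × Code) × (ℕ × List ℕ)) × List (ℕ × List ℕ) =>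
      ∀ t ∈ a.2, (Code.eval a.1.1.2 (Nat.pair t.1 (Encodable.encode t.2))).Dom) := by
    refine h.allL (l := fun a : ((Code × Code) × (ℕ × List ℕ)) × List (ℕ × List ℕ) => a.2)
      (p := fun (a : ((Code × Code) × (ℕ × List ℕ)) × List (ℕ × List ℕ)) (t : ℕ × List ℕ) =>
        (Code.eval a.1.1.2 (Nat.pair t.1 (Encodable.encode t.2))).Dom) Primrec.snd ?_
    refine h.comp (f := fun b :
      (((Code × Code) × (ℕ × List ℕ)) × List (ℕ × List ℕ)) × (ℕ × List ℕ) =>
        (b.1.1.1.2, Nat.pair b.2.1 (Encodable.encode b.2.2))) ?_ h.ev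
    exact (Primrec.snd.comp (Primrec.fst.comp (Primrec.fst.comp Primrec.fst))).pair
      (Primrec₂.natPair.comp (Primrec.fst.comp Primrec.snd)
        (Primrec.encode.comp (Primrec.snd.comp Primrec.snd)))
  have h3 : RE (fun a : ((Code × Code) × (ℕ × List ℕ)) × List (ℕ × List ℕ) =>
      (Code.eval a.1.1.1
        (Nat.pair a.1.2.1 (Encodable.encode (a.2.map Prod.fst)))).Dom) := by
    refine h.comp (f := fun a : ((Code × Code) × (ℕ × List ℕ)) × List (ℕ × List ℕ) =>
        (a.1.1.1, Nat.pair a.1.2.1 (Encodable.encode (a.2.map Prod.fst)))) ?_ h.ev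
    exact (Primrec.fst.comp (Primrec.fst.comp Primrec.fst)).pair
      (Primrec₂.natPair.comp (Primrec.fst.comp (Primrec.snd.comp Primrec.fst))
        (Primrec.encode.comp
          (Primrec.list_map Primrec.snd (Primrec.fst.comp Primrec.snd).to₂)))
  exact h.ex (p := fun (a : (Code × Code) × (ℕ × List ℕ)) (T : List (ℕ × List ℕ)) =>
    a.2.2 = (T.map Prod.snd).flatten ∧
    ((∀ t ∈ T, (Code.eval a.1.2 (Nat.pair t.1 (Encodable.encode t.2))).Dom) ∧
      (Code.eval a.1.1 (Nat.pair a.2.1 (Encodable.encode (T.map Prod.fst)))).Dom))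
    (h.and h1 (h.and h2 h3))

theorem exists_code (h : RELib) : ∃ e : Code, ∀ (c d : Code) (x : ℕ) (L : List ℕ),
    (Code.eval e (Nat.pair (Encodable.encode (c, d))
      (Nat.pair x (Encodable.encode L)))).Dom ↔ Q c d x L := by
  obtain ⟨e, he⟩ := Code.exists_code.1 (h.toREPred (re_Q h))
  refine ⟨e, fun c d x L => ?_⟩
  have h1 : Nat.pair (Encodable.encode (c, d)) (Nat.pair x (Encodable.encode L)) =
      Encodable.encode (((c, d), (x, L)) : (Code × Code) × (ℕ × List ℕ)) := rfl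
  rw [h1, he]
  simp [Part.assert]

theorem lists (d : Code) (B : Set ℕ) (L' : List ℕ) (hL : ∀ y ∈ L', y ∈ op d B) :
    ∃ T : List (ℕ × List ℕ), T.map Prod.fst = L' ∧
      (∀ t ∈ T, (Code.eval d (Nat.pair t.1 (Encodable.encode t.2))).Dom) ∧
      ∀ y ∈ (T.map Prod.snd).flatten, y ∈ B := by
  induction L' with
  | nil => exact ⟨[], rfl, fun t ht => by simp at ht, fun y hy => by simp at hy⟩
  | cons a L' ih =>
    obtain ⟨T, h1, h2, h3⟩ := ih fun y hy => hL y (List.mem_cons_of_mem a hy)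
    obtain ⟨M, hM, hd⟩ := hL a List.mem_cons_self
    refine ⟨(a, M) :: T, ?_, ?_, ?_⟩
    · rw [List.map_cons, h1]
    · intro t ht
      rcases List.mem_cons.1 ht with rfl | ht
      · exact hd
      · exact h2 t ht
    · intro y hy
      rw [List.map_cons, List.flatten_cons, List.mem_append] at hy
      rcases hy with hy | hy
      · exact hM y hy
      · exact h3 y hy

theorem op_Q (c d : Code) (B : Set ℕ) :
    {x | ∃ L : List ℕ, (∀ y ∈ L, y ∈ B) ∧ Q c d x L} = op c (op d B) := by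
  ext x
  constructor
  · rintro ⟨L, hL, T, rfl, h1, h2⟩
    refine ⟨T.map Prod.fst, fun y hy => ?_, h2⟩
    obtain ⟨t, ht, rfl⟩ := List.mem_map.1 hy
    refine ⟨t.2, fun z hz => hL z ?_, h1 t ht⟩
    exact List.mem_flatten.2 ⟨t.2, List.mem_map.2 ⟨t, ht, rfl⟩, hz⟩
  · rintro ⟨L', hL', hd⟩
    obtain ⟨T, h1, h2, h3⟩ := lists d B L' hL'
    refine ⟨(T.map Prod.snd).flatten, h3, T, rfl, h2, ?_⟩
    rw [h1]
    exact hd

end CMP_

theorem p_CMP (h : RELib) (_h_LOP : T_LOP) : T_CMP := by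
  obtain ⟨e, he⟩ := CMP_.exists_code h
  refine ⟨fun c d => Code.curry e (Encodable.encode (c, d)), ?_, fun c d B => ?_⟩
  · exact Code.primrec₂_curry.comp (Primrec.const e) (Primrec.encode.comp Primrec.id)
  · rw [← CMP_.op_Q c d B]
    ext x
    constructor
    · rintro ⟨L, hL, hd⟩
      rw [Code.eval_curry] at hd
      exact ⟨L, hL, (he c d x L).1 hd⟩
    · rintro ⟨L, hL, hQ⟩
      refine ⟨L, hL, ?_⟩
      rw [Code.eval_curry]
      exact (he c d x L).2 hQ

end Pool.Agent.RIG
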