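import Pool.Agent.RIG.Targets

set_option autoImplicit false

/-!
# DEC: decoding of `A`
-/

namespace Pool.Agent.RIG

open Topology Filter Nat.Partrec

namespace DEC_

/-- the identity operator -/
theorem exists_idc (h : RELib) (hL : T_LOP) : ∃ c : Code, ∀ B : Set ℕ, op c B = B := by
  obtain ⟨c, hc⟩ := hL (fun x L => L = [x]) (by
    refine h.prim ?_
    exact Primrec.eq.comp Primrec.snd (Primrec.list_cons.comp Primrec.fst (Primrec.const [])))
  refine ⟨c, fun B => ?_⟩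
  rw [hc]
  ext x
  constructor
  · rintro ⟨L, hy, rfl⟩
    exact hy x (by simp)
  · intro hx
    exact ⟨[x], by simpa using hx, rfl⟩

/-- the projection to the column `0` -/
theorem exists_pr (h : RELib) (hL : T_LOP) :
    ∃ c : Code, ∀ M : ℕ → Set ℕ, op c (fam M) = M 0 := by
  obtain ⟨c, hc⟩ := hL (fun x L => L = [Nat.pair 0 x]) (by
    refine h.prim ?_
    exact Primrec.eq.comp Primrec.snd (Primrec.list_cons.comp
      (Primrec₂.natPair.comp (Primrec.const 0) Primrec.fst) (Primrec.const [])))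
  refine ⟨c, fun M => ?_⟩
  rw [hc]
  ext x
  constructor
  · rintro ⟨L, hy, rfl⟩
    have := hy (Nat.pair 0 x) (by simp)
    simpa [fam] using this
  · intro hx
    exact ⟨[Nat.pair 0 x], by simpa [fam] using hx, rfl⟩

/-- one application of `Th`, on families -/
theorem exists_th {cmp : Code → Code → Code}
    (hcmp : ∀ (c d : Code) (B : Set ℕ), op (cmp c d) B = op c (op d B)) (hS : T_STEP)
    (c c' : Code) (i j : ℕ) (hj : j ≠ 7) :
    ∃ t : Code, ∀ M : ℕ → Set ℕ, ∃ M' : ℕ → Set ℕ, op t (fam M) = fam M' ∧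
      M' 0 = Th c c' (M i) (M j) (M 0) ∧ ∀ k, k ≠ 0 → k ≠ 7 → M' k = M k := by
  obtain ⟨s1, h1⟩ := hS c 0 i 7
  obtain ⟨s2, h2⟩ := hS c' 7 j 0
  refine ⟨cmp s2 s1, fun M => ?_⟩
  refine ⟨_, by rw [hcmp, h1, h2], ?_, ?_⟩
  · simp [Th, Function.update_of_ne hj]
  · intro k hk0 hk7
    rw [Function.update_of_ne hk0, Function.update_of_ne hk7]

/-- iteration of a code -/
def it (cmp : Code → Code → Code) (idc t : Code) (n : ℕ) : Code :=
  Nat.rec (motive := fun _ => Code) idc (fun _ ih => cmp t ih) n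

theorem it_primrec {cmp : Code → Code → Code} (hp : Primrec₂ cmp) (idc t : Code) :
    Primrec (it cmp idc t) := by
  have : Primrec₂ (fun (_ : ℕ) (ih : Code) => cmp t ih) :=
    hp.comp (Primrec.const t) Primrec.snd
  exact Primrec.nat_rec₁ idc this

theorem it_spec {cmp : Code → Code → Code}
    (hcmp : ∀ (c d : Code) (B : Set ℕ), op (cmp c d) B = op c (op d B)) {idc t : Code}
    (hid : ∀ B : Set ℕ, op idc B = B) {c c' : Code} {i j : ℕ} (hi0 : i ≠ 0) (hi7 : i ≠ 7)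
    (hj0 : j ≠ 0) (hj7 : j ≠ 7)
    (ht : ∀ M : ℕ → Set ℕ, ∃ M' : ℕ → Set ℕ, op t (fam M) = fam M' ∧
      M' 0 = Th c c' (M i) (M j) (M 0) ∧ ∀ k, k ≠ 0 → k ≠ 7 → M' k = M k)
    (M : ℕ → Set ℕ) (n : ℕ) :
    ∃ M' : ℕ → Set ℕ, op (it cmp idc t n) (fam M) = fam M' ∧
      M' 0 = (Th c c' (M i) (M j))^[n] (M 0) ∧ ∀ k, k ≠ 0 → k ≠ 7 → M' k = M k := by
  induction n with
  | zero => exact ⟨M, hid _, rfl, fun _ _ _ => rfl⟩
  | succ n ih =>
    obtain ⟨M1, h1, h10, h1k⟩ := ih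
    obtain ⟨M2, h2, h20, h2k⟩ := ht M1
    refine ⟨M2, ?_, ?_, ?_⟩
    · change op (cmp t (it cmp idc t n)) (fam M) = fam M2
      rw [hcmp, h1, h2]
    · rw [h20, h1k i hi0 hi7, h1k j hj0 hj7, h10, Function.iterate_succ_apply']
    · intro k hk0 hk7
      rw [h2k k hk0 hk7, h1k k hk0 hk7]

/-- the initial family -/
def ini (N0 C1 C2 C3 C4 C5 C6 : Set ℕ) : ℕ → Set ℕ
  | 0 => N0
  | 1 => C1
  | 2 => C2
  | 3 => C3
  | 4 => C4
  | 5 => C5
  | 6 => C6
  | _ => ∅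

theorem exists_cs (h : RELib) (hL : T_LOP) (hC : T_CMP) (hS : T_STEP) (c c' d d' : Code)
    (N0 C1 C2 C3 C4 C5 C6 : Set ℕ) :
    ∃ cs : ℕ → Code, Computable cs ∧ ∀ n : ℕ,
      op (cs n) (fam (ini N0 C1 C2 C3 C4 C5 C6)) =
        (Th c c' C3 C4)^[n] (Th d d' C5 C6 ((Th c c' C1 C2)^[n] N0)) := by
  obtain ⟨cmp, hp, hcmp⟩ := hC
  obtain ⟨idc, hid⟩ := exists_idc h hL
  obtain ⟨pr, hpr⟩ := exists_pr h hL
  obtain ⟨t1, ht1⟩ := exists_th hcmp hS c c' 1 2 (by norm_num)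
  obtain ⟨t2, ht2⟩ := exists_th hcmp hS d d' 5 6 (by norm_num)
  obtain ⟨t3, ht3⟩ := exists_th hcmp hS c c' 3 4 (by norm_num)
  refine ⟨fun n => cmp pr (cmp (it cmp idc t3 n) (cmp t2 (it cmp idc t1 n))), ?_, ?_⟩
  · refine Primrec.to_comp ?_
    exact hp.comp (Primrec.const pr) (hp.comp (it_primrec hp idc t3)
      (hp.comp (Primrec.const t2) (it_primrec hp idc t1)))
  · intro n
    set M := ini N0 C1 C2 C3 C4 C5 C6 with hM
    obtain ⟨M1, h1, h10, h1k⟩ := it_spec hcmp hid (by norm_num) (by norm_num) (by norm_num)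
      (by norm_num) ht1 M n
    obtain ⟨M2, h2, h20, h2k⟩ := ht2 M1
    obtain ⟨M3, h3, h30, h3k⟩ := it_spec hcmp hid (by norm_num) (by norm_num) (by norm_num)
      (by norm_num) ht3 M2 n
    simp only [hcmp]
    rw [h1, h2, h3, hpr, h30, h20, h10]
    rw [h2k 3 (by norm_num) (by norm_num), h2k 4 (by norm_num) (by norm_num),
      h1k 3 (by norm_num) (by norm_num), h1k 4 (by norm_num) (by norm_num),
      h1k 5 (by norm_num) (by norm_num), h1k 6 (by norm_num) (by norm_num)]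
    simp [hM, ini]

theorem ini_red (h : LatLib) (N0 C1 C2 C3 C4 C5 C6 : Set ℕ) :
    ERed (fam (ini N0 C1 C2 C3 C4 C5 C6))
      (jn N0 (jn C1 (jn C2 (jn C3 (jn C4 (jn C5 C6)))))) := by
  refine h.famk _ _ 7 ?_ ?_
  · intro i hi
    obtain ⟨k, rfl⟩ := Nat.exists_eq_add_of_le hi
    rw [Nat.add_comm]
    rfl
  · intro i hi
    interval_cases i
    · exact h.left _ _
    · exact h.trans (h.left _ _) (h.right _ _)
    · exact h.trans (h.trans (h.left _ _) (h.right _ _)) (h.right _ _)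
    · exact h.trans (h.trans (h.trans (h.left _ _) (h.right _ _)) (h.right _ _)) (h.right _ _)
    · exact h.trans (h.trans (h.trans (h.trans (h.left _ _) (h.right _ _)) (h.right _ _))
        (h.right _ _)) (h.right _ _)
    · exact h.trans (h.trans (h.trans (h.trans (h.trans (h.left _ _) (h.right _ _))
        (h.right _ _)) (h.right _ _)) (h.right _ _)) (h.right _ _)
    · exact h.trans (h.trans (h.trans (h.trans (h.trans (h.right _ _) (h.right _ _))
        (h.right _ _)) (h.right _ _)) (h.right _ _)) (h.right _ _)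

/-- the relation `ρ + n = ⟨m, a⟩` for some `m` -/
def Q (ρ : ℤ) (a n : ℕ) : Prop := ∃ m : ℕ, n + ρ.toNat = Nat.pair m a + (-ρ).toNat

theorem Q_re (h : RELib) (ρ : ℤ) : RE (fun a : ℕ × ℕ => Q ρ a.1 a.2) := by
  refine h.ex (α := ℕ × ℕ) (β := ℕ)
    (p := fun a m => a.2 + ρ.toNat = Nat.pair m a.1 + (-ρ).toNat) ?_
  refine h.prim ?_
  refine Primrec.eq.comp ?_ ?_
  · exact Primrec.nat_add.comp (Primrec.snd.comp Primrec.fst) (Primrec.const _)
  · exact Primrec.nat_add.comp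
      (Primrec₂.natPair.comp Primrec.snd (Primrec.fst.comp Primrec.fst)) (Primrec.const _)

end DEC_

open DEC_ in
theorem p_DEC (h : RELib) (hL : T_LOP) (hC : T_CMP) (hS : T_STEP) (hU : T_UNI) (hT : LatLib) :
    T_DEC := by
  intro A v c c' d d' N0 C1 C2 C3 C4 C5 C6 n0 ρ h1 h2
  obtain ⟨cs, hcs, hop⟩ := exists_cs h hL hC hS c c' d d' N0 C1 C2 C3 C4 C5 C6
  have hA : A = {a | ∃ n, Q ρ a n ∧ n0 ∈ op (cs n) (fam (ini N0 C1 C2 C3 C4 C5 C6))} := by
    ext a
    constructor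
    · intro ha
      obtain ⟨m, hm, hva⟩ := h2 ⟨a, ha⟩ ρ.toNat
      have hle : m ≤ Nat.pair m a := Nat.left_le_pair m a
      refine ⟨Nat.pair m a + (-ρ).toNat - ρ.toNat, ⟨m, by omega⟩, ?_⟩
      rw [hop, h1]
      have e : ρ + ((Nat.pair m a + (-ρ).toNat - ρ.toNat : ℕ) : ℤ) = (Nat.pair m a : ℤ) := by
        omega
      rw [e, gam, if_pos]
      refine ⟨by positivity, ?_⟩
      simp [hva]
    · rintro ⟨n, ⟨m, hm⟩, hn⟩
      rw [hop, h1] at hn
      have e : ρ + (n : ℤ) = (Nat.pair m a : ℤ) := by omega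
      rw [e, gam] at hn
      by_cases hc : (0 : ℤ) ≤ (Nat.pair m a : ℤ) ∧
          (v (Nat.pair m a : ℤ).toNat.unpair.1 : ℕ) = (Nat.pair m a : ℤ).toNat.unpair.2
      · have hc2 := hc.2
        simp only [Int.toNat_natCast, Nat.unpair_pair] at hc2
        rw [← hc2]
        exact (v m).2
      · rw [if_neg hc] at hn
        exact absurd hn (by norm_num)
  have key := hU cs (Q ρ) n0 (fam (ini N0 C1 C2 C3 C4 C5 C6)) hcs (Q_re h ρ)
  rw [← hA] at key
  exact hT.trans key (ini_red hT N0 C1 C2 C3 C4 C5 C6)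

end Pool.Agent.RIG
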