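import Pool.Agent.RIG.Targets

set_option autoImplicit false

/-!
# Rigidity of the enumeration degrees: the edge lemma
-/

namespace Pool.Agent.RIG

open Topology Filter Nat.Partrec

namespace EDG_

theorem EN_mono {T : Type} [TopologicalSpace T] {N O O' : Set T} (h : EN N O) (hO : O' ⊆ O) :
    EN N O' := fun U hU hUo hUn => h U (hU.trans hO) hUo hUn

theorem boxX_self {A : Set ℕ} (x : X A) (s : ℕ) : x ∈ boxX x s :=
  fun _ _ => ⟨rfl, rfl, rfl⟩

theorem boxP_self (p : P) (s : ℕ) : p ∈ boxP p s := fun _ _ => rfl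

theorem boxX_anti {A : Set ℕ} (x : X A) {s t : ℕ} (h : s ≤ t) : boxX x t ⊆ boxX x s :=
  fun _ hy i hi => hy i (hi.trans_le h)

theorem boxP_anti (p : P) {s t : ℕ} (h : s ≤ t) : boxP p t ⊆ boxP p s :=
  fun _ hy i hi => hy i (hi.trans_le h)

/-- Translation of `y` by a fixed sequence is a homeomorphism. -/
def tr {A : Set ℕ} (t : P) : X A ≃ₜ X A where
  toFun x := act3 t x
  invFun x := act3 (-t) x
  left_inv x := by
    rcases x with ⟨v, y, r⟩
    simp [act3]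
  right_inv x := by
    rcases x with ⟨v, y, r⟩
    simp [act3]
  continuous_toFun := by
    unfold act3
    fun_prop
  continuous_invFun := by
    unfold act3
    fun_prop

/-- The homeomorphism (x, p, q) ↦ (act3 (p - q) x, p, q). -/
def sh {A : Set ℕ} : X A × P × P ≃ₜ X A × P × P where
  toFun z := (act3 (z.2.1 - z.2.2) z.1, z.2.1, z.2.2)
  invFun z := (act3 (z.2.2 - z.2.1) z.1, z.2.1, z.2.2)
  left_inv z := by
    rcases z with ⟨⟨v, y, r⟩, p, q⟩
    have h : y + (p - q) + (q - p) = y := by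
      funext i
      simp only [Pi.add_apply, Pi.sub_apply]
      ring
    simp [act3, h]
  right_inv z := by
    rcases z with ⟨⟨v, y, r⟩, p, q⟩
    have h : y + (q - p) + (p - q) = y := by
      funext i
      simp only [Pi.add_apply, Pi.sub_apply]
      ring
    simp [act3, h]
  continuous_toFun := by
    unfold act3
    fun_prop
  continuous_invFun := by
    unfold act3
    fun_prop

/-- The homeomorphism (x, p, q) ↦ (x, p - q, q). -/
def df {A : Set ℕ} : X A × P × P ≃ₜ X A × P × P where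
  toFun z := (z.1, z.2.1 - z.2.2, z.2.2)
  invFun z := (z.1, z.2.1 + z.2.2, z.2.2)
  left_inv z := by
    rcases z with ⟨x, p, q⟩
    simp
  right_inv z := by
    rcases z with ⟨x, p, q⟩
    simp
  continuous_toFun := by fun_prop
  continuous_invFun := by fun_prop

/-- The projection (x, p, q) ↦ (x, p). -/
def pr1 {A : Set ℕ} (z : X A × P × P) : X A × P := (z.1, z.2.1)

/-- The projection (x, p, q) ↦ (x, q). -/
def pr2 {A : Set ℕ} (z : X A × P × P) : X A × P := (z.1, z.2.2)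

theorem cont_pr1 {A : Set ℕ} : Continuous (pr1 : X A × P × P → X A × P) := by
  unfold pr1
  fun_prop

theorem cont_pr2 {A : Set ℕ} : Continuous (pr2 : X A × P × P → X A × P) := by
  unfold pr2
  fun_prop

theorem open_pr1 {A : Set ℕ} : IsOpenMap (pr1 : X A × P × P → X A × P) :=
  (IsOpenMap.id).prodMap isOpenMap_fst

theorem open_pr2 {A : Set ℕ} : IsOpenMap (pr2 : X A × P × P → X A × P) :=
  (IsOpenMap.id).prodMap isOpenMap_snd

/-- The set of all bad triples is meager. -/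
theorem triple_meagre {A : Set ℕ} {f F : X A → Set ℕ} {g : P → Set ℕ} {c : Code}
    {x0 : X A} {p0 : P} {s : ℕ}
    (h1 : IsMeagre {z : X A × P | z.1 ∈ boxX x0 s ∧ z.2 ∈ boxP p0 s ∧
      g z.2 ≠ op c (jn (f z.1) (F (act3 z.2 z.1)))})
    (h2 : IsMeagre {z : X A × P | z.1 ∈ boxX x0 s ∧ (∀ i < s, z.2 i = 0) ∧
      f (act3 z.2 z.1) ≠ f z.1}) :
    IsMeagre {z : X A × P × P | z.1 ∈ boxX x0 s ∧ z.2.1 ∈ boxP p0 s ∧ z.2.2 ∈ boxP p0 s ∧
      g z.2.1 ≠ g z.2.2} := by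
  have e1 := h1.preimage_of_isOpenMap (cont_pr1 (A := A)) open_pr1
  have e2 := h1.preimage_of_isOpenMap ((cont_pr2 (A := A)).comp (sh (A := A)).continuous)
    (open_pr2.comp (sh (A := A)).isOpenMap)
  have e3 := h2.preimage_of_isOpenMap ((cont_pr1 (A := A)).comp (df (A := A)).continuous)
    (open_pr1.comp (df (A := A)).isOpenMap)
  refine ((e1.union e2).union e3).mono ?_
  rintro ⟨⟨v, y, r⟩, p, q⟩ ⟨hx, hp, hq, hne⟩
  by_contra hcon
  rw [Set.mem_union, Set.mem_union, not_or, not_or] at hcon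
  obtain ⟨⟨n1, n2⟩, n3⟩ := hcon
  have hz : ∀ i < s, (p - q) i = 0 := by
    intro i hi
    have a1 : p i = p0 i := hp i hi
    have a2 : q i = p0 i := hq i hi
    simp [a1, a2]
  have hx' : act3 (p - q) ((v, y, r) : X A) ∈ boxX x0 s := by
    intro i hi
    obtain ⟨b1, b2, b3⟩ := hx i hi
    refine ⟨b1, ?_, b3⟩
    change y i + (p - q) i = x0.2.1 i
    rw [hz i hi, add_zero]
    exact b2
  have m1 : g p = op c (jn (f (v, y, r)) (F (act3 p (v, y, r)))) := by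
    by_contra hc
    exact n1 ⟨hx, hp, hc⟩
  have m2 : g q = op c (jn (f (act3 (p - q) (v, y, r)))
      (F (act3 q (act3 (p - q) (v, y, r))))) := by
    by_contra hc
    exact n2 ⟨hx', hq, hc⟩
  have m3 : f (act3 (p - q) (v, y, r)) = f (v, y, r) := by
    by_contra hc
    exact n3 ⟨hx, hz, hc⟩
  have m4 : act3 q (act3 (p - q) ((v, y, r) : X A)) = act3 p (v, y, r) := by
    have h : y + (p - q) + q = y + p := by
      funext i
      simp only [Pi.add_apply, Pi.sub_apply]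
      ring
    simp [act3, h]
  apply hne
  change g p = g q
  rw [m1, m2, m3, m4]

/-- If `g` is essentially constant on the box then there is a contradiction. -/
theorem not_const (h_CTM : T_CTM) (h_K3 : T_K3) (hSp : SpLib) (hAut : AutLib) (φ : Aut)
    {A : Set ℕ} {g : P → Set ℕ} {x0 : X A} {p0 : P} {s : ℕ}
    (hEN : EN {p | EEqv (g p) (φ.F (cP p))} (boxP p0 s))
    (h : IsMeagre {z : X A × P × P | z.1 ∈ boxX x0 s ∧ z.2.1 ∈ boxP p0 s ∧
      z.2.2 ∈ boxP p0 s ∧ g z.2.1 ≠ g z.2.2}) : False := by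
  have k1 := h_K3 (X A) (P × P) _ h
  have b1 : ¬ IsMeagre (boxX x0 s) :=
    not_isMeagre_of_isOpen (hSp.openX A x0 s) ⟨x0, boxX_self x0 s⟩
  obtain ⟨x, hx, hx2⟩ : ∃ x, x ∈ boxX x0 s ∧ IsMeagre {y : P × P | (x, y) ∈
      {z : X A × P × P | z.1 ∈ boxX x0 s ∧ z.2.1 ∈ boxP p0 s ∧
      z.2.2 ∈ boxP p0 s ∧ g z.2.1 ≠ g z.2.2}} := by
    by_contra hcon
    push Not at hcon
    exact b1 (k1.mono fun x hx => hcon x hx)
  have k2 := h_K3 P P _ hx2
  have b2 : ¬ IsMeagre (boxP p0 s) :=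
    not_isMeagre_of_isOpen (hSp.openP p0 s) ⟨p0, boxP_self p0 s⟩
  obtain ⟨p, hp, hp2⟩ : ∃ p, p ∈ boxP p0 s ∧ IsMeagre {q : P | (p, q) ∈
      {y : P × P | (x, y) ∈ {z : X A × P × P | z.1 ∈ boxX x0 s ∧ z.2.1 ∈ boxP p0 s ∧
      z.2.2 ∈ boxP p0 s ∧ g z.2.1 ≠ g z.2.2}}} := by
    by_contra hcon
    push Not at hcon
    exact b2 (k2.mono fun p hp => hcon p hp)
  have b3 := hEN (boxP p0 s) subset_rfl (hSp.openP p0 s) ⟨p0, boxP_self p0 s⟩
  apply b3
  refine (hp2.union (h_CTM (φ.G (g p)))).mono ?_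
  rintro q ⟨hq1, hq2⟩
  rw [Set.mem_union]
  by_cases hgq : g p = g q
  · right
    have e : EEqv (g p) (φ.F (cP q)) := by
      rw [hgq]
      exact hq1
    exact ⟨(hAut.up φ _ _).1 e.2, (hAut.down φ _ _).1 e.1⟩
  · left
    exact ⟨hx, hp, hq2, hgq⟩

end EDG_

open EDG_ in
theorem p_EDG (h_UN3 : T_UN3) (h_INV : T_INV) (h_CTM : T_CTM) (h_K3 : T_K3) (h_K7 : T_K7)
    (hBM : BMLib) (hSp : SpLib) (hAut : AutLib) : T_EDG := by
  intro φ A hA f hf S O hO hEN hS x1 s1 hbox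
  obtain ⟨x0, p0, s0, g, F, c, hsub, hQ, hM⟩ := h_UN3 φ A hA f hf S (boxX x1 s1)
    (hSp.openX A x1 s1) ⟨x1, boxX_self x1 s1⟩ (EN_mono hEN hbox) hS
  obtain ⟨s, hs0, hs1⟩ : ∃ s, s0 ≤ s ∧ s1 ≤ s := ⟨max s0 s1, le_max_left _ _, le_max_right _ _⟩
  have hsub' : boxX x0 s ⊆ boxX x1 s1 := (boxX_anti x0 hs0).trans hsub
  have hQ' : EN {p | EEqv (g p) (φ.F (cP p))} (boxP p0 s) := EN_mono hQ (boxP_anti p0 hs0)
  have hM' : IsMeagre {z : X A × P | z.1 ∈ boxX x0 s ∧ z.2 ∈ boxP p0 s ∧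
      g z.2 ≠ op c (jn (f z.1) (F (act3 z.2 z.1)))} := by
    refine hM.mono ?_
    rintro z ⟨hz1, hz2, hz3⟩
    exact ⟨boxX_anti x0 hs0 hz1, boxP_anti p0 hs0 hz2, hz3⟩
  by_cases hcase : ∀ (n i : ℕ) (k : ℤ), s ≤ i →
      IsMeagre {x | x ∈ boxX x0 s ∧ n ∈ f x ∧ n ∉ f (act3 (unitP i k) x)}
  · exact (not_const h_CTM h_K3 hSp hAut φ hQ'
      (triple_meagre hM' (h_INV A f hf x0 s hcase))).elim
  · push Not at hcase
    obtain ⟨n, i, k, hi, hnm⟩ := hcase
    have hB : BaireMeasurableSet {x | x ∈ boxX x0 s ∧ n ∈ f x ∧ n ∉ f (act3 (unitP i k) x)} := by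
      have c1 : BaireMeasurableSet {x : X A | n ∈ f x} := hf n
      have c2 : BaireMeasurableSet {x : X A | n ∈ f (act3 (unitP i k) x)} :=
        hBM.bcomp (m := fun x : X A => act3 (unitP i k) x) (tr (unitP i k)).continuous
          (tr (unitP i k)).isOpenMap hf n
      exact (hSp.openX A x0 s).baireMeasurableSet.inter (c1.inter c2.compl)
    obtain ⟨U, hUsub, hUo, ⟨a, ha⟩, hUm⟩ := h_K7 (X A) _ (boxX x0 s) hB hnm
      (hSp.openX A x0 s) (fun x hx => hx.1)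
    obtain ⟨t, ht⟩ := hSp.nhX A U a hUo ha
    have hl := ht (max t (i + 1)) (le_max_left _ _)
    refine ⟨n, i, k, a, max t (i + 1), hs1.trans hi, ?_, (hl.trans hUsub).trans hsub', ?_⟩
    · exact lt_of_lt_of_le (Nat.lt_succ_self i) (le_max_right _ _)
    · refine hUm.mono ?_
      rintro x ⟨hx1, hx2⟩
      exact ⟨hl hx1, fun hx3 => hx2 hx3.2⟩

end Pool.Agent.RIG
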