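import Pool.Agent.RIG.Targets

set_option autoImplicit false

/-!
# RIG, target ELG: elimination for sequences
-/

namespace Pool.Agent.RIG

open Topology Filter Nat.Partrec

namespace ELG_

/-- the place coded by `m` -/
def nn (m : ℕ) : ℕ := m.unpair.2.unpair.1

/-- the value coded by `m` -/
def ee (m : ℕ) : ℕ := m.unpair.2.unpair.2

/-- condition on one member of the list -/
def C1 (s : ℕ) (l0 M : List ℕ) (m : ℕ) : Prop :=
  (m.unpair.1 = 0 ∧ Nat.pair 0 (ee m) ∈ M ∧ (¬ nn m < s ∨ l0.getD (nn m) 0 = ee m)) ∨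
    (m.unpair.1 = 1 ∧ m ∈ M)

/-- single valuedness -/
def C2 (m m' : ℕ) : Prop :=
  ¬ (m.unpair.1 = 0 ∧ m'.unpair.1 = 0 ∧ nn m = nn m') ∨ ee m = ee m'

/-- the c.e. relation -/
def Rel (c : Code) (s : ℕ) (l0 : List ℕ) (y : ℕ) (M : List ℕ) : Prop :=
  ∃ L : List ℕ, (∀ m ∈ L, C1 s l0 M m) ∧ (∀ m ∈ L, ∀ m' ∈ L, C2 m m') ∧
    (Code.eval c (Nat.pair y (Encodable.encode L))).Dom

theorem pmem : PrimrecPred (fun a : ℕ × List ℕ => a.1 ∈ a.2) := by
  have h : PrimrecPred fun a : ℕ × List ℕ => List.idxOf a.1 a.2 < a.2.length :=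
    Primrec.nat_lt.comp (Primrec.list_idxOf.comp Primrec.fst Primrec.snd)
      (Primrec.list_length.comp Primrec.snd)
  exact h.of_eq fun a => List.idxOf_lt_length_iff

theorem p1 : Primrec (fun m : ℕ => m.unpair.1) := Primrec.fst.comp Primrec.unpair

theorem pnn : Primrec nn :=
  Primrec.fst.comp (Primrec.unpair.comp (Primrec.snd.comp Primrec.unpair))

theorem pee : Primrec ee :=
  Primrec.snd.comp (Primrec.unpair.comp (Primrec.snd.comp Primrec.unpair))

theorem pC1 (s : ℕ) (l0 : List ℕ) : PrimrecPred (fun a : List ℕ × ℕ => C1 s l0 a.1 a.2) := by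
  have h0 : PrimrecPred fun a : List ℕ × ℕ => a.2.unpair.1 = 0 :=
    Primrec.eq.comp (p1.comp Primrec.snd) (Primrec.const 0)
  have h1 : PrimrecPred fun a : List ℕ × ℕ => a.2.unpair.1 = 1 :=
    Primrec.eq.comp (p1.comp Primrec.snd) (Primrec.const 1)
  have h2 : PrimrecPred fun a : List ℕ × ℕ => a.2 ∈ a.1 :=
    pmem.comp (Primrec.snd.pair Primrec.fst)
  have h3 : PrimrecPred fun a : List ℕ × ℕ => Nat.pair 0 (ee a.2) ∈ a.1 :=
    pmem.comp ((Primrec₂.natPair.comp (Primrec.const 0) (pee.comp Primrec.snd)).pair Primrec.fst)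
  have h4 : PrimrecPred fun a : List ℕ × ℕ => nn a.2 < s :=
    Primrec.nat_lt.comp (pnn.comp Primrec.snd) (Primrec.const s)
  have h5 : PrimrecPred fun a : List ℕ × ℕ => l0.getD (nn a.2) 0 = ee a.2 :=
    Primrec.eq.comp ((Primrec.list_getD 0).comp (Primrec.const l0) (pnn.comp Primrec.snd))
      (pee.comp Primrec.snd)
  exact (h0.and (h3.and (h4.not.or h5))).or (h1.and h2)

theorem pC2 : PrimrecPred (fun a : ℕ × ℕ => C2 a.1 a.2) := by
  have h0 : PrimrecPred fun a : ℕ × ℕ => a.1.unpair.1 = 0 :=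
    Primrec.eq.comp (p1.comp Primrec.fst) (Primrec.const 0)
  have h1 : PrimrecPred fun a : ℕ × ℕ => a.2.unpair.1 = 0 :=
    Primrec.eq.comp (p1.comp Primrec.snd) (Primrec.const 0)
  have h2 : PrimrecPred fun a : ℕ × ℕ => nn a.1 = nn a.2 :=
    Primrec.eq.comp (pnn.comp Primrec.fst) (pnn.comp Primrec.snd)
  have h3 : PrimrecPred fun a : ℕ × ℕ => ee a.1 = ee a.2 :=
    Primrec.eq.comp (pee.comp Primrec.fst) (pee.comp Primrec.snd)
  exact (h0.and (h1.and h2)).not.or h3

theorem re_rel (hR : RELib) (c : Code) (s : ℕ) (l0 : List ℕ) :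
    RE (fun a : ℕ × List ℕ => Rel c s l0 a.1 a.2) := by
  refine hR.ex (β := List ℕ) (p := fun (a : ℕ × List ℕ) (L : List ℕ) =>
    (∀ m ∈ L, C1 s l0 a.2 m) ∧ (∀ m ∈ L, ∀ m' ∈ L, C2 m m') ∧
    (Code.eval c (Nat.pair a.1 (Encodable.encode L))).Dom) ?_
  refine hR.and ?_ (hR.and ?_ ?_)
  · refine hR.allL (l := fun a : (ℕ × List ℕ) × List ℕ => a.2)
      (p := fun a m => C1 s l0 a.1.2 m) Primrec.snd ?_
    exact hR.prim ((pC1 s l0).comp
      ((Primrec.snd.comp (Primrec.fst.comp Primrec.fst)).pair Primrec.snd))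
  · refine hR.allL (l := fun a : (ℕ × List ℕ) × List ℕ => a.2)
      (p := fun a m => ∀ m' ∈ a.2, C2 m m') Primrec.snd ?_
    refine hR.allL (l := fun b : ((ℕ × List ℕ) × List ℕ) × ℕ => b.1.2)
      (p := fun b m' => C2 b.2 m') (Primrec.snd.comp Primrec.fst) ?_
    exact hR.prim (pC2.comp ((Primrec.snd.comp Primrec.fst).pair Primrec.snd))
  · refine hR.comp (f := fun a : (ℕ × List ℕ) × List ℕ =>
      (c, Nat.pair a.1.1 (Encodable.encode a.2)))
      (p := fun a : Code × ℕ => (Code.eval a.1 a.2).Dom) ?_ hR.ev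
    exact (Primrec.const c).pair (Primrec₂.natPair.comp (Primrec.fst.comp Primrec.fst)
      (Primrec.encode.comp Primrec.snd))

/-- evidence -/
def evi (m : ℕ) : ℕ := if m.unpair.1 = 0 then Nat.pair 0 (ee m) else m

section main

variable {E : Type} (enc : E → ℕ)

theorem mem_jn_left {A B : Set ℕ} {m : ℕ} (h : m ∈ jn A B) (h0 : m.unpair.1 = 0) :
    m.unpair.2 ∈ A := by
  rcases h with h | h
  · exact h.2
  · omega

theorem mem_jn_right {A B : Set ℕ} {m : ℕ} (h : m ∈ jn A B) (h0 : m.unpair.1 = 1) :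
    m.unpair.2 ∈ B := by
  rcases h with h | h
  · omega
  · exact h.2

theorem graph_data {z : ℕ → E} {m : ℕ} (h : m.unpair.2 ∈ graph enc z) :
    ee m = enc (z (nn m)) := by
  obtain ⟨n, hn⟩ := h
  unfold ee nn
  rw [hn]
  simp

theorem data_graph {z : ℕ → E} {m : ℕ} (h : ee m = enc (z (nn m))) :
    m.unpair.2 ∈ graph enc z := by
  refine ⟨nn m, ?_⟩
  rw [← h]
  unfold ee nn
  exact (Nat.pair_unpair _).symm

/-- from a point to the relation -/
theorem fwd {z z0 : ℕ → E} {K : Set ℕ} {c : Code} {s y : ℕ} (hz : ∀ i < s, z i = z0 i)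
    (h : y ∈ op c (jn (graph enc z) K)) :
    ∃ M : List ℕ, (∀ m ∈ M, m ∈ jn (Set.range enc) K) ∧
      Rel c s ((List.range s).map fun i => enc (z0 i)) y M := by
  obtain ⟨L, hL, hd⟩ := h
  have key : ∀ m ∈ L, m.unpair.1 = 0 → ee m = enc (z (nn m)) := fun m hm h0 =>
    graph_data enc (mem_jn_left (hL m hm) h0)
  refine ⟨L.map evi, ?_, L, ?_, ?_, hd⟩
  · intro x hx
    obtain ⟨m, hm, rfl⟩ := List.mem_map.1 hx
    unfold evi
    split_ifs with h0
    · left
      rw [Nat.unpair_pair]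
      exact ⟨rfl, ⟨z (nn m), (key m hm h0).symm⟩⟩
    · rcases hL m hm with h | h
      · exact absurd h.1 h0
      · exact Or.inr h
  · intro m hm
    rcases hL m hm with h | h
    · left
      refine ⟨h.1, ?_, ?_⟩
      · refine List.mem_map.2 ⟨m, hm, ?_⟩
        unfold evi
        rw [if_pos h.1]
      · by_cases hs : nn m < s
        · right
          rw [key m hm h.1, hz _ hs]
          rw [List.getD_eq_getElem _ _ (by simpa using hs)]
          simp
        · exact Or.inl hs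
    · right
      refine ⟨h.1, ?_⟩
      refine List.mem_map.2 ⟨m, hm, ?_⟩
      unfold evi
      rw [if_neg (by omega)]
  · intro m hm m' hm'
    by_cases h : m.unpair.1 = 0 ∧ m'.unpair.1 = 0 ∧ nn m = nn m'
    · right
      rw [key m hm h.1, key m' hm' h.2.1, h.2.2]
    · exact Or.inl h

/-- from the relation to a point -/
theorem bwd (hinj : Function.Injective enc) {N : Set (ℕ → E)} {z0 : ℕ → E} {K Y : Set ℕ}
    {c : Code} {s y : ℕ} (hN : ∀ z ∈ N, Y = op c (jn (graph enc z) K))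
    (hdense : ∀ (z1 : ℕ → E) (t : ℕ), (∀ i < s, z1 i = z0 i) →
      ∃ z ∈ N, ∀ i < t, z i = z1 i)
    {M : List ℕ} (hM : ∀ m ∈ M, m ∈ jn (Set.range enc) K)
    (h : Rel c s ((List.range s).map fun i => enc (z0 i)) y M) : y ∈ Y := by
  classical
  obtain ⟨L, h1, h2, hd⟩ := h
  have hex : ∀ n : ℕ, ∃ e : E, (∀ m ∈ L, m.unpair.1 = 0 → nn m = n → ee m = enc e) ∧
      (n < s → e = z0 n) := by
    intro n
    by_cases hn : ∃ m ∈ L, m.unpair.1 = 0 ∧ nn m = n
    · obtain ⟨m, hm, h0, hmn⟩ := hn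
      rcases h1 m hm with h | h
      · have h3 := mem_jn_left (hM _ h.2.1) (by rw [Nat.unpair_pair])
        rw [Nat.unpair_pair] at h3
        obtain ⟨e, he⟩ := h3
        refine ⟨e, ?_, ?_⟩
        · intro m' hm' h0' hmn'
          rcases h2 m' hm' m hm with h4 | h4
          · exact absurd ⟨h0', h0, hmn'.trans hmn.symm⟩ h4
          · exact h4.trans he.symm
        · intro hs
          rcases h.2.2 with h5 | h5
          · exact absurd (hmn ▸ hs) h5
          · have hs' : nn m < s := hmn ▸ hs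
            rw [List.getD_eq_getElem _ _ (by simpa using hs')] at h5
            simp only [List.getElem_map, List.getElem_range] at h5
            apply hinj
            change enc e = ee m at he
            rw [he, ← h5, hmn]
      · omega
    · refine ⟨z0 n, ?_, fun _ => rfl⟩
      intro m hm h0 hmn
      exact absurd ⟨m, hm, h0, hmn⟩ hn
  choose z1 hz1 hz1' using hex
  obtain ⟨t, ht⟩ : ∃ t : ℕ, ∀ m ∈ L, nn m < t := by
    refine ⟨(L.map nn).sum + 1, fun m hm => ?_⟩
    have := List.single_le_sum (fun x _ => Nat.zero_le x) _ (List.mem_map_of_mem (f := nn) hm)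
    omega
  obtain ⟨z, hz, hzt⟩ := hdense z1 t (fun i hi => hz1' i hi)
  rw [hN z hz]
  refine ⟨L, ?_, hd⟩
  intro m hm
  rcases h1 m hm with h | h
  · left
    refine ⟨h.1, data_graph enc ?_⟩
    rw [hzt _ (ht m hm)]
    exact hz1 _ m hm h.1 rfl
  · right
    exact ⟨h.1, mem_jn_right (hM m h.2) h.1⟩

end main

/-- some piece is dense in a cylinder -/
theorem dense_piece {E : Type} [TopologicalSpace E] [DiscreteTopology E]
    {N : Code → Set (ℕ → E)} (h : ¬ IsMeagre (⋃ c, N c)) :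
    ∃ (c : Code) (z0 : ℕ → E) (s : ℕ), ∀ (z1 : ℕ → E) (t : ℕ), (∀ i < s, z1 i = z0 i) →
      ∃ z ∈ N c, ∀ i < t, z i = z1 i := by
  haveI : Countable Code := Encodable.countable
  have h1 : ∃ c, ¬ IsMeagre (N c) := by
    by_contra hc
    push Not at hc
    exact h (isMeagre_iUnion hc)
  obtain ⟨c, hc⟩ := h1
  have h2 : ¬ IsNowhereDense (N c) := fun hn => hc hn.isMeagre
  have h3 : (interior (closure (N c))).Nonempty := by
    rw [Set.nonempty_iff_ne_empty]
    exact h2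
  obtain ⟨z0, hz0⟩ := h3
  obtain ⟨u, ⟨x, s, rfl⟩, hu1, hu2⟩ := (PiNat.isTopologicalBasis_cylinders
    (fun _ : ℕ => E)).exists_subset_of_mem_open hz0 isOpen_interior
  refine ⟨c, z0, s, ?_⟩
  intro z1 t hz1
  have h4 : z1 ∈ closure (N c) := by
    apply interior_subset
    apply hu2
    intro i hi
    rw [hz1 i hi]
    exact hu1 i hi
  obtain ⟨z, hz, hzN⟩ := mem_closure_iff.1 h4 _ (PiNat.isOpen_cylinder (fun _ : ℕ => E) z1 t)
    (PiNat.self_mem_cylinder z1 t)
  exact ⟨z, hzN, fun i hi => hz i hi⟩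

end ELG_

open ELG_

theorem p_ELG (hR : RELib) (hLOP : T_LOP) (hOP : T_OP) : T_ELG := by
  intro E _ _ _ enc hinj Y K hY
  have hset : {z : ℕ → E | ERed Y (jn (graph enc z) K)} =
      ⋃ c : Code, {z | Y = op c (jn (graph enc z) K)} := by
    ext z
    simp only [Set.mem_setOf_eq, Set.mem_iUnion]
    exact hOP Y _
  rw [hset] at hY
  obtain ⟨c, z0, s, hd⟩ := dense_piece hY
  obtain ⟨c', hc'⟩ := hLOP _ (re_rel hR c s ((List.range s).map fun i => enc (z0 i)))
  rw [hOP]
  refine ⟨c', ?_⟩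
  rw [hc']
  ext y
  constructor
  · intro hy
    obtain ⟨z, hz, hzs⟩ := hd z0 s (fun _ _ => rfl)
    have hy' : y ∈ op c (jn (graph enc z) K) := by
      have : Y = op c (jn (graph enc z) K) := hz
      rw [← this]
      exact hy
    obtain ⟨M, hM, hrel⟩ := fwd enc hzs hy'
    exact ⟨M, hM, hrel⟩
  · rintro ⟨M, hM, hrel⟩
    exact bwd enc hinj (fun z hz => hz) hd hM hrel

end Pool.Agent.RIG
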