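import Pool.Agent.RIG.Targets

set_option autoImplicit false

/-!
# Rigidity of the enumeration degrees: elimination for products

Targets ELV, ELP, ELQ, ELZ of the project RIG (MP_431ff4_lc).
-/

namespace Pool.Agent.RIG

open Topology Filter Nat.Partrec

namespace ELZ_

/-- The range of the coding of the integers. -/
theorem range_encZ : Set.range encZ = {m : ℕ | m.unpair.1 = 0 ∨ m.unpair.2 = 0} := by
  ext m
  simp only [Set.mem_range, Set.mem_ofPred_eq]
  constructor
  · rintro ⟨a, rfl⟩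
    simp only [encZ, Nat.unpair_pair]
    omega
  · intro h
    refine ⟨(m.unpair.1 : ℤ) - (m.unpair.2 : ℤ), ?_⟩
    have h1 : ((m.unpair.1 : ℤ) - (m.unpair.2 : ℤ)).toNat = m.unpair.1 := by omega
    have h2 : (-((m.unpair.1 : ℤ) - (m.unpair.2 : ℤ))).toNat = m.unpair.2 := by omega
    rw [encZ, h1, h2, Nat.pair_unpair]

/-- A primitive recursive set is enumerable from any set. -/
theorem eRed_of_prim (hR : RELib) (hL : T_LOP) (hO : T_OP) {W : Set ℕ}
    (hW : PrimrecPred (fun n : ℕ => n ∈ W)) (C : Set ℕ) : ERed W C := by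
  have hre : RE (fun a : ℕ × List ℕ => a.1 ∈ W) := hR.comp Primrec.fst (hR.prim hW)
  obtain ⟨c, hc⟩ := hL (fun x _ => x ∈ W) hre
  rw [hO]
  refine ⟨c, ?_⟩
  rw [hc C]
  ext x
  constructor
  · intro hx
    exact ⟨[], by simp, hx⟩
  · rintro ⟨_, _, hx⟩
    exact hx

theorem eRed_range_encZ (hR : RELib) (hL : T_LOP) (hO : T_OP) (C : Set ℕ) :
    ERed (Set.range encZ) C := by
  refine eRed_of_prim hR hL hO ?_ C
  rw [range_encZ]
  have h1 : PrimrecPred (fun m : ℕ => m.unpair.1 = 0) :=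
    Primrec.eq.comp (Primrec.fst.comp Primrec.unpair) (Primrec.const 0)
  have h2 : PrimrecPred (fun m : ℕ => m.unpair.2 = 0) :=
    Primrec.eq.comp (Primrec.snd.comp Primrec.unpair) (Primrec.const 0)
  exact h1.or h2

end ELZ_

theorem p_ELV (hG : T_ELG) : T_ELV := by
  intro A hA
  have : Nonempty A := hA.to_subtype
  have h := hG A (fun a : A => (a : ℕ)) Subtype.val_injective
  have hr : Set.range (fun a : A => (a : ℕ)) = A := Subtype.range_coe
  rw [hr] at h
  exact h

theorem p_ELP (hG : T_ELG) (hR : RELib) (hL : T_LOP) (hO : T_OP) (hT : LatLib) : T_ELP := by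
  intro A Y K hN
  have hinj : Function.Injective encZ := by
    intro a b hab
    simp only [encZ, Nat.pair_eq_pair] at hab
    omega
  have h := hG ℤ encZ hinj Y K hN
  refine hT.trans h (hT.lub ?_ (hT.right A K))
  exact ELZ_.eRed_range_encZ hR hL hO _

theorem p_ELQ (hK3 : T_K3) (hK7 : T_K7) (hB : BMLib) (hT : LatLib) : T_ELQ := by
  intro S T _ _ _ _ _ _ c d A hc hd hcA hdA Y K hN
  set B : Set (S × T) := {z | ERed Y (jn (jn (c z.1) (d z.2)) K)} with hBdef
  have hBM : BaireMeasurableSet B := by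
    refine hB.bred (hB.bconst Y) (hB.bjn (hB.bjn ?_ ?_) (hB.bconst K))
    · exact hB.bcomp continuous_fst isOpenMap_fst hc
    · exact hB.bcomp continuous_snd isOpenMap_snd hd
  obtain ⟨U, -, hUo, ⟨⟨s, t⟩, hst⟩, hUm⟩ :=
    hK7 (S × T) B Set.univ hBM hN isOpen_univ (Set.subset_univ _)
  obtain ⟨U1, V1, hU1, hV1, hs, ht, hUV⟩ := isOpen_prod_iff.1 hUo s t hst
  set M : Set (S × T) := (U1 ×ˢ V1) \ B with hMdef
  have hM : IsMeagre M := hUm.mono (Set.sdiff_subset_sdiff_left hUV)
  have hM3 := hK3 S T M hM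
  set E : Set S := {x : S | ¬ IsMeagre {y : T | (x, y) ∈ M}} with hE
  have hU1n : ¬ IsMeagre U1 := not_isMeagre_of_isOpen hU1 ⟨s, hs⟩
  have hV1n : ¬ IsMeagre V1 := not_isMeagre_of_isOpen hV1 ⟨t, ht⟩
  -- for comeager many first coordinates the second one can be eliminated
  have key : ∀ z ∈ U1, z ∉ E → ERed Y (jn (c z) (jn A K)) := by
    intro z hz hzE
    have hzM : IsMeagre {y : T | (z, y) ∈ M} := by
      by_contra hcon
      exact hzE hcon
    have h1 : ¬ IsMeagre {w : T | ERed Y (jn (d w) (jn (c z) K))} := by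
      intro hcon
      apply hV1n
      refine (hcon.union hzM).mono ?_
      intro w hw
      by_cases hwB : (z, w) ∈ B
      · left
        have h2 : ERed Y (jn (jn (c z) (d w)) K) := hwB
        refine hT.trans h2 (hT.lub (hT.lub ?_ ?_) ?_)
        · exact hT.trans (hT.left (c z) K) (hT.right _ _)
        · exact hT.left _ _
        · exact hT.trans (hT.right (c z) K) (hT.right _ _)
      · right
        exact ⟨⟨hz, hw⟩, hwB⟩
    have h3 := hdA Y (jn (c z) K) h1
    refine hT.trans h3 (hT.lub ?_ (hT.lub ?_ ?_))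
    · exact hT.trans (hT.left A K) (hT.right _ _)
    · exact hT.left _ _
    · exact hT.trans (hT.right A K) (hT.right _ _)
  have h4 : ¬ IsMeagre {z : S | ERed Y (jn (c z) (jn A K))} := by
    intro hcon
    apply hU1n
    refine (hcon.union hM3).mono ?_
    intro z hz
    by_cases hzE : z ∈ E
    · right
      exact hzE
    · left
      exact key z hz hzE
  have h5 := hcA Y (jn A K) h4
  exact hT.trans h5 (hT.lub (hT.left A K) (hT.refl _))

theorem p_ELZ (hV : T_ELV) (hP : T_ELP) (hQ : T_ELQ) (hB : BMLib) : T_ELZ := by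
  intro A hA
  have hbPP : BM (fun z : P × P => jn (cP z.1) (cP z.2)) :=
    hB.bjn (hB.bcomp continuous_fst isOpenMap_fst hB.bP)
      (hB.bcomp continuous_snd isOpenMap_snd hB.bP)
  have hePP : Elim (fun z : P × P => jn (cP z.1) (cP z.2)) A :=
    hQ P P cP cP A hB.bP hB.bP (hP A) (hP A)
  have heX : Elim (cX : X A → Set ℕ) A :=
    hQ (ℕ → A) (P × P) cV (fun z : P × P => jn (cP z.1) (cP z.2)) A (hB.bV A) hbPP
      (hV A hA) hePP
  refine ⟨heX, ?_⟩
  have hbPPP : BM (fun z : P × P × P => jn (cP z.1) (jn (cP z.2.1) (cP z.2.2))) :=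
    hB.bjn (hB.bcomp continuous_fst isOpenMap_fst hB.bP)
      (hB.bcomp (m := fun z : P × P × P => z.2) continuous_snd isOpenMap_snd hbPP)
  have hePPP : Elim (fun z : P × P × P => jn (cP z.1) (jn (cP z.2.1) (cP z.2.2))) A :=
    hQ P (P × P) cP (fun z : P × P => jn (cP z.1) (cP z.2)) A hB.bP hbPP (hP A) hePP
  have hbP4 : BM (fun z : P × P × P × P =>
      jn (cP z.1) (jn (cP z.2.1) (jn (cP z.2.2.1) (cP z.2.2.2)))) :=
    hB.bjn (hB.bcomp continuous_fst isOpenMap_fst hB.bP)
      (hB.bcomp (m := fun z : P × P × P × P => z.2) continuous_snd isOpenMap_snd hbPPP)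
  have heP4 : Elim (fun z : P × P × P × P =>
      jn (cP z.1) (jn (cP z.2.1) (jn (cP z.2.2.1) (cP z.2.2.2)))) A :=
    hQ P (P × P × P) cP (fun z : P × P × P => jn (cP z.1) (jn (cP z.2.1) (cP z.2.2))) A
      hB.bP hbPPP (hP A) hePPP
  have i4 : SecondCountableTopology (P × P × P × P) := inferInstance
  exact hQ (X A) (P × P × P × P) cX
    (fun z : P × P × P × P => jn (cP z.1) (jn (cP z.2.1) (jn (cP z.2.2.1) (cP z.2.2.2)))) A
    (hB.bX A) hbP4 heX heP4

end Pool.Agent.RIG
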