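import Pool.Agent.RIG.Targets

set_option autoImplicit false

/-!
# RIG, target END
-/

namespace Pool.Agent.RIG

open Topology Filter Nat.Partrec

namespace END_

variable {A : Set ℕ}

/-- The point is moved by an action, the parameter depends on the other coordinates. -/
def mv (al : P → X A → X A) (de : P × P × P × P → P) (z : Z A) : Z A := (al (de z.2) z.1, z.2)

theorem mv_cont {al : P → X A → X A} (hal : GoodAct al) {de : P × P × P × P → P}
    (hde : Continuous de) : Continuous (mv al de) :=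
  (hal.cont.comp ((hde.comp continuous_snd).prodMk continuous_fst)).prodMk continuous_snd

/-- The map `mv` as a homeomorphism. -/
def hm (al : P → X A → X A) (hal : GoodAct al) (de : P × P × P × P → P)
    (hde : Continuous de) : Z A ≃ₜ Z A where
  toFun := mv al de
  invFun := mv al (fun r => - de r)
  left_inv z := by
    simp only [mv]
    rw [← hal.add, neg_add_cancel, hal.zero]
  right_inv z := by
    simp only [mv]
    rw [← hal.add, add_neg_cancel, hal.zero]
  continuous_toFun := mv_cont hal hde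
  continuous_invFun := mv_cont hal hde.neg

theorem mv_open {al : P → X A → X A} (hal : GoodAct al) {de : P × P × P × P → P}
    (hde : Continuous de) : IsOpenMap (mv al de) :=
  (hm al hal de hde).isOpenMap

theorem open_iter {T : Type} [TopologicalSpace T] {m : T → T} (h : IsOpenMap m) (n : ℕ) :
    IsOpenMap m^[n] := by
  induction n with
  | zero => exact IsOpenMap.id
  | succ n ih => rw [Function.iterate_succ]; exact ih.comp h

theorem mv_iter_snd (al : P → X A → X A) (de : P × P × P × P → P) (n : ℕ) (z : Z A) :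
    ((mv al de)^[n] z).2 = z.2 := by
  induction n with
  | zero => rfl
  | succ n ih => rw [Function.iterate_succ_apply']; exact ih

theorem act1_iter (de : P × P × P × P → P) (n : ℕ) (z : Z A) :
    ((mv act1 de)^[n] z).1 = (z.1.1, z.1.2.1, fun i => z.1.2.2 i + n * de z.2 i) := by
  induction n with
  | zero =>
    simp
  | succ n ih =>
    rw [Function.iterate_succ_apply']
    show act1 (de ((mv act1 de)^[n] z).2) ((mv act1 de)^[n] z).1 = _
    rw [mv_iter_snd, ih]
    simp only [act1]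
    refine Prod.ext rfl (Prod.ext rfl ?_)
    funext i
    simp only [Pi.add_apply]
    push_cast
    ring

theorem gam_cases (v : ℕ → A) (j : ℤ) : gam v j = 0 ∨ gam v j = 1 := by
  unfold gam
  split_ifs
  · exact Or.inl rfl
  · exact Or.inr rfl

end END_

open END_ in
theorem p_END (hA : ActLib) : T_END := by
  intro A f x1 x2 p0 q0 s1 s2 g g' h h' c c' d d' n0 i0 k0 a l hx21 hal2 hs1 hs2 hil M1 M2 M3
  -- the maps
  have hT : GoodAct (act1 : P → X A → X A) := hA.a1 A
  have hH : GoodAct (act2 : P → X A → X A) := hA.a2 A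
  have hN : GoodAct (act3 : P → X A → X A) := hA.a3 A
  let dT : P × P × P × P → P := fun r => r.1 - r.2.1
  let dT' : P × P × P × P → P := fun r => r.2.1 - r.1
  let dH : P × P × P × P → P := fun r => r.2.2.1 - r.2.2.2
  let dN : P × P × P × P → P := fun _ => - unitP i0 k0
  have cdT : Continuous dT := by fun_prop
  have cdT' : Continuous dT' := by fun_prop
  have cdH : Continuous dH := by fun_prop
  have cdN : Continuous dN := continuous_const
  let T : Z A → Z A := mv act1 dT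
  let T' : Z A → Z A := mv act1 dT'
  let H : Z A → Z A := mv act2 dH
  let N : Z A → Z A := mv act3 dN
  have cT : Continuous T := mv_cont hT cdT
  have cT' : Continuous T' := mv_cont hT cdT'
  have cH : Continuous H := mv_cont hH cdH
  have cN : Continuous N := mv_cont hN cdN
  have oT : IsOpenMap T := mv_open hT cdT
  have oT' : IsOpenMap T' := mv_open hT cdT'
  have oH : IsOpenMap H := mv_open hH cdH
  have oN : IsOpenMap N := mv_open hN cdN
  -- the bad sets
  let B1 : Set (Z A) := {z | z.1 ∈ boxX x1 s1 ∧ z.2.1 ∈ boxP p0 s1 ∧ z.2.2.1 ∈ boxP p0 s1 ∧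
    f (act1 (z.2.1 - z.2.2.1) z.1) ≠ Th c c' (g z.2.1) (g' z.2.2.1) (f z.1)}
  let B1' : Set (Z A) := {z | z.1 ∈ boxX x1 s1 ∧ z.2.2.1 ∈ boxP p0 s1 ∧ z.2.1 ∈ boxP p0 s1 ∧
    f (act1 (z.2.2.1 - z.2.1) z.1) ≠ Th c c' (g z.2.2.1) (g' z.2.1) (f z.1)}
  let B2 : Set (Z A) := {z | z.1 ∈ boxX x2 s2 ∧ z.2.2.2.1 ∈ boxP q0 s2 ∧
    z.2.2.2.2 ∈ boxP q0 s2 ∧
    f (act2 (z.2.2.2.1 - z.2.2.2.2) z.1) ≠ Th d d' (h z.2.2.2.1) (h' z.2.2.2.2) (f z.1)}
  let B3 : Set (Z A) := {z | z.1 ∈ boxX a l ∧ ¬ (n0 ∈ f z.1 ∧ n0 ∉ f (act3 (unitP i0 k0) z.1))}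
  have mB1 : IsMeagre B1 := by
    have h1 : Continuous (fun z : Z A => (z.1, z.2.1, z.2.2.1)) := by fun_prop
    have h2 : IsOpenMap (fun z : Z A => (z.1, z.2.1, z.2.2.1)) :=
      IsOpenMap.id.prodMap (IsOpenMap.id.prodMap isOpenMap_fst)
    exact M1.preimage_of_isOpenMap h1 h2
  have mB1' : IsMeagre B1' := by
    have h1 : Continuous (fun z : Z A => (z.1, z.2.2.1, z.2.1)) := by fun_prop
    have h2 : IsOpenMap (fun z : Z A => (z.1, z.2.2.1, z.2.1)) :=
      IsOpenMap.id.prodMap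
        ((Homeomorph.prodComm P P).isOpenMap.comp (IsOpenMap.id.prodMap isOpenMap_fst))
    exact M1.preimage_of_isOpenMap h1 h2
  have mB2 : IsMeagre B2 := by
    have h1 : Continuous (fun z : Z A => (z.1, z.2.2.2.1, z.2.2.2.2)) := by fun_prop
    have h2 : IsOpenMap (fun z : Z A => (z.1, z.2.2.2.1, z.2.2.2.2)) :=
      IsOpenMap.id.prodMap (isOpenMap_snd.comp isOpenMap_snd)
    exact M2.preimage_of_isOpenMap h1 h2
  have mB3 : IsMeagre B3 := M3.preimage_of_isOpenMap continuous_fst isOpenMap_fst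
  -- the exceptional set
  have mE1 : IsMeagre (⋃ n : ℕ, T^[n] ⁻¹' B1) := isMeagre_iUnion fun n =>
    mB1.preimage_of_isOpenMap (cT.iterate n) (open_iter oT n)
  have mE2 : IsMeagre (⋃ n : ℕ, T^[n] ⁻¹' B2) := isMeagre_iUnion fun n =>
    mB2.preimage_of_isOpenMap (cT.iterate n) (open_iter oT n)
  have cW : ∀ n m : ℕ, Continuous (fun z => T'^[m] (H (T^[n] z))) := fun n m =>
    (cT'.iterate m).comp (cH.comp (cT.iterate n))
  have oW : ∀ n m : ℕ, IsOpenMap (fun z => T'^[m] (H (T^[n] z))) := fun n m =>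
    (open_iter oT' m).comp (oH.comp (open_iter oT n))
  have mE3 : IsMeagre (⋃ n : ℕ, ⋃ m : ℕ, (fun z => T'^[m] (H (T^[n] z))) ⁻¹' B1') :=
    isMeagre_iUnion fun n => isMeagre_iUnion fun m =>
      mB1'.preimage_of_isOpenMap (cW n m) (oW n m)
  have mE4 : IsMeagre (⋃ n : ℕ, (fun z => T'^[n] (H (T^[n] z))) ⁻¹' B3) :=
    isMeagre_iUnion fun n => mB3.preimage_of_isOpenMap (cW n n) (oW n n)
  have mE5 : IsMeagre (⋃ n : ℕ, (fun z => N (T'^[n] (H (T^[n] z)))) ⁻¹' B3) :=
    isMeagre_iUnion fun n => mB3.preimage_of_isOpenMap (cN.comp (cW n n)) (oN.comp (oW n n))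
  refine IsMeagre.mono ?_ (((mE1.union mE2).union mE3).union (mE4.union mE5))
  rintro z ⟨zx, zp, zp', zq, zq', hz⟩
  by_contra hno
  simp only [Set.mem_union, Set.mem_iUnion, Set.mem_preimage, not_or, not_exists] at hno
  obtain ⟨⟨⟨hE1, hE2⟩, hE3⟩, hE4, hE5⟩ := hno
  apply hz
  -- facts on the coordinates
  have hu : ∀ (i : ℕ) (k : ℤ), i < i0 → unitP i0 k i = 0 := by
    intro i k hi
    simp [unitP, Nat.ne_of_lt hi]
  have hp0 : ∀ i < i0, z.2.1 i = p0 i := fun i hi => zp i (hi.trans hil)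
  have hp0' : ∀ i < i0, z.2.2.1 i = p0 i := by
    intro i hi
    rw [zp' i (hi.trans hil)]
    simp [hu i 1 hi]
  have hq0 : ∀ i < i0, z.2.2.2.1 i = q0 i := fun i hi => zq i (hi.trans hil)
  have hq0' : ∀ i < i0, z.2.2.2.2 i = q0 i := by
    intro i hi
    rw [zq' i (hi.trans hil)]
    simp [hu i k0 hi]
  have hdT : ∀ i < i0, dT z.2 i = 0 := by
    intro i hi
    simp only [dT, Pi.sub_apply, hp0 i hi, hp0' i hi, sub_self]
  have hdT' : ∀ i < i0, dT' z.2 i = 0 := by
    intro i hi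
    simp only [dT', Pi.sub_apply, hp0 i hi, hp0' i hi, sub_self]
  have hdH : ∀ i < i0, dH z.2 i = 0 := by
    intro i hi
    simp only [dH, Pi.sub_apply, hq0 i hi, hq0' i hi, sub_self]
  have zx2 : z.1 ∈ boxX x2 s2 := hal2 zx
  -- the points
  have fT : ∀ n : ℕ, (T^[n] z).1 = (z.1.1, z.1.2.1, fun i => z.1.2.2 i + n * dT z.2 i) :=
    fun n => act1_iter dT n z
  have sT : ∀ n : ℕ, (T^[n] z).2 = z.2 := fun n => mv_iter_snd act1 dT n z
  have sH : ∀ n : ℕ, (H (T^[n] z)).2 = z.2 := sT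
  have fH : ∀ n : ℕ, (H (T^[n] z)).1 = (z.1.1,
      (fun i => z.1.2.1 i + dH z.2 i * gam z.1.1 (z.1.2.2 i + n * dT z.2 i)),
      fun i => z.1.2.2 i + n * dT z.2 i) := by
    intro n
    show act2 (dH (T^[n] z).2) (T^[n] z).1 = _
    rw [sT, fT]
    rfl
  have sW : ∀ n m : ℕ, (T'^[m] (H (T^[n] z))).2 = z.2 := by
    intro n m
    have := mv_iter_snd act1 dT' m (H (T^[n] z))
    exact this.trans (sH n)
  have fW : ∀ n m : ℕ, (T'^[m] (H (T^[n] z))).1 = (z.1.1,
      (fun i => z.1.2.1 i + dH z.2 i * gam z.1.1 (z.1.2.2 i + n * dT z.2 i)),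
      fun i => z.1.2.2 i + n * dT z.2 i + m * dT' z.2 i) := by
    intro n m
    have := act1_iter dT' m (H (T^[n] z))
    refine this.trans ?_
    rw [sH, fH]
  have bT : ∀ n : ℕ, (T^[n] z).1 ∈ boxX x2 s2 := by
    intro n i hi
    have hi0 : i < i0 := lt_of_lt_of_le hi hs2
    rw [fT]
    obtain ⟨e1, e2, e3⟩ := zx2 i hi
    refine ⟨e1, e2, ?_⟩
    show z.1.2.2 i + n * dT z.2 i = _
    rw [hdT i hi0, mul_zero, add_zero, e3]
  have bW : ∀ n m : ℕ, (T'^[m] (H (T^[n] z))).1 ∈ boxX x2 s2 := by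
    intro n m i hi
    have hi0 : i < i0 := lt_of_lt_of_le hi hs2
    rw [fW]
    obtain ⟨e1, e2, e3⟩ := zx2 i hi
    refine ⟨e1, ?_, ?_⟩
    · show z.1.2.1 i + dH z.2 i * _ = _
      rw [hdH i hi0, zero_mul, add_zero, e2]
    · show z.1.2.2 i + n * dT z.2 i + m * dT' z.2 i = _
      rw [hdT i hi0, hdT' i hi0, mul_zero, mul_zero, add_zero, add_zero, e3]
  have bp : z.2.1 ∈ boxP p0 s1 := fun i hi => hp0 i (lt_of_lt_of_le hi hs1)
  have bp' : z.2.2.1 ∈ boxP p0 s1 := fun i hi => hp0' i (lt_of_lt_of_le hi hs1)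
  have bq : z.2.2.2.1 ∈ boxP q0 s2 := fun i hi => hq0 i (lt_of_lt_of_le hi hs2)
  have bq' : z.2.2.2.2 ∈ boxP q0 s2 := fun i hi => hq0' i (lt_of_lt_of_le hi hs2)
  -- the three relations
  have r1 : ∀ n : ℕ, (Th c c' (g z.2.1) (g' z.2.2.1))^[n] (f z.1) = f (T^[n] z).1 := by
    intro n
    induction n with
    | zero => rfl
    | succ n ih =>
      rw [Function.iterate_succ_apply', ih, Function.iterate_succ_apply']
      have hb := hE1 n
      have key : f (act1 ((T^[n] z).2.1 - (T^[n] z).2.2.1) (T^[n] z).1) =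
          Th c c' (g (T^[n] z).2.1) (g' (T^[n] z).2.2.1) (f (T^[n] z).1) := by
        by_contra hne
        refine hb ⟨hx21 (bT n), ?_, ?_, hne⟩
        · rw [sT]; exact bp
        · rw [sT]; exact bp'
      rw [sT] at key
      rw [← key]
      show _ = f (act1 (dT (T^[n] z).2) (T^[n] z).1)
      rw [sT]
  have r2 : ∀ n : ℕ, Th d d' (h z.2.2.2.1) (h' z.2.2.2.2) (f (T^[n] z).1) =
      f (H (T^[n] z)).1 := by
    intro n
    have hb := hE2 n
    have key : f (act2 ((T^[n] z).2.2.2.1 - (T^[n] z).2.2.2.2) (T^[n] z).1) =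
        Th d d' (h (T^[n] z).2.2.2.1) (h' (T^[n] z).2.2.2.2) (f (T^[n] z).1) := by
      by_contra hne
      refine hb ⟨bT n, ?_, ?_, hne⟩
      · rw [sT]; exact bq
      · rw [sT]; exact bq'
    rw [sT] at key
    rw [← key]
    show _ = f (act2 (dH (T^[n] z).2) (T^[n] z).1)
    rw [sT]
  have r3 : ∀ n m : ℕ, (Th c c' (g z.2.2.1) (g' z.2.1))^[m] (f (H (T^[n] z)).1) =
      f (T'^[m] (H (T^[n] z))).1 := by
    intro n m
    induction m with
    | zero => rfl
    | succ m ih =>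
      rw [Function.iterate_succ_apply', ih, Function.iterate_succ_apply']
      have hb := hE3 n m
      have key : f (act1 ((T'^[m] (H (T^[n] z))).2.2.1 - (T'^[m] (H (T^[n] z))).2.1)
            (T'^[m] (H (T^[n] z))).1) =
          Th c c' (g (T'^[m] (H (T^[n] z))).2.2.1) (g' (T'^[m] (H (T^[n] z))).2.1)
            (f (T'^[m] (H (T^[n] z))).1) := by
        by_contra hne
        refine hb ⟨hx21 (bW n m), ?_, ?_, hne⟩
        · rw [sW]; exact bp'
        · rw [sW]; exact bp
      rw [sW] at key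
      rw [← key]
      show _ = f (act1 (dT' (T'^[m] (H (T^[n] z))).2) (T'^[m] (H (T^[n] z))).1)
      rw [sW]
  intro n
  rw [r1 n, r2 n, r3 n n]
  -- the coordinates of the last point below `l`
  have e3' : ∀ i, z.1.2.2 i + n * dT z.2 i + n * dT' z.2 i = z.1.2.2 i := by
    intro i
    simp only [dT, dT', Pi.sub_apply]
    ring
  have hdTi0 : dT z.2 i0 = 1 := by
    have h1 := zp i0 hil
    have h2 := zp' i0 hil
    simp only [dT, Pi.sub_apply]
    rw [h1, h2]
    simp [unitP]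
  have hdHl : ∀ i < l, dH z.2 i = unitP i0 k0 i := by
    intro i hi
    have h1 := zq i hi
    have h2 := zq' i hi
    simp only [dH, Pi.sub_apply]
    rw [h1, h2]
    simp
  have hρ : z.1.2.2 i0 = a.2.2 i0 := (zx i0 hil).2.2
  have hy : ∀ i < l, z.1.2.1 i + dH z.2 i * gam z.1.1 (z.1.2.2 i + n * dT z.2 i) =
      a.2.1 i + unitP i0 k0 i * gam z.1.1 (a.2.2 i0 + n) := by
    intro i hi
    rw [hdHl i hi, (zx i hi).2.1]
    by_cases hii : i = i0
    · subst hii
      rw [hρ, hdTi0, mul_one]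
    · simp [unitP, hii]
  rcases gam_cases z.1.1 (a.2.2 i0 + n) with h0 | h1
  · -- the last point is in the box
    have hin : (T'^[n] (H (T^[n] z))).1 ∈ boxX a l := by
      intro i hi
      rw [fW]
      refine ⟨(zx i hi).1, ?_, ?_⟩
      · show z.1.2.1 i + dH z.2 i * gam z.1.1 (z.1.2.2 i + n * dT z.2 i) = _
        rw [hy i hi, h0, mul_zero, add_zero]
      · show z.1.2.2 i + n * dT z.2 i + n * dT' z.2 i = _
        rw [e3' i]
        exact (zx i hi).2.2
    have hb := hE4 n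
    have hmem : n0 ∈ f (T'^[n] (H (T^[n] z))).1 := by
      by_contra hne
      exact hb ⟨hin, fun hh => hne hh.1⟩
    exact iff_of_true hmem h0
  · -- the last point is in the changed box
    have hN1 : (N (T'^[n] (H (T^[n] z)))).1 = act3 (- unitP i0 k0) (T'^[n] (H (T^[n] z))).1 := rfl
    have hin : (N (T'^[n] (H (T^[n] z)))).1 ∈ boxX a l := by
      intro i hi
      rw [hN1, fW]
      refine ⟨(zx i hi).1, ?_, ?_⟩
      · show z.1.2.1 i + dH z.2 i * gam z.1.1 (z.1.2.2 i + n * dT z.2 i)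
          + (- unitP i0 k0) i = _
        rw [hy i hi, h1, mul_one, Pi.neg_apply]
        ring
      · show z.1.2.2 i + n * dT z.2 i + n * dT' z.2 i = _
        rw [e3' i]
        exact (zx i hi).2.2
    have hb := hE5 n
    have hmem : n0 ∉ f (T'^[n] (H (T^[n] z))).1 := by
      intro hne
      refine hb ⟨hin, fun hh => hh.2 ?_⟩
      rw [hN1, ← hN.add, add_neg_cancel, hN.zero]
      exact hne
    refine iff_of_false hmem ?_
    rw [h1]
    exact one_ne_zero

end Pool.Agent.RIG
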