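import Pool.Agent.RIG.Targets

set_option autoImplicit false

/-!
# Rigidity of the enumeration degrees: T_FIN

Project RIG (MP_431ff4_lc). Paper proof: ideas row 2381 (helper70).
-/

namespace Pool.Agent.RIG

open Topology Filter Nat.Partrec

namespace FIN_

lemma boxX_anti {A : Set ℕ} (x : X A) {s t : ℕ} (h : s ≤ t) : boxX x t ⊆ boxX x s :=
  fun _ hy i hi => hy i (lt_of_lt_of_le hi h)

lemma self_mem_boxX {A : Set ℕ} (x : X A) (s : ℕ) : x ∈ boxX x s :=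
  fun _ _ => ⟨rfl, rfl, rfl⟩

lemma self_mem_boxP (p : P) (s : ℕ) : p ∈ boxP p s := fun _ _ => rfl

lemma boxP_sub {p p' : P} {s l : ℕ} (hl : s ≤ l) (h : ∀ i < s, p' i = p i) :
    boxP p' l ⊆ boxP p s :=
  fun _ hy i hi => (hy i (lt_of_lt_of_le hi hl)).trans (h i hi)

lemma EN_mono {T : Type} [TopologicalSpace T] {N O O' : Set T} (h : EN N O) (hO : O' ⊆ O) :
    EN N O' := fun U hU => h U (hU.trans hO)

/-- subtracting a unit beyond s changes nothing below s -/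
lemma sub_unitP {p : P} {s i0 : ℕ} (k : ℤ) (h : s ≤ i0) :
    ∀ i < s, (p - unitP i0 k) i = p i := by
  intro i hi
  have : i ≠ i0 := by omega
  simp [unitP, this]

lemma case_empty (hL : LatLib) (φ : Aut) : ERed (φ.G ∅) ∅ :=
  hL.trans (φ.monoG _ _ (hL.empty (φ.F ∅))) (φ.GF ∅).1

lemma names_up (hL : LatLib) (φ : Aut) {B C D : Set ℕ} (h1 : ERed B (φ.F C)) (h2 : ERed C D) :
    ERed B (φ.F D) := hL.trans h1 (φ.monoF _ _ h2)

/-- the product of the five nonmeager sets is nonmeager -/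
lemma prod5 (h4 : T_K4) {A : Set ℕ} {S : Set (X A)} {Q1 Q2 Q3 Q4 : Set P}
    (hS : ¬ IsMeagre S) (h1 : ¬ IsMeagre Q1) (h2 : ¬ IsMeagre Q2) (h3 : ¬ IsMeagre Q3)
    (h5 : ¬ IsMeagre Q4) :
    ¬ IsMeagre {z : Z A | z.1 ∈ S ∧ z.2.1 ∈ Q1 ∧ z.2.2.1 ∈ Q2 ∧ z.2.2.2.1 ∈ Q3 ∧
      z.2.2.2.2 ∈ Q4} := by
  have a := h4 P P Q3 Q4 h3 h5
  have b := h4 P (P × P) Q2 _ h2 a
  have c := h4 P (P × P × P) Q1 _ h1 b
  exact h4 (X A) (P × P × P × P) S _ hS c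

/-- the first coordinate does not hit everything: meager -/
lemma hitZ (hH : T_HIT) (A : Set ℕ) :
    IsMeagre {z : Z A | ¬ ∀ a : A, ∀ m : ℕ, ∃ k, m ≤ k ∧ z.1.1 k = a} := by
  have h := hH A
  have hc : Continuous (fun z : Z A => z.1.1) := continuous_fst.comp continuous_fst
  have ho : IsOpenMap (fun z : Z A => z.1.1) := isOpenMap_fst.comp isOpenMap_fst
  exact h.preimage_of_isOpenMap hc ho

/-- the heart: one point of the total space -/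
lemma point (hL : LatLib) (hAu : AutLib) (hD : T_DEC) (φ : Aut) {A : Set ℕ}
    (f : X A → Set ℕ) (g g' h h' : P → Set ℕ) (c c' d d' : Code) (n0 : ℕ) (ρ : ℤ) (z : Z A)
    (hf : EEqv (f z.1) (φ.F (cX z.1)))
    (hp : EEqv (g z.2.1) (φ.F (cP z.2.1)) ∧ EEqv (g' z.2.1) (φ.F (cP z.2.1)))
    (hp' : EEqv (g z.2.2.1) (φ.F (cP z.2.2.1)) ∧ EEqv (g' z.2.2.1) (φ.F (cP z.2.2.1)))
    (hq : EEqv (h z.2.2.2.1) (φ.F (cP z.2.2.2.1)) ∧ EEqv (h' z.2.2.2.1) (φ.F (cP z.2.2.2.1)))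
    (hq' : EEqv (h z.2.2.2.2) (φ.F (cP z.2.2.2.2)) ∧ EEqv (h' z.2.2.2.2) (φ.F (cP z.2.2.2.2)))
    (hit : ∀ a : A, ∀ m : ℕ, ∃ k, m ≤ k ∧ z.1.1 k = a)
    (hn : ∀ n : ℕ, (n0 ∈ (Th c c' (g z.2.2.1) (g' z.2.1))^[n]
        (Th d d' (h z.2.2.2.1) (h' z.2.2.2.2) ((Th c c' (g z.2.1) (g' z.2.2.1))^[n] (f z.1))) ↔
      gam z.1.1 (ρ + n) = 0)) :
    ERed (φ.G A) (jn (cZ z) ∅) := by
  have key := hD A z.1.1 c c' d d' (f z.1) (g z.2.1) (g' z.2.2.1) (g z.2.2.1) (g' z.2.1)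
    (h z.2.2.2.1) (h' z.2.2.2.2) n0 ρ hn hit
  have r1 : ERed (cX z.1) (cZ z) := hL.left _ _
  have t1 : ERed (jn (cP z.2.1) (jn (cP z.2.2.1) (jn (cP z.2.2.2.1) (cP z.2.2.2.2)))) (cZ z) :=
    hL.right _ _
  have r2 : ERed (cP z.2.1) (cZ z) := hL.trans (hL.left _ _) t1
  have t2 : ERed (jn (cP z.2.2.1) (jn (cP z.2.2.2.1) (cP z.2.2.2.2))) (cZ z) :=
    hL.trans (hL.right _ _) t1
  have r3 : ERed (cP z.2.2.1) (cZ z) := hL.trans (hL.left _ _) t2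
  have t3 : ERed (jn (cP z.2.2.2.1) (cP z.2.2.2.2)) (cZ z) := hL.trans (hL.right _ _) t2
  have r4 : ERed (cP z.2.2.2.1) (cZ z) := hL.trans (hL.left _ _) t3
  have r5 : ERed (cP z.2.2.2.2) (cZ z) := hL.trans (hL.right _ _) t3
  have big : ERed (jn (f z.1) (jn (g z.2.1) (jn (g' z.2.2.1) (jn (g z.2.2.1) (jn (g' z.2.1)
      (jn (h z.2.2.2.1) (h' z.2.2.2.2))))))) (φ.F (cZ z)) :=
    hL.lub (names_up hL φ hf.1 r1) (hL.lub (names_up hL φ hp.1.1 r2)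
      (hL.lub (names_up hL φ hp'.2.1 r3) (hL.lub (names_up hL φ hp'.1.1 r3)
        (hL.lub (names_up hL φ hp.2.1 r2) (hL.lub (names_up hL φ hq.1.1 r4)
          (names_up hL φ hq'.2.1 r5))))))
  exact hL.trans ((hAu.down φ A (cZ z)).1 (hL.trans key big)) (hL.left _ _)

end FIN_

open FIN_ in
/-- FIN. The inverse of an automorphism is decreasing. -/
theorem p_FIN (hL : LatLib) (hB : BMLib) (hSp : SpLib) (hAu : AutLib) (hAc : ActLib)
    (h1 : T_K1) (h4 : T_K4) (hH : T_HIT) (hZ : T_ELZ) (hN : T_NAM) (hU : T_UNF)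
    (hC : T_CHK) (hEd : T_EDG) (hEn : T_END) (hD : T_DEC) : T_FIN := by
  intro φ A
  rcases Set.eq_empty_or_nonempty A with rfl | hA
  · exact case_empty hL φ
  obtain ⟨f', hf'B, hf'⟩ := hN φ A (X A) cX (hB.bX A) (hZ A hA).1
  have : Nonempty A := hA.to_subtype
  have : Nonempty (X A) := inferInstance
  -- a nonmeager set of true names
  obtain ⟨e, he⟩ : ∃ e, ¬ IsMeagre {x : X A | EEqv (f' e x) (φ.F (cX x))} := by
    by_contra hcon
    push Not at hcon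
    have h0 : IsMeagre (⋃ e, {x : X A | EEqv (f' e x) (φ.F (cX x))}) := isMeagre_iUnion hcon
    have hun : IsMeagre (Set.univ : Set (X A)) := by
      refine (h0.union hf').mono ?_
      intro x _
      by_cases hx : ∃ e, EEqv (f' e x) (φ.F (cX x))
      · left
        obtain ⟨e, he⟩ := hx
        exact Set.mem_iUnion.2 ⟨e, he⟩
      · right
        exact hx
    exact not_isMeagre_of_isOpen isOpen_univ Set.univ_nonempty hun
  set S : Set (X A) := {x : X A | EEqv (f' e x) (φ.F (cX x))} with hS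
  set f := f' e with hf
  obtain ⟨O, hO, hOne, hEN⟩ := h1 (X A) S he
  have hST : ∀ x ∈ S, EEqv (f x) (φ.F (cX x)) := fun x hx => hx
  -- the first action
  obtain ⟨x1, p0, s1, g, g', F1, c, c', hx1, hQ1, hm1⟩ :=
    hU φ A hA act1 (hAc.a1 A) f (hf'B e) S O hO hOne hEN hST
  have hM1 := hC A act1 (hAc.a1 A) f F1 g g' c c' x1 p0 s1 hm1
  -- the second action
  have hO1 : IsOpen (boxX x1 s1) := hSp.openX A x1 s1
  obtain ⟨x2, q0, s2, h, h', F2, d, d', hx2, hQ2, hm2⟩ :=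
    hU φ A hA act2 (hAc.a2 A) f (hf'B e) S (boxX x1 s1) hO1 ⟨x1, self_mem_boxX x1 s1⟩
      (EN_mono hEN hx1) hST
  have hM2 := hC A act2 (hAc.a2 A) f F2 h h' d d' x2 q0 s2 hm2
  -- the edge
  have hb : boxX x2 (max s1 s2) ⊆ boxX x2 s2 := boxX_anti x2 (le_max_right _ _)
  obtain ⟨n0, i0, k0, a, l, hi0, hil, hal, hM3⟩ :=
    hEd φ A hA f (hf'B e) S O hO hEN hST x2 (max s1 s2) ((hb.trans hx2).trans hx1)
  have hs1 : s1 ≤ i0 := (le_max_left _ _).trans hi0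
  have hs2 : s2 ≤ i0 := (le_max_right _ _).trans hi0
  have hE := hEn A f x1 x2 p0 q0 s1 s2 g g' h h' c c' d d' n0 i0 k0 a l hx2 (hal.trans hb)
    hs1 hs2 hil hM1 hM2 hM3
  -- the five nonmeager sets
  have hs1l : s1 ≤ l := hs1.trans hil.le
  have hs2l : s2 ≤ l := hs2.trans hil.le
  have nS : ¬ IsMeagre (S ∩ boxX a l) :=
    hEN _ (((hal.trans hb).trans hx2).trans hx1) (hSp.openX A a l) ⟨a, self_mem_boxX a l⟩
  have n1 := hQ1 (boxP p0 l) (boxP_sub hs1l (fun _ _ => rfl)) (hSp.openP p0 l)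
    ⟨p0, self_mem_boxP p0 l⟩
  have n2 := hQ1 (boxP (p0 - unitP i0 1) l) (boxP_sub hs1l (sub_unitP 1 hs1))
    (hSp.openP _ l) ⟨_, self_mem_boxP _ l⟩
  have n3 := hQ2 (boxP q0 l) (boxP_sub hs2l (fun _ _ => rfl)) (hSp.openP q0 l)
    ⟨q0, self_mem_boxP q0 l⟩
  have n4 := hQ2 (boxP (q0 - unitP i0 k0) l) (boxP_sub hs2l (sub_unitP k0 hs2))
    (hSp.openP _ l) ⟨_, self_mem_boxP _ l⟩
  have nG := prod5 h4 nS n1 n2 n3 n4
  -- the conclusion
  have hfin : ¬ IsMeagre {z : Z A | ERed (φ.G A) (jn (cZ z) ∅)} := by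
    intro hme
    apply nG
    refine ((hme.union hE).union (hitZ hH A)).mono ?_
    rintro z ⟨zS, z1, z2, z3, z4⟩
    by_cases hh : ∀ a : A, ∀ m : ℕ, ∃ k, m ≤ k ∧ z.1.1 k = a
    · left
      by_cases hn : ∀ n : ℕ, (n0 ∈ (Th c c' (g z.2.2.1) (g' z.2.1))^[n]
        (Th d d' (h z.2.2.2.1) (h' z.2.2.2.2) ((Th c c' (g z.2.1) (g' z.2.2.1))^[n] (f z.1))) ↔
        gam z.1.1 (a.2.2 i0 + n) = 0)
      · left
        exact point hL hAu hD φ f g g' h h' c c' d d' n0 (a.2.2 i0) z zS.1 z1.1 z2.1 z3.1 z4.1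
          hh hn
      · right
        exact ⟨zS.2, z1.2, z2.2, z3.2, z4.2, hn⟩
    · right
      exact hh
  exact hL.trans ((hZ A hA).2 (φ.G A) ∅ hfin) (hL.lub (hL.refl A) (hL.empty A))

end Pool.Agent.RIG
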