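import Pool.Agent.RIG.Targets

set_option autoImplicit false

/-!
# RIG: an independent sequence over a given set

Project RIG (MP_431ff4_lc), target `T_IND`.
-/

namespace Pool.Agent.RIG

open Topology Filter Nat.Partrec

namespace IND_

/-- the column `n` of the array `g` -/
def col (g : ℕ → ℕ → Bool) (n : ℕ) : Set ℕ := {m | g n m = true}

/-- the join of the other columns -/
def oth (g : ℕ → ℕ → Bool) (n : ℕ) : Set ℕ :=
  fam (fun k => if k = n then (∅ : Set ℕ) else col g k)

theorem cyl_sub {U : Set (ℕ → ℕ → Bool)} (hU : IsOpen U) {g0 : ℕ → ℕ → Bool} (h0 : g0 ∈ U) :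
    ∃ s : ℕ, ∀ g : ℕ → ℕ → Bool, (∀ i < s, ∀ j < s, g i j = g0 i j) → g ∈ U := by
  by_contra hcon
  push Not at hcon
  choose gs h1 h2 using hcon
  have ht : Tendsto gs atTop (𝓝 g0) := by
    rw [tendsto_pi_nhds]
    intro i
    rw [tendsto_pi_nhds]
    intro j
    apply tendsto_const_nhds.congr'
    filter_upwards [eventually_gt_atTop (max i j)] with s hs
    have hi : i < s := lt_of_le_of_lt (le_max_left _ _) hs
    have hj : j < s := lt_of_le_of_lt (le_max_right _ _) hs
    exact (h1 s i hi j hj).symm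
  obtain ⟨s, hs⟩ := (ht.eventually (hU.mem_nhds h0)).exists
  exact h2 s hs

theorem isOpen_bit (i j : ℕ) (b : Bool) : IsOpen {g : ℕ → ℕ → Bool | g i j = b} := by
  have hc : Continuous (fun g : ℕ → ℕ → Bool => g i j) :=
    (continuous_apply j).comp (continuous_apply i)
  exact (isOpen_discrete ({b} : Set Bool)).preimage hc

theorem isOpen_cyl (g0 : ℕ → ℕ → Bool) (s : ℕ) :
    IsOpen {g : ℕ → ℕ → Bool | ∀ i < s, ∀ j < s, g i j = g0 i j} := by
  have e : {g : ℕ → ℕ → Bool | ∀ i < s, ∀ j < s, g i j = g0 i j} =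
      ⋂ i ∈ Finset.range s, ⋂ j ∈ Finset.range s, {g : ℕ → ℕ → Bool | g i j = g0 i j} := by
    ext g
    simp
  rw [e]
  exact isOpen_biInter_finset fun i _ => isOpen_biInter_finset fun j _ => isOpen_bit i j _

theorem isOpen_mem (B : Set ℕ) (n y : ℕ) :
    IsOpen {g : ℕ → ℕ → Bool | y ∈ jn B (oth g n)} := by
  by_cases h0 : y.unpair.1 = 0 ∧ y.unpair.2 ∈ B
  · have e : {g : ℕ → ℕ → Bool | y ∈ jn B (oth g n)} = Set.univ := by
      ext g
      simp only [Set.mem_ofPred_eq, Set.mem_univ, iff_true]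
      exact Or.inl h0
    rw [e]
    exact isOpen_univ
  · by_cases h1 : y.unpair.1 = 1 ∧ y.unpair.2.unpair.1 ≠ n
    · have e : {g : ℕ → ℕ → Bool | y ∈ jn B (oth g n)} =
          {g : ℕ → ℕ → Bool | g y.unpair.2.unpair.1 y.unpair.2.unpair.2 = true} := by
        ext g
        simp only [Set.mem_ofPred_eq, jn, oth, fam, col]
        constructor
        · rintro (h | ⟨_, h⟩)
          · exact absurd h h0
          · rw [if_neg h1.2] at h
            exact h
        · intro h
          refine Or.inr ⟨h1.1, ?_⟩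
          rw [if_neg h1.2]
          exact h
      rw [e]
      exact isOpen_bit _ _ _
    · have e : {g : ℕ → ℕ → Bool | y ∈ jn B (oth g n)} = ∅ := by
        ext g
        simp only [Set.mem_ofPred_eq, jn, oth, fam, col, Set.mem_empty_iff_false, iff_false]
        rintro (h | ⟨h, h'⟩)
        · exact h0 h
        · have hn : y.unpair.2.unpair.1 = n := by
            by_contra hne
            exact h1 ⟨h, hne⟩
          rw [if_pos hn] at h'
          exact h'
      rw [e]
      exact isOpen_empty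

theorem isOpen_op (B : Set ℕ) (n m : ℕ) (c : Code) :
    IsOpen {g : ℕ → ℕ → Bool | m ∈ op c (jn B (oth g n))} := by
  have e : {g : ℕ → ℕ → Bool | m ∈ op c (jn B (oth g n))} =
      ⋃ L : List ℕ, ⋃ _ : (Code.eval c (Nat.pair m (Encodable.encode L))).Dom,
        ⋂ y ∈ L.toFinset, {g : ℕ → ℕ → Bool | y ∈ jn B (oth g n)} := by
    ext g
    simp only [op, Set.mem_ofPred_eq, Set.mem_iUnion, Set.mem_iInter, List.mem_toFinset,
      exists_prop]
    constructor
    · rintro ⟨L, h1, h2⟩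
      exact ⟨L, h2, h1⟩
    · rintro ⟨L, h2, h1⟩
      exact ⟨L, h1, h2⟩
  rw [e]
  exact isOpen_iUnion fun L => isOpen_iUnion fun _ =>
    isOpen_biInter_finset fun y _ => isOpen_mem B n y

/-- change of the entry `(n, m)` to `b` -/
def upd (g : ℕ → ℕ → Bool) (n m : ℕ) (b : Bool) : ℕ → ℕ → Bool :=
  fun i j => if i = n ∧ j = m then b else g i j

theorem oth_upd (g : ℕ → ℕ → Bool) (n m : ℕ) (b : Bool) : oth (upd g n m b) n = oth g n := by
  unfold oth
  congr 1
  funext k
  by_cases hk : k = n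
  · rw [if_pos hk, if_pos hk]
  · rw [if_neg hk, if_neg hk]
    ext j
    simp [col, upd, hk]

theorem upd_same (g : ℕ → ℕ → Bool) (n m : ℕ) (b : Bool) : upd g n m b n m = b := by
  simp [upd]

theorem nwd (B : Set ℕ) (n : ℕ) (c : Code) :
    IsNowhereDense {g : ℕ → ℕ → Bool | col g n = op c (jn B (oth g n))} := by
  rw [IsNowhereDense, Set.eq_empty_iff_forall_notMem]
  intro g0 hg0
  obtain ⟨s, hs⟩ := cyl_sub isOpen_interior hg0
  have hupd : ∀ g : ℕ → ℕ → Bool, (∀ i < s, ∀ j < s, g i j = g0 i j) → ∀ b,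
      ∀ i < s, ∀ j < s, upd g n s b i j = g0 i j := by
    intro g hg b i hi j hj
    have hj' : j ≠ s := hj.ne
    simp only [upd, hj', and_false, if_false]
    exact hg i hi j hj
  by_cases hA : ∃ g1 : ℕ → ℕ → Bool, (∀ i < s, ∀ j < s, g1 i j = g0 i j) ∧
      s ∈ op c (jn B (oth g1 n))
  · obtain ⟨g1, h1, h2⟩ := hA
    have hmem : upd g1 n s false ∈ closure {g : ℕ → ℕ → Bool | col g n = op c (jn B (oth g n))} :=
      interior_subset (hs _ (hupd g1 h1 false))
    obtain ⟨g, ⟨hg1, hg2⟩, hg3⟩ := mem_closure_iff.1 hmem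
      ({g : ℕ → ℕ → Bool | s ∈ op c (jn B (oth g n))} ∩ {g : ℕ → ℕ → Bool | g n s = false})
      ((isOpen_op B n s c).inter (isOpen_bit n s false))
      ⟨by
        show s ∈ op c (jn B (oth (upd g1 n s false) n))
        rw [oth_upd]
        exact h2, upd_same g1 n s false⟩
    have hg4 : s ∈ col g n := by
      rw [show col g n = op c (jn B (oth g n)) from hg3]
      exact hg1
    have hg5 : g n s = true := hg4
    have hg6 : g n s = false := hg2
    rw [hg6] at hg5
    exact Bool.noConfusion hg5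
  · have hmem : upd g0 n s true ∈ closure {g : ℕ → ℕ → Bool | col g n = op c (jn B (oth g n))} :=
      interior_subset (hs _ (hupd g0 (fun _ _ _ _ => rfl) true))
    obtain ⟨g, ⟨hg1, hg2⟩, hg3⟩ := mem_closure_iff.1 hmem
      ({g : ℕ → ℕ → Bool | ∀ i < s, ∀ j < s, g i j = g0 i j} ∩
        {g : ℕ → ℕ → Bool | g n s = true})
      ((isOpen_cyl g0 s).inter (isOpen_bit n s true))
      ⟨hupd g0 (fun _ _ _ _ => rfl) true, upd_same g0 n s true⟩
    apply hA
    refine ⟨g, hg1, ?_⟩
    rw [← show col g n = op c (jn B (oth g n)) from hg3]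
    exact hg2

end IND_

open IND_ in
theorem p_IND (h_OP : T_OP) : T_IND := by
  intro B
  have hm : IsMeagre (⋃ n : ℕ, ⋃ c : Code,
      {g : ℕ → ℕ → Bool | col g n = op c (jn B (oth g n))}) :=
    isMeagre_iUnion fun n => isMeagre_iUnion fun c => (nwd B n c).isMeagre
  obtain ⟨g, hg⟩ : ((⋃ n : ℕ, ⋃ c : Code,
      {g : ℕ → ℕ → Bool | col g n = op c (jn B (oth g n))})ᶜ).Nonempty :=
    (dense_of_mem_residual hm).nonempty
  refine ⟨fun n => col g n, fun n hn => hg ?_⟩
  obtain ⟨c, hc⟩ := (h_OP _ _).1 hn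
  exact Set.mem_iUnion.2 ⟨n, Set.mem_iUnion.2 ⟨c, hc⟩⟩

end Pool.Agent.RIG
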