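import Pool.Agent.RIG.Targets

set_option autoImplicit false

namespace Pool.Agent.RIG

open Topology Filter Nat.Partrec

namespace INV_

variable {A : Set ℕ}

theorem act3_zero (x : X A) : act3 0 x = x := by
  unfold act3
  simp

theorem act3_add (p q : P) (x : X A) : act3 (p + q) x = act3 p (act3 q x) := by
  unfold act3
  ext1
  · rfl
  · ext1
    · simp only
      rw [add_comm p q, add_assoc]
    · rfl

theorem act3_neg (p : P) (x : X A) : act3 (-p) (act3 p x) = x := by
  rw [← act3_add, neg_add_cancel, act3_zero]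

theorem act3_neg' (p : P) (x : X A) : act3 p (act3 (-p) x) = x := by
  rw [← act3_add, add_neg_cancel, act3_zero]

/-- the translation as a homeomorphism -/
def homeo (act : ActLib) (p : P) : X A ≃ₜ X A where
  toFun := act3 p
  invFun := act3 (-p)
  left_inv := act3_neg p
  right_inv := act3_neg' p
  continuous_toFun := (act.a3 A).cont.comp (Continuous.prodMk_right p)
  continuous_invFun := (act.a3 A).cont.comp (Continuous.prodMk_right (-p))

theorem cont_act (act : ActLib) : Continuous (fun z : X A × P => act3 z.2 z.1) :=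
  (act.a3 A).cont.comp continuous_swap

/-- the homeomorphism `(x, t) ↦ (act3 t x, -t)` -/
def flip (act : ActLib) : X A × P ≃ₜ X A × P where
  toFun := fun z => (act3 z.2 z.1, -z.2)
  invFun := fun z => (act3 z.2 z.1, -z.2)
  left_inv := by
    intro z
    simp only [neg_neg]
    rw [act3_neg]
  right_inv := by
    intro z
    simp only [neg_neg]
    rw [act3_neg]
  continuous_toFun := (cont_act act).prodMk continuous_snd.neg
  continuous_invFun := (cont_act act).prodMk continuous_snd.neg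

theorem open_act (act : ActLib) : IsOpenMap (fun z : X A × P => act3 z.2 z.1) := by
  have h : (fun z : X A × P => act3 z.2 z.1) = Prod.fst ∘ (flip (A := A) act) := rfl
  rw [h]
  exact isOpenMap_fst.comp (flip act).isOpenMap

theorem pre {S : Type} {T : Type} [TopologicalSpace S] [TopologicalSpace T] (h : S ≃ₜ T)
    {M : Set T} (hM : IsMeagre M) : IsMeagre (h ⁻¹' M) :=
  hM.preimage_of_isOpenMap h.continuous h.isOpenMap

theorem neg_unit (i : ℕ) (k : ℤ) : -unitP i k = unitP i (-k) := by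
  funext j
  simp only [unitP, Pi.neg_apply]
  split
  · rfl
  · simp

theorem box_act {x0 x : X A} {s : ℕ} {t : P} (ht : ∀ i < s, t i = 0) (hx : x ∈ boxX x0 s) :
    act3 t x ∈ boxX x0 s := by
  intro i hi
  obtain ⟨h1, h2, h3⟩ := hx i hi
  refine ⟨h1, ?_, h3⟩
  simp only [act3, Pi.add_apply]
  rw [h2, ht i hi, add_zero]

/-- single changes -/
theorem unit_good (act : ActLib) (f : X A → Set ℕ) (x0 : X A) (s : ℕ)
    (h : ∀ (n i : ℕ) (k : ℤ), s ≤ i →
      IsMeagre {x | x ∈ boxX x0 s ∧ n ∈ f x ∧ n ∉ f (act3 (unitP i k) x)})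
    (i : ℕ) (k : ℤ) (hi : s ≤ i) :
    IsMeagre {x | x ∈ boxX x0 s ∧ f (act3 (unitP i k) x) ≠ f x} := by
  have hu : ∀ j < s, unitP i k j = 0 := by
    intro j hj
    have : j ≠ i := by omega
    simp [unitP, this]
  have h1 : IsMeagre (⋃ n : ℕ, ({x | x ∈ boxX x0 s ∧ n ∈ f x ∧ n ∉ f (act3 (unitP i k) x)} ∪
      (homeo (A := A) act (unitP i k)) ⁻¹'
        {x | x ∈ boxX x0 s ∧ n ∈ f x ∧ n ∉ f (act3 (unitP i (-k)) x)})) := by
    refine isMeagre_iUnion fun n => ?_
    exact (h n i k hi).union (pre _ (h n i (-k) hi))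
  refine h1.mono ?_
  rintro x ⟨hx, hne⟩
  rw [Set.mem_iUnion]
  by_contra hcon
  push Not at hcon
  apply hne
  ext n
  have hn := hcon n
  simp only [Set.mem_union, Set.mem_ofPred_eq, Set.mem_preimage, not_or] at hn
  obtain ⟨ha, hb⟩ := hn
  constructor
  · intro hm
    by_contra hf
    apply hb
    refine ⟨box_act hu hx, hm, ?_⟩
    have e : act3 (unitP i (-k)) ((homeo (A := A) act (unitP i k)) x) = x := by
      rw [← neg_unit]
      exact act3_neg _ x
    rw [e]
    exact hf
  · intro hm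
    by_contra hf
    exact ha ⟨hx, hm, hf⟩

/-- finite changes -/
theorem fin_good (act : ActLib) (f : X A → Set ℕ) (x0 : X A) (s : ℕ)
    (h : ∀ (n i : ℕ) (k : ℤ), s ≤ i →
      IsMeagre {x | x ∈ boxX x0 s ∧ n ∈ f x ∧ n ∉ f (act3 (unitP i k) x)}) (l : ℕ) :
    ∀ t : P, (∀ i < s, t i = 0) → (∀ i, l ≤ i → t i = 0) →
      IsMeagre {x | x ∈ boxX x0 s ∧ f (act3 t x) ≠ f x} := by
  induction l with
  | zero =>
    intro t _ ht
    have : t = 0 := by
      funext i
      exact ht i (Nat.zero_le i)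
    subst this
    have e : {x : X A | x ∈ boxX x0 s ∧ f (act3 0 x) ≠ f x} = ∅ := by
      ext x
      simp [act3_zero]
    rw [e]
    exact IsMeagre.empty
  | succ l ih =>
    intro t hs ht
    by_cases hl : l < s
    · refine ih t hs ?_
      intro i hi
      rcases Nat.lt_or_ge i s with h1 | h1
      · exact hs i h1
      · exact ht i (by omega)
    · push Not at hl
      have ht' : t = unitP l (t l) + Function.update t l 0 := by
        funext j
        by_cases hj : j = l
        · subst hj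
          simp [unitP]
        · simp [unitP, hj]
      have h1 := ih (Function.update t l 0) (by
        intro i hi
        have : i ≠ l := by omega
        rw [Function.update_of_ne this]
        exact hs i hi) (by
        intro i hi
        by_cases hj : i = l
        · subst hj
          simp
        · rw [Function.update_of_ne hj]
          exact ht i (by omega))
      have h2 := pre (homeo (A := A) act (Function.update t l 0))
        (unit_good act f x0 s h l (t l) hl)
      refine (h1.union h2).mono ?_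
      rintro x ⟨hx, hne⟩
      by_contra hcon
      simp only [Set.mem_union, Set.mem_ofPred_eq, Set.mem_preimage, not_or, not_and,
        not_not] at hcon
      obtain ⟨ha, hb⟩ := hcon
      apply hne
      have hx' : act3 (Function.update t l 0) x ∈ boxX x0 s := box_act (by
        intro i hi
        have : i ≠ l := by omega
        rw [Function.update_of_ne this]
        exact hs i hi) hx
      have hb' : f (act3 (unitP l (t l)) (act3 (Function.update t l 0) x)) =
          f (act3 (Function.update t l 0) x) := hb hx'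
      calc f (act3 t x) = f (act3 (unitP l (t l) + Function.update t l 0) x) := by rw [← ht']
        _ = f (act3 (unitP l (t l)) (act3 (Function.update t l 0) x)) := by rw [act3_add]
        _ = f x := by rw [hb', ha hx]

theorem mem_box_self (x : X A) (s : ℕ) : x ∈ boxX x s := fun _ _ => ⟨rfl, rfl, rfl⟩

theorem main1 (K6 : T_K6) (K7 : T_K7) (BL : BMLib) (SL : SpLib) (act : ActLib)
    (f : X A → Set ℕ) (hf : BM f) (x0 : X A) (s : ℕ)
    (h : ∀ (n i : ℕ) (k : ℤ), s ≤ i →
      IsMeagre {x | x ∈ boxX x0 s ∧ n ∈ f x ∧ n ∉ f (act3 (unitP i k) x)}) (n : ℕ) :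
    IsMeagre {z : X A × P | z.1 ∈ boxX x0 s ∧ (∀ i < s, z.2 i = 0) ∧ n ∈ f z.1 ∧
      n ∉ f (act3 z.2 z.1)} := by
  by_contra hE
  set E : Set (X A × P) := {z : X A × P | z.1 ∈ boxX x0 s ∧ (∀ i < s, z.2 i = 0) ∧ n ∈ f z.1 ∧
      n ∉ f (act3 z.2 z.1)} with hEdef
  have hO : IsOpen (boxX x0 s ×ˢ boxP 0 s) := (SL.openX A x0 s).prod (SL.openP 0 s)
  have hB1 : BaireMeasurableSet {z : X A × P | n ∈ f z.1} :=
    BL.bcomp (S := X A × P) (T := X A) (f := f) (m := Prod.fst) continuous_fst isOpenMap_fst hf n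
  have hB2 : BaireMeasurableSet {z : X A × P | n ∈ f (act3 z.2 z.1)} :=
    BL.bcomp (S := X A × P) (T := X A) (f := f) (m := fun z : X A × P => act3 z.2 z.1)
      (cont_act act) (open_act act) hf n
  have hEm : BaireMeasurableSet E := by
    have e : E = ((boxX x0 s ×ˢ boxP 0 s) ∩ {z : X A × P | n ∈ f z.1}) ∩
        {z : X A × P | n ∈ f (act3 z.2 z.1)}ᶜ := by
      ext z
      constructor
      · rintro ⟨h1, h2, h3, h4⟩
        exact ⟨⟨⟨h1, h2⟩, h3⟩, h4⟩
      · rintro ⟨⟨⟨h1, h2⟩, h3⟩, h4⟩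
        exact ⟨h1, h2, h3, h4⟩
    rw [e]
    exact (hO.baireMeasurableSet.inter hB1).inter hB2.compl
  have hsub : E ⊆ boxX x0 s ×ˢ boxP 0 s := fun z hz => ⟨hz.1, hz.2.1⟩
  obtain ⟨U, hUO, hUo, ⟨⟨b, th⟩, hbth⟩, hUm⟩ := K7 (X A × P) E _ hEm hE hO hsub
  obtain ⟨s1, hs1⟩ := SL.nhXP A U b th hUo hbth
  set l := max s1 s with hl
  have hsub1 : boxX b l ×ˢ boxP th l ⊆ U := hs1 l (le_max_left _ _)
  have hsl : s ≤ l := le_max_right _ _
  have hO1 : IsOpen (boxX b l ×ˢ boxP th l) := (SL.openX A b l).prod (SL.openP th l)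
  have hb : b ∈ boxX x0 s := (hUO hbth).1
  have hth : ∀ i < s, th i = 0 := (hUO hbth).2
  have hbox : boxX b l ⊆ boxX x0 s := by
    intro x hx i hi
    obtain ⟨a1, a2, a3⟩ := hx i (lt_of_lt_of_le hi hsl)
    obtain ⟨b1, b2, b3⟩ := hb i hi
    exact ⟨a1.trans b1, a2.trans b2, a3.trans b3⟩
  have hm1 : IsMeagre ((boxX b l ×ˢ boxP th l) \ E) :=
    hUm.mono (Set.sdiff_subset_sdiff_left hsub1)
  -- projection
  have hfn : BaireMeasurableSet {x : X A | n ∈ f x} := hf n
  have hp1 : IsMeagre (Prod.fst '' (boxX b l ×ˢ boxP th l) \ {x : X A | n ∈ f x}) := by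
    refine K6 (X A × P) (X A) Prod.fst _ _ continuous_fst isOpenMap_fst hO1 hfn ?_
    refine hm1.mono ?_
    rintro z ⟨hz, hn⟩
    exact ⟨hz, fun hzE => hn hzE.2.2.1⟩
  have hp2 : IsMeagre ((fun z : X A × P => act3 z.2 z.1) '' (boxX b l ×ˢ boxP th l) \
      {x : X A | n ∈ f x}ᶜ) := by
    refine K6 (X A × P) (X A) (fun z : X A × P => act3 z.2 z.1) _ _ (cont_act act)
      (open_act act) hO1 hfn.compl ?_
    refine hm1.mono ?_
    rintro z ⟨hz, hn⟩
    exact ⟨hz, fun hzE => hn hzE.2.2.2⟩
  -- the cut parameter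
  set w : P := fun i => if i < l then th i else 0 with hw
  have hws : ∀ i < s, w i = 0 := by
    intro i hi
    have : i < l := lt_of_lt_of_le hi hsl
    simp only [hw, this, if_true]
    exact hth i hi
  have hwl : ∀ i, l ≤ i → w i = 0 := by
    intro i hi
    have : ¬ i < l := by omega
    simp only [hw, this, if_false]
  have hp3 := fin_good act f x0 s h l w hws hwl
  have hp4 : IsMeagre (homeo (A := A) act w ⁻¹'
      ((fun z : X A × P => act3 z.2 z.1) '' (boxX b l ×ˢ boxP th l) \
      {x : X A | n ∈ f x}ᶜ)) := pre _ hp2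
  have hbad : IsMeagre (boxX b l) := by
    refine ((hp1.union hp4).union hp3).mono ?_
    intro x hx
    by_contra hcon
    simp only [Set.mem_union, not_or] at hcon
    obtain ⟨⟨c1, c2⟩, c3⟩ := hcon
    have d1 : n ∈ f x := by
      by_contra hn
      exact c1 ⟨⟨(x, th), ⟨hx, fun _ _ => rfl⟩, rfl⟩, hn⟩
    have d2 : n ∉ f (act3 w x) := by
      intro hn
      apply c2
      refine ⟨⟨(x, w), ⟨hx, ?_⟩, rfl⟩, ?_⟩
      · intro i hi
        simp only [hw, hi, if_true]
      · intro hh
        exact hh hn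
    have d3 : f (act3 w x) = f x := by
      by_contra hn
      exact c3 ⟨hbox hx, hn⟩
    rw [d3] at d2
    exact d2 d1
  exact not_isMeagre_of_isOpen (SL.openX A b l) ⟨b, mem_box_self b l⟩ hbad

end INV_

/-- If `f` does not see single changes of `y` beyond `s`, it sees no change beyond `s`. -/
theorem p_INV (K6 : T_K6) (K7 : T_K7) (BL : BMLib) (SL : SpLib) (act : ActLib) : T_INV := by
  intro A f hf x0 s h
  have h1 : IsMeagre (⋃ n : ℕ, ({z : X A × P | z.1 ∈ boxX x0 s ∧ (∀ i < s, z.2 i = 0) ∧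
      n ∈ f z.1 ∧ n ∉ f (act3 z.2 z.1)} ∪ (INV_.flip (A := A) act) ⁻¹'
      {z : X A × P | z.1 ∈ boxX x0 s ∧ (∀ i < s, z.2 i = 0) ∧
      n ∈ f z.1 ∧ n ∉ f (act3 z.2 z.1)})) := by
    refine isMeagre_iUnion fun n => ?_
    have := INV_.main1 K6 K7 BL SL act f hf x0 s h n
    exact this.union (INV_.pre _ this)
  refine h1.mono ?_
  rintro ⟨x, t⟩ ⟨hx, ht, hne⟩
  rw [Set.mem_iUnion]
  by_contra hcon
  push Not at hcon
  apply hne
  ext n
  have hn := hcon n
  rw [Set.mem_union, not_or] at hn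
  obtain ⟨ha, hb⟩ := hn
  constructor
  · intro hm
    by_contra hf'
    apply hb
    refine ⟨INV_.box_act ht hx, ?_, hm, ?_⟩
    · intro i hi
      have h0 : t i = 0 := ht i hi
      change -(t i) = 0
      rw [h0, neg_zero]
    · change n ∉ f (act3 (-t) (act3 t x))
      rw [INV_.act3_neg]
      exact hf'
  · intro hm
    by_contra hf'
    exact ha ⟨hx, ht, hm, hf'⟩

end Pool.Agent.RIG
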