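import Pool.Agent.RIG.Targets

set_option autoImplicit false

namespace Pool.Agent.RIG

open Topology Filter Nat.Partrec

namespace LAT_

/-- explicit reductions -/
lemma mk (h_LOP : T_LOP) (h_OP : T_OP) (R : ℕ → List ℕ → Prop)
    (hR : RE (fun a : ℕ × List ℕ => R a.1 a.2)) (B : Set ℕ) :
    ERed {x | ∃ L : List ℕ, (∀ y ∈ L, y ∈ B) ∧ R x L} B := by
  obtain ⟨c, hc⟩ := h_LOP R hR
  exact (h_OP _ _).2 ⟨c, (hc B).symm⟩

lemma mkEq (h_LOP : T_LOP) (h_OP : T_OP) (R : ℕ → List ℕ → Prop)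
    (hR : RE (fun a : ℕ × List ℕ => R a.1 a.2)) (A B : Set ℕ)
    (hA : ∀ x, x ∈ A ↔ ∃ L : List ℕ, (∀ y ∈ L, y ∈ B) ∧ R x L) :
    ERed A B := by
  have h1 : A = {x | ∃ L : List ℕ, (∀ y ∈ L, y ∈ B) ∧ R x L} := Set.ext hA
  rw [h1]
  exact mk h_LOP h_OP R hR B

/-- reductions given by a primitive recursive function -/
lemma one (h : RELib) (h_LOP : T_LOP) (h_OP : T_OP) (f : ℕ → ℕ) (hf : Primrec f)
    (A B : Set ℕ) (hA : ∀ x, x ∈ A ↔ f x ∈ B) : ERed A B := by
  refine mkEq h_LOP h_OP (fun x L => L = [f x]) ?_ A B ?_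
  · apply h.prim
    exact Primrec.eq.comp Primrec.snd
      (Primrec.list_cons.comp (hf.comp Primrec.fst) (Primrec.const []))
  · intro x
    rw [hA]
    constructor
    · intro hx
      exact ⟨[f x], by simpa using hx, rfl⟩
    · rintro ⟨L, hL, rfl⟩
      exact hL _ (List.mem_singleton.2 rfl)

lemma evRE (h : RELib) (c : Code) :
    RE (fun a : ℕ × List ℕ => (Code.eval c (Nat.pair a.1.unpair.2 (Encodable.encode a.2))).Dom) :=
  h.comp (f := fun a : ℕ × List ℕ =>
      ((c, Nat.pair a.1.unpair.2 (Encodable.encode a.2)) : Code × ℕ))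
    (Primrec.pair (Primrec.const c)
      (Primrec₂.natPair.comp (Primrec.snd.comp (Primrec.unpair.comp Primrec.fst))
        (Primrec.encode.comp Primrec.snd))) h.ev

lemma fstRE (h : RELib) (k : ℕ) : RE (fun a : ℕ × List ℕ => a.1.unpair.1 = k) :=
  h.prim (Primrec.eq.comp (Primrec.fst.comp (Primrec.unpair.comp Primrec.fst)) (Primrec.const k))

lemma lub (h : RELib) (h_LOP : T_LOP) (h_OP : T_OP) {A B C : Set ℕ} (hA : ERed A C)
    (hB : ERed B C) : ERed (jn A B) C := by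
  obtain ⟨c, hc⟩ := (h_OP A C).1 hA
  obtain ⟨d, hd⟩ := (h_OP B C).1 hB
  refine mkEq h_LOP h_OP (fun n L =>
    (n.unpair.1 = 0 ∧ (Code.eval c (Nat.pair n.unpair.2 (Encodable.encode L))).Dom) ∨
    (n.unpair.1 = 1 ∧ (Code.eval d (Nat.pair n.unpair.2 (Encodable.encode L))).Dom)) ?_ _ _ ?_
  · exact h.or (h.and (fstRE h 0) (evRE h c)) (h.and (fstRE h 1) (evRE h d))
  · intro n
    constructor
    · rintro (⟨h0, hn⟩ | ⟨h1, hn⟩)
      · rw [hc] at hn
        obtain ⟨L, hL, hD⟩ := hn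
        exact ⟨L, hL, Or.inl ⟨h0, hD⟩⟩
      · rw [hd] at hn
        obtain ⟨L, hL, hD⟩ := hn
        exact ⟨L, hL, Or.inr ⟨h1, hD⟩⟩
    · rintro ⟨L, hL, ⟨h0, hD⟩ | ⟨h1, hD⟩⟩
      · left
        refine ⟨h0, ?_⟩
        rw [hc]
        exact ⟨L, hL, hD⟩
      · right
        refine ⟨h1, ?_⟩
        rw [hd]
        exact ⟨L, hL, hD⟩

lemma trans (h_OP : T_OP) (h_CMP : T_CMP) {A B C : Set ℕ} (hA : ERed A B) (hB : ERed B C) :
    ERed A C := by
  obtain ⟨c, hc⟩ := (h_OP A B).1 hA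
  obtain ⟨d, hd⟩ := (h_OP B C).1 hB
  obtain ⟨cmp, _, hcmp⟩ := h_CMP
  exact (h_OP A C).2 ⟨cmp c d, by rw [hcmp, ← hd, ← hc]⟩

lemma empty (h : RELib) (h_LOP : T_LOP) (h_OP : T_OP) (C : Set ℕ) : ERed ∅ C := by
  refine mkEq h_LOP h_OP (fun _ _ => False) ?_ _ _ ?_
  · exact h.prim (PrimrecPred.of_eq
      (Primrec.eq.comp (Primrec.const (0 : ℕ)) (Primrec.const (1 : ℕ))) (fun _ => by simp))
  · intro x
    simp

lemma split (h : RELib) (h_LOP : T_LOP) (h_OP : T_OP) (M : ℕ → Set ℕ) (k : ℕ) :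
    ERed (fam M) (jn (fam (Function.update M k ∅)) (M k)) := by
  refine one h h_LOP h_OP
    (fun n => if n.unpair.1 = k then Nat.pair 1 n.unpair.2 else Nat.pair 0 n) ?_ _ _ ?_
  · exact Primrec.ite (Primrec.eq.comp (Primrec.fst.comp Primrec.unpair) (Primrec.const k))
      (Primrec₂.natPair.comp (Primrec.const 1) (Primrec.snd.comp Primrec.unpair))
      (Primrec₂.natPair.comp (Primrec.const 0) Primrec.id)
  · intro n
    by_cases hn : n.unpair.1 = k
    · simp [hn, jn, fam]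
    · simp [hn, jn, fam]

end LAT_

theorem p_LAT (h : RELib) (h_LOP : T_LOP) (h_OP : T_OP) (h_CMP : T_CMP) : LatLib := by
  refine ⟨?_, ?_, ?_, ?_, ?_, ?_, ?_, ?_⟩
  · intro A
    exact LAT_.one h h_LOP h_OP id Primrec.id A A (fun x => Iff.rfl)
  · intro A B C hA hB
    exact LAT_.trans h_OP h_CMP hA hB
  · intro A B
    refine LAT_.one h h_LOP h_OP (fun x => Nat.pair 0 x)
      (Primrec₂.natPair.comp (Primrec.const 0) Primrec.id) _ _ ?_
    intro x
    simp [jn]
  · intro A B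
    refine LAT_.one h h_LOP h_OP (fun x => Nat.pair 1 x)
      (Primrec₂.natPair.comp (Primrec.const 1) Primrec.id) _ _ ?_
    intro x
    simp [jn]
  · intro A B C hA hB
    exact LAT_.lub h h_LOP h_OP hA hB
  · exact LAT_.empty h h_LOP h_OP
  · intro M i
    refine LAT_.one h h_LOP h_OP (fun x => Nat.pair i x)
      (Primrec₂.natPair.comp (Primrec.const i) Primrec.id) _ _ ?_
    intro x
    simp [fam]
  · intro M C k
    induction k generalizing M with
    | zero =>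
      intro hM _
      have h1 : fam M = ∅ := by
        ext n
        simp [fam, hM n.unpair.1 (Nat.zero_le _)]
      rw [h1]
      exact LAT_.empty h h_LOP h_OP C
    | succ k ih =>
      intro hM hC
      refine LAT_.trans h_OP h_CMP (LAT_.split h h_LOP h_OP M k)
        (LAT_.lub h h_LOP h_OP (ih _ ?_ ?_) (hC k (Nat.lt_succ_self k)))
      · intro i hi
        rcases Nat.eq_or_lt_of_le hi with heq | hlt
        · subst heq
          simp
        · rw [Function.update_of_ne hlt.ne']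
          exact hM i hlt
      · intro i hi
        rw [Function.update_of_ne hi.ne]
        exact hC i (Nat.lt_succ_of_lt hi)

end Pool.Agent.RIG
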