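import Pool.Agent.RIG.Targets

set_option autoImplicit false

/-!
# RIG, target LOP: every c.e. relation between numbers and lists is the relation of a code
-/

namespace Pool.Agent.RIG

open Topology Filter Nat.Partrec

namespace LOP_

/-- The coded relation is c.e. -/
theorem re_coded (h : RELib) (R : ℕ → List ℕ → Prop)
    (hR : RE (fun a : ℕ × List ℕ => R a.1 a.2)) :
    RE (fun n : ℕ => ∃ L : List ℕ, Encodable.encode L = n.unpair.2 ∧ R n.unpair.1 L) := by
  refine h.ex (p := fun (n : ℕ) (L : List ℕ) =>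
    Encodable.encode L = n.unpair.2 ∧ R n.unpair.1 L) ?_
  refine h.and ?_ ?_
  · exact h.prim (Primrec.eq.comp (Primrec.encode.comp Primrec.snd)
      (Primrec.snd.comp (Primrec.unpair.comp Primrec.fst)))
  · exact h.comp (f := fun a : ℕ × List ℕ => (a.1.unpair.1, a.2))
      (p := fun a : ℕ × List ℕ => R a.1 a.2)
      ((Primrec.fst.comp (Primrec.unpair.comp Primrec.fst)).pair Primrec.snd) hR

/-- A c.e. predicate on the natural numbers is the domain of a code. -/
theorem exists_dom (h : RELib) (p : ℕ → Prop) (hp : RE p) :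
    ∃ c : Code, ∀ n, (Code.eval c n).Dom ↔ p n := by
  have h1 : REPred p := h.toREPred hp
  have h2 : Partrec (fun n : ℕ => (Part.assert (p n) fun _ => Part.some ()).map
      (fun _ => (0 : ℕ))) := Partrec.map h1 (Computable.const 0).to₂
  obtain ⟨c, hc⟩ := Code.exists_code.1 (Partrec.nat_iff.1 h2)
  refine ⟨c, fun n => ?_⟩
  rw [hc]
  simp [Part.assert]

end LOP_

/-- LOP. -/
theorem p_LOP (h : RELib) : T_LOP := by
  intro R hR
  obtain ⟨c, hc⟩ := LOP_.exists_dom h _ (LOP_.re_coded h R hR)
  refine ⟨c, fun B => ?_⟩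
  ext x
  simp only [op, Set.mem_ofPred_eq]
  constructor
  · rintro ⟨L, hL, hd⟩
    obtain ⟨L', hL', hR'⟩ := (hc _).1 hd
    simp only [Nat.unpair_pair] at hL' hR'
    have : L' = L := Encodable.encode_injective hL'
    subst this
    exact ⟨L', hL, hR'⟩
  · rintro ⟨L, hL, hr⟩
    refine ⟨L, hL, (hc _).2 ⟨L, ?_, ?_⟩⟩
    · simp only [Nat.unpair_pair]
    · simpa only [Nat.unpair_pair] using hr

end Pool.Agent.RIG
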