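import Pool.Agent.RIG.Targets

set_option autoImplicit false

/-!
# RIG: proofs of AUL and NAM
-/

namespace Pool.Agent.RIG

open Topology Filter Nat.Partrec

theorem p_AUL (h : LatLib) : AutLib where
  fj φ A B := by
    have h1 : ERed A (φ.G (jn (φ.F A) (φ.F B))) :=
      h.trans (φ.GF A).2 (φ.monoG _ _ (h.left _ _))
    have h2 : ERed B (φ.G (jn (φ.F A) (φ.F B))) :=
      h.trans (φ.GF B).2 (φ.monoG _ _ (h.right _ _))
    exact h.trans (φ.monoF _ _ (h.lub h1 h2)) (φ.FG _).1
  fj' φ A B := h.lub (φ.monoF _ _ (h.left _ _)) (φ.monoF _ _ (h.right _ _))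
  up φ A B := ⟨fun h1 => h.trans (φ.GF A).2 (φ.monoG _ _ h1),
    fun h1 => h.trans (φ.monoF _ _ h1) (φ.FG B).1⟩
  down φ A B := ⟨fun h1 => h.trans (φ.monoG _ _ h1) (φ.GF B).1,
    fun h1 => h.trans (φ.FG A).2 (φ.monoF _ _ h1)⟩
  inj φ A B h1 := h.trans (φ.GF A).2 (h.trans (φ.monoG _ _ h1) (φ.GF B).1)
  inv φ := ⟨⟨φ.G, φ.F, φ.monoG, φ.monoF, φ.GF, φ.FG⟩, rfl, rfl⟩

namespace NAM_

/-- Selecting columns. -/
theorem sel (hR : RELib) (hLOP : T_LOP) (hOP : T_OP) (Y K : Set ℕ) :
    ERed {m | m.unpair.1 ∈ Y ∧ m ∈ K} (jn Y K) := by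
  have hmem : PrimrecRel fun (L : List ℕ) (b : ℕ) => ∃ a ∈ L, a = b :=
    PrimrecRel.exists_mem_list (R := fun a b : ℕ => a = b) Primrec.eq
  have hprim : PrimrecPred fun a : ℕ × List ℕ =>
      (∃ b ∈ a.2, b = Nat.pair 0 a.1.unpair.1) ∧ (∃ b ∈ a.2, b = Nat.pair 1 a.1) := by
    apply PrimrecPred.and
    · exact hmem.comp Primrec.snd (Primrec₂.natPair.comp (Primrec.const 0)
        (Primrec.fst.comp (Primrec.unpair.comp Primrec.fst)))
    · exact hmem.comp Primrec.snd (Primrec₂.natPair.comp (Primrec.const 1) Primrec.fst)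
  obtain ⟨c, hc⟩ := hLOP (fun m L => (∃ b ∈ L, b = Nat.pair 0 m.unpair.1) ∧
    (∃ b ∈ L, b = Nat.pair 1 m)) (hR.prim hprim)
  rw [hOP]
  refine ⟨c, ?_⟩
  rw [hc]
  ext m
  constructor
  · rintro ⟨h1, h2⟩
    refine ⟨[Nat.pair 0 m.unpair.1, Nat.pair 1 m], ?_, by simp, by simp⟩
    intro y hy
    simp only [List.mem_cons, List.not_mem_nil, or_false] at hy
    rcases hy with rfl | rfl
    · left; simpa using h1
    · right; simpa using h2
  · rintro ⟨L, hL, ⟨b, hb, rfl⟩, b', hb', rfl⟩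
    have h1 := hL _ hb
    have h2 := hL _ hb'
    simp only [jn, Set.mem_ofPred_eq, Nat.unpair_pair] at h1 h2
    simp at h1 h2
    exact ⟨h1, h2⟩

end NAM_

open NAM_ in
theorem p_NAM (hR : RELib) (hLOP : T_LOP) (hOP : T_OP) (hL : LatLib) (hB : BMLib)
    (hI : T_IND) (hA : AutLib) : T_NAM := by
  intro φ A T _ c hc hE
  classical
  obtain ⟨G, hG⟩ := hI (φ.F A)
  set G' : ℕ → Set ℕ := fun n => fam (fun k => if k = n then (∅ : Set ℕ) else G k) with hG'
  set D : Set ℕ := φ.G (fam G) with hD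
  have hM : ∀ n, IsMeagre {z | ERed (φ.G (G n)) (jn (c z) (φ.G (G' n)))} := by
    intro n
    by_contra hn
    have h1 := hE _ _ hn
    apply hG n
    have h2 : ERed (G n) (φ.F (jn A (φ.G (G' n)))) := (hA.down φ _ _).mpr h1
    refine hL.trans (hL.trans h2 (hA.fj φ _ _)) (hL.lub (hL.left _ _) ?_)
    exact hL.trans (φ.FG _).1 (hL.right _ _)
  refine ⟨fun e z => {n | ERed (φ.G (G n)) (op e (jn (c z) D))}, ?_, ?_⟩
  · intro e n
    exact hB.bred (hB.bconst (φ.G (G n))) (hB.bop e (hB.bjn hc (hB.bconst D)))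
  · have hU : IsMeagre (⋃ n, {z | ERed (φ.G (G n)) (jn (c z) (φ.G (G' n)))}) :=
      isMeagre_iUnion hM
    refine hU.mono ?_
    intro z hz
    rw [Set.mem_iUnion]
    by_contra hn
    push Not at hn
    apply hz
    set Y := φ.F (c z) with hY
    set B : Set ℕ := fam (fun k => if k ∈ Y then G k else ∅) with hBd
    have hBe : B = {m | m.unpair.1 ∈ Y ∧ m ∈ fam G} := by
      ext m
      simp only [hBd, fam, Set.mem_ofPred_eq]
      split_ifs with h
      · simp [h]
      · simp [h]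
    have hcz : ∀ K : Set ℕ, ERed B (jn Y K) → ERed (φ.G B) (jn (c z) (φ.G K)) := by
      intro K hK
      rw [← hA.down]
      refine hL.trans hK (hL.lub (φ.monoF _ _ (hL.left _ _)) ?_)
      exact hL.trans (φ.FG K).2 (φ.monoF _ _ (hL.right _ _))
    have h1 : ERed (φ.G B) (jn (c z) D) := by
      apply hcz
      rw [hBe]
      exact sel hR hLOP hOP Y (fam G)
    obtain ⟨e, he⟩ := (hOP _ _).mp h1
    refine ⟨e, ?_⟩
    have key : {n | ERed (φ.G (G n)) (op e (jn (c z) D))} = Y := by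
      rw [← he]
      ext n
      constructor
      · intro hn1
        by_contra hn2
        have h2 : B = {m | m.unpair.1 ∈ Y ∧ m ∈ G' n} := by
          rw [hBe]
          ext m
          simp only [hG', fam, Set.mem_ofPred_eq]
          constructor
          · rintro ⟨h3, h4⟩
            refine ⟨h3, ?_⟩
            rw [if_neg]
            · exact h4
            · intro h5
              exact hn2 (h5 ▸ h3)
          · rintro ⟨h3, h4⟩
            refine ⟨h3, ?_⟩
            rw [if_neg] at h4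
            · exact h4
            · intro h5
              exact hn2 (h5 ▸ h3)
        have h3 : ERed B (jn Y (G' n)) := by
          rw [h2]
          exact sel hR hLOP hOP Y (G' n)
        exact hn n (hL.trans hn1 (hcz _ h3))
      · intro hn1
        have h2 := hL.col (fun k => if k ∈ Y then G k else ∅) n
        simp only [if_pos hn1] at h2
        exact φ.monoG _ _ h2
    change EEqv {n | ERed (φ.G (G n)) (op e (jn (c z) D))} Y
    rw [key]
    exact ⟨hL.refl _, hL.refl _⟩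

end Pool.Agent.RIG
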