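import Pool.Agent.RIG.Targets

set_option autoImplicit false

/-!
# RIG, target OP: enumeration reducibility by codes
-/

namespace Pool.Agent.RIG

open Topology Filter Nat.Partrec

namespace OP_

theorem prim_pow2 : Primrec (fun n : ℕ => 2 ^ n) := by
  have h : Primrec (fun n : ℕ => Nat.rec (motive := fun _ => ℕ) 1 (fun _ ih => 2 * ih) n) :=
    Primrec.nat_rec₁ 1
      (Primrec.nat_mul.comp (Primrec.const 2) Primrec.snd).to₂
  refine h.of_eq fun n => ?_
  induction n with
  | zero => rfl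
  | succ n ih =>
    rw [pow_succ, ← ih]
    exact Nat.mul_comm _ _

theorem prim_testBit : Primrec₂ (fun (u y : ℕ) => u.testBit y) := by
  have h : PrimrecPred (fun a : ℕ × ℕ => a.1 / 2 ^ a.2 % 2 = 1) :=
    Primrec.eq.comp
      (Primrec.nat_mod.comp
        (Primrec.nat_div.comp Primrec.fst (prim_pow2.comp Primrec.snd)) (Primrec.const 2))
      (Primrec.const 1)
  obtain ⟨hd, h⟩ := h
  refine Primrec.of_eq h fun a => ?_
  change decide (a.1 / 2 ^ a.2 % 2 = 1) = a.1.testBit a.2
  rw [Nat.testBit_eq_decide_div_mod_eq]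
  exact decide_eq_decide.2 Iff.rfl

theorem prim_bit {α : Type} [Primcodable α] {f g : α → ℕ} (hf : Primrec f) (hg : Primrec g) :
    PrimrecPred (fun a => (f a).testBit (g a) = true) := by
  exact Primrec.eq.comp (prim_testBit.comp hf hg) (Primrec.const true)

theorem prim_mem {α : Type} [Primcodable α] {f : α → ℕ} {g : α → List ℕ} (hf : Primrec f)
    (hg : Primrec g) : PrimrecPred (fun a => f a ∈ g a) := by
  have h : PrimrecRel (fun (L : List ℕ) (b : ℕ) => ∃ a ∈ L, a = b) :=
    PrimrecRel.exists_mem_list Primrec.eq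
  refine PrimrecPred.of_eq (h.comp hg hf) fun a => ?_
  simp

theorem lt_of_testBit {u y : ℕ} (h : u.testBit y = true) : y < u := by
  have h1 : 2 ^ y ≤ u := Nat.ge_two_pow_of_testBit h
  exact lt_of_lt_of_le Nat.lt_two_pow_self h1

theorem exists_bits (L : List ℕ) : ∃ u : ℕ, ∀ y, u.testBit y = true ↔ y ∈ L := by
  induction L with
  | nil => exact ⟨0, fun y => by simp⟩
  | cons a L ih =>
    obtain ⟨u, hu⟩ := ih
    refine ⟨2 ^ a ||| u, fun y => ?_⟩
    rw [Nat.testBit_or, Bool.or_eq_true, hu, Nat.testBit_two_pow, List.mem_cons]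
    constructor
    · rintro (h | h)
      · exact Or.inl (of_decide_eq_true h).symm
      · exact Or.inr h
    · rintro (h | h)
      · exact Or.inl (decide_eq_true h.symm)
      · exact Or.inr h

/-- From an enumeration reduction to a code. -/
theorem to_code (h : RELib) (h_LOP : T_LOP) (A B : Set ℕ) (hAB : ERed A B) :
    ∃ c : Code, A = op c B := by
  obtain ⟨W, hW, hx⟩ := hAB
  have hW' : RE (fun n : ℕ => n ∈ W) := h.ofREPred hW
  have h1 : RE (fun a : (ℕ × List ℕ) × ℕ =>
      ∀ y ∈ List.range a.2, (a.2.testBit y = true → y ∈ a.1.2)) := by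
    refine h.allL (l := fun a : (ℕ × List ℕ) × ℕ => List.range a.2)
      (p := fun (a : (ℕ × List ℕ) × ℕ) (y : ℕ) => (a.2.testBit y = true → y ∈ a.1.2))
      (Primrec.list_range.comp Primrec.snd) ?_
    refine h.prim ?_
    have h2 : PrimrecPred (fun b : ((ℕ × List ℕ) × ℕ) × ℕ =>
        (¬ b.1.2.testBit b.2 = true) ∨ b.2 ∈ b.1.1.2) :=
      (prim_bit (Primrec.snd.comp Primrec.fst) Primrec.snd).not.or
        (prim_mem Primrec.snd (Primrec.snd.comp (Primrec.fst.comp Primrec.fst)))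
    exact PrimrecPred.of_eq h2 fun b => by tauto
  have h3 : RE (fun a : (ℕ × List ℕ) × ℕ => Nat.pair a.1.1 a.2 ∈ W) :=
    h.comp (f := fun a : (ℕ × List ℕ) × ℕ => Nat.pair a.1.1 a.2)
      (Primrec₂.natPair.comp (Primrec.fst.comp Primrec.fst) Primrec.snd) hW'
  have h4 : RE (fun a : ℕ × List ℕ => ∃ u : ℕ,
      (∀ y ∈ List.range u, (u.testBit y = true → y ∈ a.2)) ∧ Nat.pair a.1 u ∈ W) :=
    h.ex (p := fun (a : ℕ × List ℕ) (u : ℕ) =>
      (∀ y ∈ List.range u, (u.testBit y = true → y ∈ a.2)) ∧ Nat.pair a.1 u ∈ W) (h.and h1 h3)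
  obtain ⟨c, hc⟩ := h_LOP (fun x L => ∃ u : ℕ,
      (∀ y ∈ List.range u, (u.testBit y = true → y ∈ L)) ∧ Nat.pair x u ∈ W) h4
  refine ⟨c, ?_⟩
  rw [hc B]
  ext x
  rw [hx x]
  constructor
  · rintro ⟨u, hu, huW⟩
    refine ⟨(List.range u).filter (fun y => u.testBit y), ?_, u, ?_, huW⟩
    · intro y hy
      exact hu y (List.mem_filter.1 hy).2
    · intro y hy hyu
      exact List.mem_filter.2 ⟨hy, hyu⟩
  · rintro ⟨L, hL, u, hu, huW⟩
    refine ⟨u, fun y hy => ?_, huW⟩
    exact hL y (hu y (List.mem_range.2 (lt_of_testBit hy)) hy)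

/-- From a code to an enumeration reduction. -/
theorem of_code (h : RELib) (B : Set ℕ) (c : Code) : ERed (op c B) B := by
  refine ⟨{n | ∃ L : List ℕ, (∀ y ∈ L, n.unpair.2.testBit y = true) ∧
    (Code.eval c (Nat.pair n.unpair.1 (Encodable.encode L))).Dom}, ?_, fun x => ?_⟩
  · refine h.toREPred ?_
    have h1 : RE (fun a : ℕ × List ℕ => ∀ y ∈ a.2, (a.1.unpair.2.testBit y = true)) := by
      refine h.allL (l := fun a : ℕ × List ℕ => a.2)
        (p := fun (a : ℕ × List ℕ) (y : ℕ) => a.1.unpair.2.testBit y = true) Primrec.snd ?_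
      exact h.prim (prim_bit
        (Primrec.snd.comp (Primrec.unpair.comp (Primrec.fst.comp Primrec.fst))) Primrec.snd)
    have h2 : RE (fun a : ℕ × List ℕ =>
        (Code.eval c (Nat.pair a.1.unpair.1 (Encodable.encode a.2))).Dom) := by
      refine h.comp (f := fun a : ℕ × List ℕ =>
        (c, Nat.pair a.1.unpair.1 (Encodable.encode a.2))) ?_ h.ev
      exact (Primrec.const c).pair (Primrec₂.natPair.comp
        (Primrec.fst.comp (Primrec.unpair.comp Primrec.fst)) (Primrec.encode.comp Primrec.snd))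
    exact h.ex (p := fun (n : ℕ) (L : List ℕ) => (∀ y ∈ L, n.unpair.2.testBit y = true) ∧
      (Code.eval c (Nat.pair n.unpair.1 (Encodable.encode L))).Dom) (h.and h1 h2)
  · constructor
    · rintro ⟨L, hL, hd⟩
      obtain ⟨u, hu⟩ := exists_bits L
      refine ⟨u, fun y hy => hL y ((hu y).1 hy), L, fun y hy => ?_, ?_⟩
      · rw [Nat.unpair_pair]
        exact (hu y).2 hy
      · rw [Nat.unpair_pair]
        exact hd
    · rintro ⟨u, hu, L, hL, hd⟩
      rw [Nat.unpair_pair] at hL hd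
      exact ⟨L, fun y hy => hu y (hL y hy), hd⟩

end OP_

theorem p_OP (h : RELib) (h_LOP : T_LOP) : T_OP := by
  intro A B
  constructor
  · exact OP_.to_code h h_LOP A B
  · rintro ⟨c, rfl⟩
    exact OP_.of_code h B c

end Pool.Agent.RIG
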