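import Pool.Agent.RIG.Targets

set_option autoImplicit false

/-!
# RIG, targets STEP and UNI
-/

namespace Pool.Agent.RIG

open Topology Filter Nat.Partrec

namespace STEP_

theorem mem_rel : PrimrecRel fun (L : List ℕ) (b : ℕ) => b ∈ L := by
  have h := PrimrecRel.exists_mem_list (Primrec.eq (α := ℕ))
  exact h.of_eq fun L b => by simp

/-- The relation of the first operator. -/
def Rel (c : Code) (i j t : ℕ) (n : ℕ) (L : List ℕ) : Prop :=
  (n.unpair.1 ≠ t ∧ n ∈ L) ∨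
  (n.unpair.1 = t ∧ ∃ L' : List ℕ,
    (Code.eval c (Nat.pair n.unpair.2 (Encodable.encode L'))).Dom ∧
    ∀ y ∈ L', (y.unpair.1 = 0 ∧ Nat.pair i y.unpair.2 ∈ L) ∨
      (y.unpair.1 = 1 ∧ Nat.pair j y.unpair.2 ∈ L))

theorem prim_ne (t : ℕ) : PrimrecPred fun a : ℕ × List ℕ => a.1.unpair.1 ≠ t := by
  have h : PrimrecPred fun a : ℕ × List ℕ => a.1.unpair.1 = t :=
    Primrec.eq.comp (Primrec.fst.comp (Primrec.unpair.comp Primrec.fst)) (Primrec.const t)
  exact h.not

theorem prim_eq (t : ℕ) : PrimrecPred fun a : ℕ × List ℕ => a.1.unpair.1 = t :=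
  Primrec.eq.comp (Primrec.fst.comp (Primrec.unpair.comp Primrec.fst)) (Primrec.const t)

theorem prim_in : PrimrecPred fun a : ℕ × List ℕ => a.1 ∈ a.2 :=
  mem_rel.comp Primrec.snd Primrec.fst

theorem prim_pair (i k : ℕ) : PrimrecPred
    fun a : ((ℕ × List ℕ) × List ℕ) × ℕ => a.2.unpair.1 = k ∧
      Nat.pair i a.2.unpair.2 ∈ a.1.1.2 := by
  have h1 : PrimrecPred fun a : ((ℕ × List ℕ) × List ℕ) × ℕ => a.2.unpair.1 = k :=
    Primrec.eq.comp (Primrec.fst.comp (Primrec.unpair.comp Primrec.snd)) (Primrec.const k)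
  have h2 : PrimrecPred fun a : ((ℕ × List ℕ) × List ℕ) × ℕ =>
      Nat.pair i a.2.unpair.2 ∈ a.1.1.2 :=
    mem_rel.comp (Primrec.snd.comp (Primrec.fst.comp Primrec.fst))
      (Primrec₂.natPair.comp (Primrec.const i)
        (Primrec.snd.comp (Primrec.unpair.comp Primrec.snd)))
  exact h1.and h2

theorem rel_re (h : RELib) (c : Code) (i j t : ℕ) :
    RE (fun a : ℕ × List ℕ => Rel c i j t a.1 a.2) := by
  refine h.or (h.and (h.prim (prim_ne t)) (h.prim prim_in)) (h.and (h.prim (prim_eq t)) ?_)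
  refine h.ex (α := ℕ × List ℕ) (β := List ℕ) (p := fun a L' =>
    (Code.eval c (Nat.pair a.1.unpair.2 (Encodable.encode L'))).Dom ∧
    ∀ y ∈ L', (y.unpair.1 = 0 ∧ Nat.pair i y.unpair.2 ∈ a.2) ∨
      (y.unpair.1 = 1 ∧ Nat.pair j y.unpair.2 ∈ a.2)) (h.and ?_ ?_)
  · refine h.comp (f := fun a : (ℕ × List ℕ) × List ℕ =>
      (c, Nat.pair a.1.1.unpair.2 (Encodable.encode a.2)))
      (p := fun b : Code × ℕ => (Code.eval b.1 b.2).Dom) ?_ h.ev
    exact (Primrec.const c).pair (Primrec₂.natPair.comp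
      (Primrec.snd.comp (Primrec.unpair.comp (Primrec.fst.comp Primrec.fst)))
      (Primrec.encode.comp Primrec.snd))
  · refine h.allL (α := (ℕ × List ℕ) × List ℕ) (β := ℕ) (l := fun a => a.2)
      (p := fun a y => (y.unpair.1 = 0 ∧ Nat.pair i y.unpair.2 ∈ a.1.2) ∨
        (y.unpair.1 = 1 ∧ Nat.pair j y.unpair.2 ∈ a.1.2)) Primrec.snd ?_
    exact h.prim ((prim_pair i 0).or (prim_pair j 1))

end STEP_

theorem p_STEP (h : RELib) (h_LOP : T_LOP) : T_STEP := by
  intro c i j t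
  obtain ⟨s, hs⟩ := h_LOP (STEP_.Rel c i j t) (STEP_.rel_re h c i j t)
  refine ⟨s, fun M => ?_⟩
  rw [hs]
  ext x
  simp only [Set.mem_ofPred_eq, fam]
  constructor
  · rintro ⟨L, hL, ⟨h1, h2⟩ | ⟨h1, L', h2, h3⟩⟩
    · rw [Function.update_of_ne h1]
      exact hL x h2
    · rw [h1, Function.update_self]
      refine ⟨L', fun y hy => ?_, h2⟩
      rcases h3 y hy with ⟨h4, h5⟩ | ⟨h4, h5⟩
      · left
        refine ⟨h4, ?_⟩
        have h6 := hL _ h5
        simpa using h6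
      · right
        refine ⟨h4, ?_⟩
        have h6 := hL _ h5
        simpa using h6
  · intro hx
    by_cases h1 : x.unpair.1 = t
    · rw [h1, Function.update_self] at hx
      obtain ⟨L', hL', h2⟩ := hx
      refine ⟨L'.map fun y => if y.unpair.1 = 0 then Nat.pair i y.unpair.2
        else Nat.pair j y.unpair.2, ?_, Or.inr ⟨h1, L', h2, ?_⟩⟩
      · intro y hy
        obtain ⟨w, hw, rfl⟩ := List.mem_map.1 hy
        rcases hL' w hw with ⟨h4, h5⟩ | ⟨h4, h5⟩
        · rw [if_pos h4]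
          simpa using h5
        · rw [if_neg (by omega)]
          simpa using h5
      · intro y hy
        rcases hL' y hy with ⟨h4, h5⟩ | ⟨h4, h5⟩
        · left
          exact ⟨h4, List.mem_map.2 ⟨y, hy, if_pos h4⟩⟩
        · right
          exact ⟨h4, List.mem_map.2 ⟨y, hy, if_neg (by omega)⟩⟩
    · rw [Function.update_of_ne h1] at hx
      refine ⟨[x], fun y hy => ?_, Or.inl ⟨h1, List.mem_singleton.2 rfl⟩⟩
      rw [List.mem_singleton.1 hy]
      exact hx

theorem p_UNI (h : RELib) (h_LOP : T_LOP) (h_OP : T_OP) : T_UNI := by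
  intro cs Q n0 J hcs hQ
  obtain ⟨c, hc⟩ := h_LOP (fun a L => ∃ n, Q a n ∧
    (Code.eval (cs n) (Nat.pair n0 (Encodable.encode L))).Dom) (by
      refine h.ex (α := ℕ × List ℕ) (β := ℕ) (p := fun a n => Q a.1 n ∧
        (Code.eval (cs n) (Nat.pair n0 (Encodable.encode a.2))).Dom) (h.and ?_ ?_)
      · exact h.comp (f := fun a : (ℕ × List ℕ) × ℕ => (a.1.1, a.2))
          (p := fun b : ℕ × ℕ => Q b.1 b.2)
          ((Primrec.fst.comp Primrec.fst).pair Primrec.snd) hQ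
      · refine h.compC (f := fun a : (ℕ × List ℕ) × ℕ =>
          (cs a.2, Nat.pair n0 (Encodable.encode a.1.2)))
          (p := fun b : Code × ℕ => (Code.eval b.1 b.2).Dom) ?_ h.ev
        refine (hcs.comp Computable.snd).pair ?_
        exact Primrec.to_comp (Primrec₂.natPair.comp (Primrec.const n0)
          (Primrec.encode.comp (Primrec.snd.comp Primrec.fst))))
  rw [h_OP]
  refine ⟨c, ?_⟩
  rw [hc]
  ext a
  simp only [Set.mem_ofPred_eq, op]
  constructor
  · rintro ⟨n, h1, L, h2, h3⟩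
    exact ⟨L, h2, n, h1, h3⟩
  · rintro ⟨L, h2, n, h1, h3⟩
    exact ⟨n, h1, L, h2, h3⟩

end Pool.Agent.RIG
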