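import Pool.Agent.RIG.Targets

/-!
# UN3: uniformisation of the relation (R3)
-/

set_option autoImplicit false

namespace Pool.Agent.RIG

open Topology Filter Nat.Partrec

namespace UN3_

theorem act_neg_act {A : Set ℕ} {al : P → X A → X A} (h : GoodAct al) (p : P) (x : X A) :
    al (-p) (al p x) = x := by
  rw [← h.add, neg_add_cancel, h.zero]

theorem act_act_neg {A : Set ℕ} {al : P → X A → X A} (h : GoodAct al) (p : P) (x : X A) :
    al p (al (-p) x) = x := by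
  rw [← h.add, add_neg_cancel, h.zero]

theorem cont_act {A : Set ℕ} {al : P → X A → X A} (h : GoodAct al) :
    Continuous (fun z : X A × P => al z.2 z.1) :=
  h.cont.comp (Continuous.prodMk continuous_snd continuous_fst)

/-- The map `(x, p) ↦ (al p x, p)` is a homeomorphism. -/
def homeo {A : Set ℕ} {al : P → X A → X A} (h : GoodAct al) : (X A × P) ≃ₜ (X A × P) where
  toFun z := (al z.2 z.1, z.2)
  invFun z := (al (-z.2) z.1, z.2)
  left_inv z := by
    rcases z with ⟨x, p⟩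
    simp only [act_neg_act h]
  right_inv z := by
    rcases z with ⟨x, p⟩
    simp only [act_act_neg h]
  continuous_toFun := (cont_act h).prodMk continuous_snd
  continuous_invFun := by
    refine Continuous.prodMk ?_ continuous_snd
    exact h.cont.comp (Continuous.prodMk (continuous_neg.comp continuous_snd) continuous_fst)

theorem open_act {A : Set ℕ} {al : P → X A → X A} (h : GoodAct al) :
    IsOpenMap (fun z : X A × P => al z.2 z.1) := by
  have h1 : (fun z : X A × P => al z.2 z.1) = Prod.fst ∘ (homeo h) := rfl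
  rw [h1]
  exact isOpenMap_fst.comp (homeo h).isOpenMap

/-- `jn` is monotone. -/
theorem jn_mono (hL : LatLib) {A B C D : Set ℕ} (h1 : ERed A C) (h2 : ERed B D) :
    ERed (jn A B) (jn C D) :=
  hL.lub (hL.trans h1 (hL.left C D)) (hL.trans h2 (hL.right C D))

theorem boxX_self {A : Set ℕ} (x : X A) (s : ℕ) : x ∈ boxX x s :=
  fun _ _ => ⟨rfl, rfl, rfl⟩

theorem boxP_self (p : P) (s : ℕ) : p ∈ boxP p s := fun _ _ => rfl

theorem not_meagre_univ : ¬ IsMeagre (Set.univ : Set P) := by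
  intro h
  have h1 := (dense_of_mem_residual h)
  rw [Set.compl_univ] at h1
  exact Set.not_nonempty_empty (h1.nonempty)

end UN3_

open UN3_ in
theorem p_UN3 (hK4 : T_K4) (hK5 : T_K5) (hNAM : T_NAM) (hELZ : T_ELZ) (hELP : T_ELP)
    (hBM : BMLib) (hSp : SpLib) (hAut : AutLib) (hLat : LatLib) (hOP : T_OP)
    (hAct : ActLib) : T_UN3 := by
  intro φ A hA f hf S O hO hOne hEN hS
  have hg3 : GoodAct (act3 : P → X A → X A) := hAct.a3 A
  have hcont := cont_act hg3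
  have hopen := open_act hg3
  obtain ⟨f', hf', hf'm⟩ := hNAM φ A (X A) cX (hBM.bX A) (hELZ A hA).1
  obtain ⟨g', hg', hg'm⟩ := hNAM φ A P cP hBM.bP (hELP A)
  have hSO : ¬ IsMeagre (S ∩ O) := hEN O subset_rfl hO hOne
  have hprod : ¬ IsMeagre ((S ∩ O) ×ˢ (Set.univ : Set P)) := hK4 (X A) P _ _ hSO not_meagre_univ
  obtain ⟨N, hN⟩ : ∃ N : Code × Code × Code → Set (X A × P), ∀ i z, z ∈ N i ↔
      (EEqv (g' i.1 z.2) (φ.F (cP z.2)) ∧
        g' i.1 z.2 = op i.2.2 (jn (f z.1) (f' i.2.1 (act3 z.2 z.1)))) :=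
    ⟨fun i => {z | EEqv (g' i.1 z.2) (φ.F (cP z.2)) ∧
        g' i.1 z.2 = op i.2.2 (jn (f z.1) (f' i.2.1 (act3 z.2 z.1)))}, fun _ _ => Iff.rfl⟩
  obtain ⟨R, hR⟩ : ∃ R : Code × Code × Code → Set (X A × P), ∀ i,
      R i = {z | g' i.1 z.2 = op i.2.2 (jn (f z.1) (f' i.2.1 (act3 z.2 z.1)))} :=
    ⟨_, fun _ => rfl⟩
  have hcover : IsMeagre ((S ∩ O) ×ˢ (Set.univ : Set P) \ ⋃ i, N i) := by
    have h1 : IsMeagre ((fun z : X A × P => z.2) ⁻¹'
        {p | ¬ ∃ e, EEqv (g' e p) (φ.F (cP p))}) :=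
      hg'm.preimage_of_isOpenMap continuous_snd isOpenMap_snd
    have h2 : IsMeagre ((fun z : X A × P => act3 z.2 z.1) ⁻¹'
        {x | ¬ ∃ e, EEqv (f' e x) (φ.F (cX x))}) :=
      hf'm.preimage_of_isOpenMap hcont hopen
    refine (h1.union h2).mono ?_
    rintro ⟨x, p⟩ ⟨⟨⟨hxS, -⟩, -⟩, hz⟩
    by_contra hcon
    rw [Set.mem_union, not_or] at hcon
    obtain ⟨hc1, hc2⟩ := hcon
    simp only [Set.mem_preimage, Set.mem_setOf_eq, not_not] at hc1 hc2
    obtain ⟨e2, he2⟩ := hc1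
    obtain ⟨e3, he3⟩ := hc2
    have hred : ERed (g' e2 p) (jn (f x) (f' e3 (act3 p x))) := by
      refine hLat.trans he2.1 ?_
      refine hLat.trans (φ.monoF _ _ (hAct.diff A p x)) ?_
      refine hLat.trans (hAut.fj φ _ _) ?_
      exact jn_mono hLat (hS x hxS).2 he3.2
    obtain ⟨c, hc⟩ := (hOP _ _).1 hred
    apply hz
    rw [Set.mem_iUnion]
    exact ⟨(e2, e3, c), (hN _ _).2 ⟨he2, hc⟩⟩
  have hNR : ∀ i, N i ⊆ R i := by
    intro i z hz
    rw [hR]
    exact ((hN i z).1 hz).2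
  have hRm : ∀ i, BaireMeasurableSet (R i) := by
    intro i
    rw [hR]
    exact hBM.beq (hBM.bcomp continuous_snd isOpenMap_snd (hg' i.1))
      (hBM.bop i.2.2 (hBM.bjn (hBM.bcomp continuous_fst isOpenMap_fst hf)
        (hBM.bcomp hcont hopen (hf' i.2.1))))
  obtain ⟨i, O', hO'sub, hO'open, hO'ne, hO'EN, hO'm⟩ := hK5 (X A × P) (Code × Code × Code) N R
    ((S ∩ O) ×ˢ Set.univ) (O ×ˢ Set.univ) hprod (hO.prod isOpen_univ)
    (Set.prod_mono Set.inter_subset_right subset_rfl) hcover hNR hRm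
  obtain ⟨⟨x0, p0⟩, hxp⟩ := hO'ne
  obtain ⟨s, hs⟩ := hSp.nhXP A O' x0 p0 hO'open hxp
  have hbox := hs s le_rfl
  refine ⟨x0, p0, s, g' i.1, f' i.2.1, i.2.2, ?_, ?_, ?_⟩
  · intro x hx
    exact (hO'sub (hbox (Set.mk_mem_prod hx (boxP_self p0 s)))).1
  · intro U hUsub hUo hUne hm
    refine hO'EN (boxX x0 s ×ˢ U) ((Set.prod_mono subset_rfl hUsub).trans hbox)
      ((hSp.openX A x0 s).prod hUo) (Set.Nonempty.prod ⟨x0, boxX_self x0 s⟩ hUne) ?_
    refine (hm.preimage_of_isOpenMap (continuous_snd (X := X A)) isOpenMap_snd).mono ?_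
    rintro z ⟨⟨hz1, -⟩, hz2⟩
    exact ⟨((hN i z).1 hz1).1, hz2.2⟩
  · refine hO'm.mono ?_
    rintro z ⟨hz1, hz2, hz3⟩
    refine ⟨hbox ⟨hz1, hz2⟩, fun hz4 => ?_⟩
    rw [hR] at hz4
    exact hz3 hz4

end Pool.Agent.RIG
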