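import Pool.Agent.RIG.Targets

set_option autoImplicit false

namespace Pool.Agent.RIG

open Topology Filter Nat.Partrec

namespace UNF_

variable {A : Set ℕ}

/-- The homeomorphism `(x, p) ↦ (al p x, p)`. -/
def hom (al : P → X A → X A) (hal : GoodAct al) : (X A × P) ≃ₜ (X A × P) where
  toFun z := (al z.2 z.1, z.2)
  invFun z := (al (-z.2) z.1, z.2)
  left_inv z := by
    have : al (-z.2) (al z.2 z.1) = z.1 := by
      rw [← hal.add, neg_add_cancel, hal.zero]
    simp [this]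
  right_inv z := by
    have : al z.2 (al (-z.2) z.1) = z.1 := by
      rw [← hal.add, add_neg_cancel, hal.zero]
    simp [this]
  continuous_toFun := by
    have h := hal.cont
    exact (h.comp (continuous_snd.prodMk continuous_fst)).prodMk continuous_snd
  continuous_invFun := by
    have h := hal.cont
    exact (h.comp (continuous_snd.neg.prodMk continuous_fst)).prodMk continuous_snd

theorem al_cont (al : P → X A → X A) (hal : GoodAct al) :
    Continuous (fun z : X A × P => al z.2 z.1) :=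
  continuous_fst.comp (hom al hal).continuous

theorem al_open (al : P → X A → X A) (hal : GoodAct al) :
    IsOpenMap (fun z : X A × P => al z.2 z.1) :=
  isOpenMap_fst.comp (hom al hal).isOpenMap

theorem neg_open : IsOpenMap (fun z : X A × P => -z.2) :=
  (Homeomorph.neg P).isOpenMap.comp isOpenMap_snd

theorem neg_cont : Continuous (fun z : X A × P => -z.2) :=
  continuous_snd.neg

theorem not_meagre_P : ¬ IsMeagre (Set.univ : Set P) := by
  intro h
  have h1 : (Set.univ : Set P)ᶜ ∈ residual P := h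
  rw [Set.compl_univ] at h1
  have h2 := dense_of_mem_residual h1
  have h3 : (∅ : Set P).Nonempty := h2.nonempty
  exact Set.not_nonempty_empty h3

theorem jmono (hL : LatLib) {A A' B B' : Set ℕ} (h1 : ERed A A') (h2 : ERed B B') :
    ERed (jn A B) (jn A' B') :=
  hL.lub (hL.trans h1 (hL.left _ _)) (hL.trans h2 (hL.right _ _))

end UNF_

open UNF_ in
theorem p_UNF (hK4 : T_K4) (hK5 : T_K5) (hNAM : T_NAM) (hELZ : T_ELZ) (hELP : T_ELP)
    (hBM : BMLib) (hSP : SpLib) (hAut : AutLib) (hL : LatLib) (hOP : T_OP) (hAct : ActLib) :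
    T_UNF := by
  intro φ A hA al hal f hf S O hO hOne hEN hS
  obtain ⟨f', hf'BM, hf'M⟩ := hNAM φ A (X A) cX (hBM.bX A) (hELZ A hA).1
  obtain ⟨g, hgBM, hgM⟩ := hNAM φ A P cP hBM.bP (hELP A)
  have hSO : ¬ IsMeagre (S ∩ O) := hEN O subset_rfl hO hOne
  have hprod : ¬ IsMeagre ((S ∩ O) ×ˢ (Set.univ : Set P)) :=
    hK4 (X A) P (S ∩ O) Set.univ hSO not_meagre_P
  -- the cover
  let R : Code × Code × Code × Code × Code → Set (X A × P) := fun i =>
    {z | f' i.2.1 (al z.2 z.1) = op i.2.2.2.1 (jn (f z.1) (g i.1 z.2)) ∧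
      f z.1 = op i.2.2.2.2 (jn (f' i.2.1 (al z.2 z.1)) (g i.2.2.1 (-z.2)))}
  let N : Code × Code × Code × Code × Code → Set (X A × P) := fun i =>
    {z | z.1 ∈ S ∧ EEqv (g i.1 z.2) (φ.F (cP z.2)) ∧
      EEqv (g i.2.2.1 (-z.2)) (φ.F (cP z.2)) ∧ z ∈ R i}
  have hcover : IsMeagre (((S ∩ O) ×ˢ (Set.univ : Set P)) \ ⋃ i, N i) := by
    have m1 : IsMeagre {z : X A × P | ¬ ∃ e, EEqv (g e z.2) (φ.F (cP z.2))} :=
      hgM.preimage_of_isOpenMap continuous_snd isOpenMap_snd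
    have m2 : IsMeagre {z : X A × P | ¬ ∃ e, EEqv (g e (-z.2)) (φ.F (cP (-z.2)))} :=
      hgM.preimage_of_isOpenMap neg_cont neg_open
    have m3 : IsMeagre {z : X A × P | ¬ ∃ e, EEqv (f' e (al z.2 z.1)) (φ.F (cX (al z.2 z.1)))} :=
      hf'M.preimage_of_isOpenMap (al_cont al hal) (al_open al hal)
    refine ((m1.union m2).union m3).mono ?_
    rintro ⟨x, p⟩ ⟨⟨hx, -⟩, hnot⟩
    by_contra hcon
    simp only [Set.mem_union, Set.mem_ofPred_eq, not_or, not_not] at hcon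
    obtain ⟨⟨⟨e2, h2⟩, e5, h5⟩, e3, h3⟩ := hcon
    apply hnot
    have hxS := hS x hx.1
    have r1 : ERed (f' e3 (al p x)) (jn (f x) (g e2 p)) := by
      refine hL.trans h3.1 ?_
      refine hL.trans (φ.monoF _ _ (hal.red p x)) ?_
      refine hL.trans (hAut.fj φ _ _) ?_
      exact jmono hL hxS.2 h2.2
    have r2 : ERed (f x) (jn (f' e3 (al p x)) (g e5 (-p))) := by
      refine hL.trans hxS.1 ?_
      have e : al (-p) (al p x) = x := by
        rw [← hal.add, neg_add_cancel, hal.zero]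
      have h := hal.red (-p) (al p x)
      rw [e] at h
      refine hL.trans (φ.monoF _ _ h) ?_
      refine hL.trans (hAut.fj φ _ _) ?_
      exact jmono hL h3.2 h5.2
    obtain ⟨c, hc⟩ := (hOP _ _).1 r1
    obtain ⟨c', hc'⟩ := (hOP _ _).1 r2
    refine Set.mem_iUnion.2 ⟨(e2, e3, e5, c, c'), hx.1, h2, ?_, hc, hc'⟩
    have n1 : ERed (cP (-p)) (cP p) := hAct.neg p
    have n2 : ERed (cP p) (cP (-p)) := by
      have := hAct.neg (-p)
      rwa [neg_neg] at this
    exact ⟨hL.trans h5.1 (φ.monoF _ _ n1), hL.trans (φ.monoF _ _ n2) h5.2⟩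
  have hR : ∀ i, BaireMeasurableSet (R i) := by
    rintro ⟨e2, e3, e5, c, c'⟩
    have b1 : BM (fun z : X A × P => f' e3 (al z.2 z.1)) :=
      hBM.bcomp (al_cont al hal) (al_open al hal) (hf'BM e3)
    have b2 : BM (fun z : X A × P => f z.1) :=
      hBM.bcomp continuous_fst isOpenMap_fst hf
    have b3 : BM (fun z : X A × P => g e2 z.2) :=
      hBM.bcomp continuous_snd isOpenMap_snd (hgBM e2)
    have b4 : BM (fun z : X A × P => g e5 (-z.2)) :=
      hBM.bcomp neg_cont neg_open (hgBM e5)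
    have c1 := hBM.beq b1 (hBM.bop c (hBM.bjn b2 b3))
    have c2 := hBM.beq b2 (hBM.bop c' (hBM.bjn b1 b4))
    exact c1.inter c2
  obtain ⟨i, O', hO'sub, hO'open, hO'ne, hEN', hMR⟩ :=
    hK5 (X A × P) (Code × Code × Code × Code × Code) N R ((S ∩ O) ×ˢ (Set.univ : Set P))
      (O ×ˢ (Set.univ : Set P)) hprod (hO.prod isOpen_univ)
      (Set.prod_mono Set.inter_subset_right subset_rfl) hcover (fun i z hz => hz.2.2.2) hR
  obtain ⟨e2, e3, e5, c, c'⟩ := i
  obtain ⟨⟨x0, p0⟩, h0⟩ := hO'ne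
  obtain ⟨s, hs⟩ := hSP.nhXP A O' x0 p0 hO'open h0
  have hs' := hs s le_rfl
  refine ⟨x0, p0, s, g e2, fun p => g e5 (-p), f' e3, c, c', ?_, ?_, ?_⟩
  · intro x hx
    have : (x, p0) ∈ O' := hs' ⟨hx, fun i _ => rfl⟩
    exact (hO'sub this).1
  · intro V hV hVo hVne hm
    have h1 : IsMeagre {z : X A × P | z.2 ∈ {p | EEqv (g e2 p) (φ.F (cP p)) ∧
        EEqv (g e5 (-p)) (φ.F (cP p))} ∩ V} :=
      hm.preimage_of_isOpenMap continuous_snd isOpenMap_snd
    refine hEN' (boxX x0 s ×ˢ V) ?_ ((hSP.openX A x0 s).prod hVo) ?_ (h1.mono ?_)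
    · exact (Set.prod_mono subset_rfl hV).trans hs'
    · exact ⟨(x0, hVne.some), fun i _ => ⟨rfl, rfl, rfl⟩, hVne.some_mem⟩
    · rintro ⟨x, p⟩ ⟨⟨⟨h1, h2, h3, h4⟩, h5⟩, h6, h7⟩
      exact ⟨⟨h2, h3⟩, h7⟩
  · refine hMR.mono ?_
    rintro ⟨x, p⟩ ⟨h1, h2, h3⟩
    exact ⟨hs' ⟨h1, h2⟩, h3⟩

end Pool.Agent.RIG
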