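import Pool.Agent.RIG.Targets

set_option autoImplicit false

namespace Pool.Agent.RIG

open Topology Filter Nat.Partrec

namespace QBML_

theorem constS {T : Type} [TopologicalSpace T] (p : Prop) : BaireMeasurableSet {_z : T | p} := by
  by_cases hp : p
  · have : {_z : T | p} = Set.univ := by ext; simp [hp]
    rw [this]
    exact isOpen_univ.baireMeasurableSet
  · have : {_z : T | p} = ∅ := by ext; simp [hp]
    rw [this]
    exact isOpen_empty.baireMeasurableSet

theorem iffS {T : Type} [TopologicalSpace T] {A B : Set T} (hA : BaireMeasurableSet A)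
    (hB : BaireMeasurableSet B) : BaireMeasurableSet {z | z ∈ A ↔ z ∈ B} := by
  have : {z | z ∈ A ↔ z ∈ B} = (A ∩ B) ∪ (Aᶜ ∩ Bᶜ) := by
    ext z
    by_cases h1 : z ∈ A <;> by_cases h2 : z ∈ B <;> simp [h1, h2]
  rw [this]
  exact (hA.inter hB).union (hA.compl.inter hB.compl)

theorem bop {T : Type} [TopologicalSpace T] {f : T → Set ℕ} (c : Code) (hf : BM f) :
    BM (fun z => op c (f z)) := by
  intro x
  have : {z | x ∈ op c (f z)} = ⋃ L : List ℕ, ((⋂ y : ℕ, ⋂ _ : y ∈ L, {z | y ∈ f z}) ∩
      {_z : T | (Code.eval c (Nat.pair x (Encodable.encode L))).Dom}) := by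
    ext z
    simp [op]
  rw [this]
  refine BaireMeasurableSet.iUnion fun L => BaireMeasurableSet.inter ?_ (constS _)
  refine BaireMeasurableSet.iInter fun y => BaireMeasurableSet.iInter fun _ => hf y

theorem bjn {T : Type} [TopologicalSpace T] {f g : T → Set ℕ} (hf : BM f) (hg : BM g) :
    BM (fun z => jn (f z) (g z)) := by
  intro n
  have : {z | n ∈ jn (f z) (g z)} = ({_z : T | n.unpair.1 = 0} ∩ {z | n.unpair.2 ∈ f z}) ∪
      ({_z : T | n.unpair.1 = 1} ∩ {z | n.unpair.2 ∈ g z}) := by
    ext z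
    simp [jn]
  rw [this]
  exact ((constS _).inter (hf _)).union ((constS _).inter (hg _))

theorem beq {T : Type} [TopologicalSpace T] {f g : T → Set ℕ} (hf : BM f) (hg : BM g) :
    BaireMeasurableSet {z | f z = g z} := by
  have : {z | f z = g z} = ⋂ n : ℕ, {z | z ∈ {z | n ∈ f z} ↔ z ∈ {z | n ∈ g z}} := by
    ext z
    simp [Set.ext_iff]
  rw [this]
  exact BaireMeasurableSet.iInter fun n => iffS (hf n) (hg n)

theorem bcomp {S T : Type} [TopologicalSpace S] [TopologicalSpace T] {f : T → Set ℕ} {m : S → T}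
    (hc : Continuous m) (ho : IsOpenMap m) (hf : BM f) : BM (fun z => f (m z)) := by
  intro n
  exact (hf n).preimage hc ho

theorem bred (h_OP : T_OP) {T : Type} [TopologicalSpace T] {f g : T → Set ℕ} (hf : BM f)
    (hg : BM g) : BaireMeasurableSet {z | ERed (f z) (g z)} := by
  have : {z | ERed (f z) (g z)} = ⋃ c : Code, {z | f z = op c (g z)} := by
    ext z
    simp [h_OP (f z) (g z)]
  rw [this]
  exact BaireMeasurableSet.iUnion fun c => beq hf (bop c hg)

theorem bgraph {E : Type} [TopologicalSpace E] [DiscreteTopology E] (enc : E → ℕ) :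
    BM (fun z : ℕ → E => graph enc z) := by
  intro m
  have : {z : ℕ → E | m ∈ graph enc z} =
      (fun z : ℕ → E => z m.unpair.1) ⁻¹' {e | enc e = m.unpair.2} := by
    ext z
    simp only [graph, Set.mem_setOf_eq, Set.mem_preimage]
    constructor
    · rintro ⟨n, rfl⟩
      simp
    · intro h
      exact ⟨m.unpair.1, by rw [h, Nat.pair_unpair]⟩
  rw [this]
  have : IsOpen ((fun z : ℕ → E => z m.unpair.1) ⁻¹' {e | enc e = m.unpair.2}) :=
    (isOpen_discrete _).preimage (continuous_apply _)
  exact this.baireMeasurableSet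

theorem bP : BM cP := bgraph encZ

theorem bV (A : Set ℕ) : BM (cV : (ℕ → A) → Set ℕ) := bgraph _

theorem bX (A : Set ℕ) : BM (cX : X A → Set ℕ) :=
  bjn (bcomp continuous_fst isOpenMap_fst (bV A))
    (bjn (bcomp (continuous_fst.comp continuous_snd) (isOpenMap_fst.comp isOpenMap_snd) bP)
      (bcomp (continuous_snd.comp continuous_snd) (isOpenMap_snd.comp isOpenMap_snd) bP))

theorem bZ (A : Set ℕ) : BM (cZ : Z A → Set ℕ) := by
  have c1 : Continuous (fun z : Z A => z.2) := continuous_snd
  have o1 : IsOpenMap (fun z : Z A => z.2) := isOpenMap_snd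
  have c2 : Continuous (fun z : Z A => z.2.2) := continuous_snd.comp c1
  have o2 : IsOpenMap (fun z : Z A => z.2.2) := isOpenMap_snd.comp o1
  have c3 : Continuous (fun z : Z A => z.2.2.2) := continuous_snd.comp c2
  have o3 : IsOpenMap (fun z : Z A => z.2.2.2) := isOpenMap_snd.comp o2
  exact bjn (bcomp continuous_fst isOpenMap_fst (bX A))
    (bjn (bcomp (continuous_fst.comp c1) (isOpenMap_fst.comp o1) bP)
      (bjn (bcomp (continuous_fst.comp c2) (isOpenMap_fst.comp o2) bP)
        (bjn (bcomp (continuous_fst.comp c3) (isOpenMap_fst.comp o3) bP)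
          (bcomp (continuous_snd.comp c3) (isOpenMap_snd.comp o3) bP))))

end QBML_

theorem q_BML (h_OP : T_OP) : BMLib where
  bop := QBML_.bop
  bjn := QBML_.bjn
  bconst := fun B n => QBML_.constS _
  beq := QBML_.beq
  bcomp := QBML_.bcomp
  bred := QBML_.bred h_OP
  bP := QBML_.bP
  bV := QBML_.bV
  bX := QBML_.bX
  bZ := QBML_.bZ

end Pool.Agent.RIG
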