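import Pool.Agent.RIG.Targets

set_option autoImplicit false

namespace Pool.Agent.RIG

open Topology Filter Nat.Partrec

namespace QSPL_

theorem open_seq {E : Type} [TopologicalSpace E] [DiscreteTopology E] (p : ℕ → E) (s : ℕ) :
    IsOpen {p' : ℕ → E | ∀ i < s, p' i = p i} := by
  have : {p' : ℕ → E | ∀ i < s, p' i = p i} =
      ⋂ i ∈ Finset.range s, (fun p' : ℕ → E => p' i) ⁻¹' {p i} := by
    ext p'
    simp
  rw [this]
  refine isOpen_biInter_finset fun i _ => ?_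
  exact (isOpen_discrete _).preimage (continuous_apply i)

theorem nhds_seq {E : Type} [TopologicalSpace E] (O : Set (ℕ → E)) (x : ℕ → E) (hO : IsOpen O)
    (hx : x ∈ O) : ∃ s, ∀ t, s ≤ t → ∀ x' : ℕ → E, (∀ i < t, x' i = x i) → x' ∈ O := by
  rw [isOpen_pi_iff] at hO
  obtain ⟨I, u, hu, hsub⟩ := hO x hx
  refine ⟨I.sup id + 1, fun t ht x' h => hsub ?_⟩
  intro i hi
  have : i < I.sup id + 1 := Nat.lt_succ_of_le (Finset.le_sup (f := id) hi)
  rw [h i (by omega)]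
  exact (hu i hi).2

theorem openX (A : Set ℕ) (x : X A) (s : ℕ) : IsOpen (boxX x s) := by
  have : boxX x s = (Prod.fst ⁻¹' {v' : ℕ → A | ∀ i < s, v' i = x.1 i}) ∩
      ((fun z : X A => z.2.1) ⁻¹' {v' : ℕ → ℤ | ∀ i < s, v' i = x.2.1 i}) ∩
      ((fun z : X A => z.2.2) ⁻¹' {v' : ℕ → ℤ | ∀ i < s, v' i = x.2.2 i}) := by
    ext z
    simp only [boxX, Set.mem_setOf_eq, Set.mem_inter_iff, Set.mem_preimage]
    constructor
    · intro h
      exact ⟨⟨fun i hi => (h i hi).1, fun i hi => (h i hi).2.1⟩, fun i hi => (h i hi).2.2⟩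
    · intro h i hi
      exact ⟨h.1.1 i hi, h.1.2 i hi, h.2 i hi⟩
  rw [this]
  refine IsOpen.inter (IsOpen.inter ?_ ?_) ?_
  · exact (open_seq x.1 s).preimage continuous_fst
  · exact (open_seq x.2.1 s).preimage (continuous_fst.comp continuous_snd)
  · exact (open_seq x.2.2 s).preimage (continuous_snd.comp continuous_snd)

theorem nhX (A : Set ℕ) (O : Set (X A)) (x : X A) (hO : IsOpen O) (hx : x ∈ O) :
    ∃ s, ∀ t, s ≤ t → boxX x t ⊆ O := by
  obtain ⟨u, w, hu, hw, hxu, hxw, hsub⟩ := isOpen_prod_iff.1 hO x.1 x.2 hx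
  obtain ⟨u2, w2, hu2, hw2, hxu2, hxw2, hsub2⟩ := isOpen_prod_iff.1 hw x.2.1 x.2.2 hxw
  obtain ⟨s1, h1⟩ := nhds_seq u x.1 hu hxu
  obtain ⟨s2, h2⟩ := nhds_seq u2 x.2.1 hu2 hxu2
  obtain ⟨s3, h3⟩ := nhds_seq w2 x.2.2 hw2 hxw2
  refine ⟨max s1 (max s2 s3), fun t ht z hz => ?_⟩
  have e1 := h1 t (by omega) z.1 (fun i hi => (hz i hi).1)
  have e2 := h2 t (by omega) z.2.1 (fun i hi => (hz i hi).2.1)
  have e3 := h3 t (by omega) z.2.2 (fun i hi => (hz i hi).2.2)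
  exact hsub ⟨e1, hsub2 ⟨e2, e3⟩⟩

theorem nhP (O : Set P) (p : P) (hO : IsOpen O) (hp : p ∈ O) :
    ∃ s, ∀ t, s ≤ t → boxP p t ⊆ O := by
  obtain ⟨s, h⟩ := nhds_seq O p hO hp
  exact ⟨s, fun t ht z hz => h t ht z hz⟩

end QSPL_

theorem q_SPL : SpLib where
  openX := QSPL_.openX
  openP := fun p s => QSPL_.open_seq p s
  nhX := QSPL_.nhX
  nhP := QSPL_.nhP
  nhXP := by
    intro A O x p hO hx
    obtain ⟨u, w, hu, hw, hxu, hxw, hsub⟩ := isOpen_prod_iff.1 hO x p hx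
    obtain ⟨s1, h1⟩ := QSPL_.nhX A u x hu hxu
    obtain ⟨s2, h2⟩ := QSPL_.nhP w p hw hxw
    exact ⟨max s1 s2, fun t ht => (Set.prod_mono (h1 t (by omega)) (h2 t (by omega))).trans hsub⟩

theorem q_HIT : T_HIT := by
  intro A
  have : {v : ℕ → A | ¬ ∀ a : A, ∀ m : ℕ, ∃ k, m ≤ k ∧ v k = a} =
      ⋃ a : A, ⋃ m : ℕ, {v : ℕ → A | ¬ ∃ k, m ≤ k ∧ v k = a} := by
    ext v
    simp
  rw [this]
  refine isMeagre_iUnion fun a => isMeagre_iUnion fun m => ?_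
  have hset : {v : ℕ → A | ¬ ∃ k, m ≤ k ∧ v k = a}ᶜ = {v : ℕ → A | ∃ k, m ≤ k ∧ v k = a} := by
    ext v
    simp
  have ho : IsOpen {v : ℕ → A | ∃ k, m ≤ k ∧ v k = a} := by
    have : {v : ℕ → A | ∃ k, m ≤ k ∧ v k = a} =
        ⋃ k : ℕ, ⋃ _ : m ≤ k, (fun v : ℕ → A => v k) ⁻¹' {a} := by
      ext v
      simp
    rw [this]
    refine isOpen_iUnion fun k => isOpen_iUnion fun _ => ?_
    exact (isOpen_discrete _).preimage (continuous_apply k)
  have hd : Dense {v : ℕ → A | ∃ k, m ≤ k ∧ v k = a} := by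
    rw [dense_iff_inter_open]
    rintro U hU ⟨v, hv⟩
    obtain ⟨s, hs⟩ := QSPL_.nhds_seq U v hU hv
    refine ⟨fun i => if i < max s m then v i else a, ?_, max s m, le_max_right _ _, by simp⟩
    exact hs (max s m) (le_max_left _ _) _ (fun i hi => by simp only [if_pos hi])
  unfold IsMeagre
  rw [hset]
  exact residual_of_dense_open ho hd

end Pool.Agent.RIG
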