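import Pool.Agent.RIG.Targets

set_option autoImplicit false

/-!
# The partial order of the enumeration degrees

Project RIG (MP_431ff4_lc).
-/

namespace Pool.Agent.RIG

/-- The two laws which make `ERed` a preorder. -/
structure IsPre : Prop where
  refl : ∀ A : Set ℕ, ERed A A
  trans : ∀ A B C : Set ℕ, ERed A B → ERed B C → ERed A C

/-- From maps on representatives: an order automorphism of the degrees gives `Aut`.
The quotient is described by its universal property: a partial order `D` with a surjection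
`deg : Set ℕ → D` with `deg A ≤ deg B` iff `A ≤_e B`. -/
theorem exists_aut {D : Type} [PartialOrder D] (deg : Set ℕ → D)
    (hs : Function.Surjective deg) (hle : ∀ A B, deg A ≤ deg B ↔ ERed A B) (φ : D ≃o D) :
    ∃ ψ : Aut, (∀ A, deg (ψ.F A) = φ (deg A)) ∧ ∀ A, deg (ψ.G A) = φ.symm (deg A) := by
  choose r hr using hs
  have key : ∀ A B, deg A = deg B → EEqv A B := fun A B h =>
    ⟨(hle A B).1 h.le, (hle B A).1 h.ge⟩
  refine ⟨⟨fun A => r (φ (deg A)), fun A => r (φ.symm (deg A)), ?_, ?_, ?_, ?_⟩, ?_, ?_⟩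
  · intro A B h
    rw [← hle, hr, hr]
    exact φ.monotone ((hle A B).2 h)
  · intro A B h
    rw [← hle, hr, hr]
    exact φ.symm.monotone ((hle A B).2 h)
  · intro A
    apply key
    rw [hr, hr, OrderIso.apply_symm_apply]
  · intro A
    apply key
    rw [hr, hr, OrderIso.symm_apply_apply]
  · intro A
    exact hr _
  · intro A
    exact hr _

/-- Rigidity of any partial order of this kind, from FIN. -/
theorem rigid_of_fin (hF : T_FIN) {D : Type} [PartialOrder D] (deg : Set ℕ → D)
    (hs : Function.Surjective deg) (hle : ∀ A B, deg A ≤ deg B ↔ ERed A B) (φ : D ≃o D) (a : D) :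
    φ a = a := by
  have dec : ∀ χ : D ≃o D, ∀ b : D, χ.symm b ≤ b := by
    intro χ b
    obtain ⟨ψ, -, hG⟩ := exists_aut deg hs hle χ
    obtain ⟨B, rfl⟩ := hs b
    rw [← hG, hle]
    exact hF ψ B
  refine le_antisymm ?_ ?_
  · have := dec φ.symm a
    simpa using this
  · have := dec φ a
    have h2 := φ.monotone this
    simpa using h2

/-- Enumeration equivalence as a setoid. -/
def eSetoid (h : IsPre) : Setoid (Set ℕ) where
  r := EEqv
  iseqv := ⟨fun A => ⟨h.refl A, h.refl A⟩, fun h1 => ⟨h1.2, h1.1⟩,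
    fun h1 h2 => ⟨h.trans _ _ _ h1.1 h2.1, h.trans _ _ _ h2.2 h1.2⟩⟩

end Pool.Agent.RIG
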