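import Pool.Agent.RIG.P_REL
import Pool.Agent.RIG.P_LOP
import Pool.Agent.RIG.P_OP
import Pool.Agent.RIG.P_CMP
import Pool.Agent.RIG.P_LAT
import Pool.Agent.RIG.P_STEP
import Pool.Agent.RIG.P_DEC
import Pool.Agent.RIG.P_CAT1
import Pool.Agent.RIG.P_CAT2
import Pool.Agent.RIG.Q_BML
import Pool.Agent.RIG.Q_SPL
import Pool.Agent.RIG.P_ELG
import Pool.Agent.RIG.P_ELZ
import Pool.Agent.RIG.P_IND
import Pool.Agent.RIG.P_NAM
import Pool.Agent.RIG.P_RDX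
import Pool.Agent.RIG.P_ACT
import Pool.Agent.RIG.P_UNF
import Pool.Agent.RIG.P_UN3
import Pool.Agent.RIG.P_CHK
import Pool.Agent.RIG.P_INV
import Pool.Agent.RIG.P_EDG
import Pool.Agent.RIG.P_END
import Pool.Agent.RIG.P_FIN
import Pool.Agent.RIG.Quot

set_option autoImplicit false

/-!
# Assembly of project RIG (MP_431ff4_lc)
-/

namespace Pool.Agent.RIG

theorem f_LOP : T_LOP := p_LOP p_REL
theorem f_OP : T_OP := p_OP p_REL f_LOP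
theorem f_CMP : T_CMP := p_CMP p_REL f_LOP
theorem f_LAT : LatLib := p_LAT p_REL f_LOP f_OP f_CMP
theorem f_STEP : T_STEP := p_STEP p_REL f_LOP
theorem f_UNI : T_UNI := p_UNI p_REL f_LOP f_OP
theorem f_DEC : T_DEC := p_DEC p_REL f_LOP f_CMP f_STEP f_UNI f_LAT
theorem f_K2 : T_K2 := p_K2 p_K7
theorem f_K5 : T_K5 := p_K5 p_K1 f_K2
theorem f_K4 : T_K4 := p_K4 p_K3
theorem f_K6 : T_K6 := p_K6 p_K7
theorem f_BML : BMLib := q_BML f_OP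
theorem f_ELG : T_ELG := p_ELG p_REL f_LOP f_OP
theorem f_ELV : T_ELV := p_ELV f_ELG
theorem f_ELP : T_ELP := p_ELP f_ELG p_REL f_LOP f_OP f_LAT
theorem f_ELQ : T_ELQ := p_ELQ p_K3 p_K7 f_BML f_LAT
theorem f_ELZ : T_ELZ := p_ELZ f_ELV f_ELP f_ELQ f_BML
theorem f_IND : T_IND := p_IND f_OP
theorem f_AUL : AutLib := p_AUL f_LAT
theorem f_NAM : T_NAM := p_NAM p_REL f_LOP f_OP f_LAT f_BML f_IND f_AUL
theorem f_RDX : T_RDX := p_RDX p_REL f_LOP f_OP f_LAT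
theorem f_ACT : ActLib := p_ACT f_RDX
theorem f_UNF : T_UNF :=
  p_UNF f_K4 f_K5 f_NAM f_ELZ f_ELP f_BML q_SPL f_AUL f_LAT f_OP f_ACT
theorem f_UN3 : T_UN3 :=
  p_UN3 f_K4 f_K5 f_NAM f_ELZ f_ELP f_BML q_SPL f_AUL f_LAT f_OP f_ACT
theorem f_CHK : T_CHK := p_CHK q_SPL
theorem f_CTM : T_CTM := p_CTM f_OP
theorem f_INV : T_INV := p_INV f_K6 p_K7 f_BML q_SPL f_ACT
theorem f_EDG : T_EDG := p_EDG f_UN3 f_INV f_CTM p_K3 p_K7 f_BML q_SPL f_AUL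
theorem f_END : T_END := p_END f_ACT
theorem f_FIN : T_FIN :=
  p_FIN f_LAT f_BML q_SPL f_AUL f_ACT p_K1 f_K4 q_HIT f_ELZ f_NAM f_UNF f_CHK f_EDG f_END f_DEC

end Pool.Agent.RIG
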