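import Pool.Agent.RIG.Targets

set_option autoImplicit false

namespace Pool.Agent.RIG

open Topology Filter Nat.Partrec

namespace BML_

theorem and_const {T : Type} [TopologicalSpace T] (p : Prop) {S : Set T}
    (hS : BaireMeasurableSet S) : BaireMeasurableSet {z | p ∧ z ∈ S} := by
  by_cases h : p
  · have : {z | p ∧ z ∈ S} = S := by ext z; simp [h]
    rw [this]; exact hS
  · have : {z | p ∧ z ∈ S} = (∅ : Set T) := by ext z; simp [h]
    rw [this]; exact isOpen_empty.baireMeasurableSet

theorem bconst {T : Type} [TopologicalSpace T] (B : Set ℕ) : BM (fun _ : T => B) := by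
  intro n
  by_cases h : n ∈ B
  · have : {z : T | n ∈ (fun _ : T => B) z} = Set.univ := by ext z; simp [h]
    rw [this]; exact isOpen_univ.baireMeasurableSet
  · have : {z : T | n ∈ (fun _ : T => B) z} = ∅ := by ext z; simp [h]
    rw [this]; exact isOpen_empty.baireMeasurableSet

theorem bop {T : Type} [TopologicalSpace T] {f : T → Set ℕ} (c : Code) (hf : BM f) :
    BM (fun z => op c (f z)) := by
  intro n
  have : {z : T | n ∈ op c (f z)} = ⋃ L : List ℕ,
      {z : T | (Code.eval c (Nat.pair n (Encodable.encode L))).Dom ∧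
        z ∈ ⋂ y : ℕ, ⋂ _ : y ∈ L, {z | y ∈ f z}} := by
    ext z
    simp only [op, Set.mem_ofPred_eq, Set.mem_iUnion, Set.mem_iInter]
    constructor
    · rintro ⟨L, h1, h2⟩
      exact ⟨L, h2, h1⟩
    · rintro ⟨L, h2, h1⟩
      exact ⟨L, h1, h2⟩
  rw [this]
  refine BaireMeasurableSet.iUnion fun L => ?_
  refine and_const _ ?_
  exact BaireMeasurableSet.iInter fun y => BaireMeasurableSet.iInter fun _ => hf y

theorem bjn {T : Type} [TopologicalSpace T] {f g : T → Set ℕ} (hf : BM f) (hg : BM g) :
    BM (fun z => jn (f z) (g z)) := by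
  intro n
  have : {z : T | n ∈ jn (f z) (g z)} =
      {z : T | n.unpair.1 = 0 ∧ z ∈ {z | n.unpair.2 ∈ f z}} ∪
      {z : T | n.unpair.1 = 1 ∧ z ∈ {z | n.unpair.2 ∈ g z}} := by
    ext z
    simp only [jn, Set.mem_ofPred_eq, Set.mem_union]
  rw [this]
  exact (and_const _ (hf _)).union (and_const _ (hg _))

theorem beq {T : Type} [TopologicalSpace T] {f g : T → Set ℕ} (hf : BM f) (hg : BM g) :
    BaireMeasurableSet {z | f z = g z} := by
  have : {z : T | f z = g z} = ⋂ n : ℕ,
      (({z | n ∈ f z} ∩ {z | n ∈ g z}) ∪ ({z | n ∈ f z}ᶜ ∩ {z | n ∈ g z}ᶜ)) := by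
    ext z
    simp only [Set.mem_ofPred_eq, Set.mem_iInter, Set.mem_union, Set.mem_inter_iff,
      Set.mem_compl_iff, Set.ext_iff]
    constructor
    · intro h n
      have := h n
      tauto
    · intro h n
      have := h n
      tauto
  rw [this]
  exact BaireMeasurableSet.iInter fun n =>
    ((hf n).inter (hg n)).union ((hf n).compl.inter (hg n).compl)

theorem bcomp {S T : Type} [TopologicalSpace S] [TopologicalSpace T] {f : T → Set ℕ}
    {m : S → T} (hc : Continuous m) (ho : IsOpenMap m) (hf : BM f) :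
    BM (fun z => f (m z)) := by
  intro n
  exact (hf n).preimage hc ho

theorem bgraph {E : Type} [TopologicalSpace E] [DiscreteTopology E] (enc : E → ℕ) :
    BM (graph enc : (ℕ → E) → Set ℕ) := by
  intro n
  have : {z : ℕ → E | n ∈ graph enc z} = ⋃ k : ℕ, {z | n = Nat.pair k (enc (z k))} := by
    ext z
    simp only [graph, Set.mem_ofPred_eq, Set.mem_iUnion]
  rw [this]
  refine BaireMeasurableSet.iUnion fun k => IsOpen.baireMeasurableSet ?_
  have : {z : ℕ → E | n = Nat.pair k (enc (z k))} =
      (fun z : ℕ → E => z k) ⁻¹' {a | n = Nat.pair k (enc a)} := rfl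
  rw [this]
  exact (isOpen_discrete _).preimage (continuous_apply k)

end BML_

/-- BML. -/
theorem p_BML (h_OP : T_OP) : BMLib := by
  have hP : BM cP := BML_.bgraph encZ
  have hV : ∀ A : Set ℕ, BM (cV : (ℕ → A) → Set ℕ) := fun A => BML_.bgraph _
  have hX : ∀ A : Set ℕ, BM (cX : X A → Set ℕ) := fun A =>
    BML_.bjn (BML_.bcomp continuous_fst isOpenMap_fst (hV A))
      (BML_.bjn
        (BML_.bcomp (continuous_fst.comp continuous_snd) (isOpenMap_fst.comp isOpenMap_snd) hP)
        (BML_.bcomp (continuous_snd.comp continuous_snd) (isOpenMap_snd.comp isOpenMap_snd) hP))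
  refine
    { bop := fun c h => BML_.bop c h
      bjn := fun h h' => BML_.bjn h h'
      bconst := fun B => BML_.bconst B
      beq := fun h h' => BML_.beq h h'
      bcomp := fun hc ho hf => BML_.bcomp hc ho hf
      bred := ?_
      bP := hP
      bV := hV
      bX := hX
      bZ := ?_ }
  · intro T _ f g hf hg
    have : {z : T | ERed (f z) (g z)} = ⋃ c : Code, {z | f z = op c (g z)} := by
      ext z
      simp only [Set.mem_ofPred_eq, Set.mem_iUnion]
      exact h_OP _ _
    rw [this]
    exact BaireMeasurableSet.iUnion fun c => BML_.beq hf (BML_.bop c hg)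
  · intro A
    refine BML_.bjn (BML_.bcomp continuous_fst isOpenMap_fst (hX A)) ?_
    refine BML_.bjn
      (BML_.bcomp (continuous_fst.comp continuous_snd) (isOpenMap_fst.comp isOpenMap_snd) hP) ?_
    refine BML_.bjn
      (BML_.bcomp (continuous_fst.comp (continuous_snd.comp continuous_snd))
        (isOpenMap_fst.comp (isOpenMap_snd.comp isOpenMap_snd)) hP) ?_
    exact BML_.bjn
      (BML_.bcomp (continuous_fst.comp (continuous_snd.comp (continuous_snd.comp continuous_snd)))
        (isOpenMap_fst.comp (isOpenMap_snd.comp (isOpenMap_snd.comp isOpenMap_snd))) hP)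
      (BML_.bcomp (continuous_snd.comp (continuous_snd.comp (continuous_snd.comp continuous_snd)))
        (isOpenMap_snd.comp (isOpenMap_snd.comp (isOpenMap_snd.comp isOpenMap_snd))) hP)

end Pool.Agent.RIG
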