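import Pool.Agent.RIG.Targets

set_option autoImplicit false

/-!
# RDX: the explicit reductions
-/

namespace Pool.Agent.RIG

open Topology Filter Nat.Partrec

theorem RDX_redf (hre : RELib) (hlop : T_LOP) (hop : T_OP) {W : Type} [Primcodable W]
    (B Y : Set ℕ) (l : W → List ℕ) (o : W → ℕ) (hl : Primrec l) (ho : Primrec o)
    (h : ∀ x, x ∈ Y ↔ ∃ w, (∀ y ∈ l w, y ∈ B) ∧ x = o w) : ERed Y B := by
  have hR : RE (fun a : ℕ × List ℕ => ∃ w : W, a.2 = l w ∧ a.1 = o w) := by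
    apply hre.ex (p := fun (a : ℕ × List ℕ) (w : W) => a.2 = l w ∧ a.1 = o w)
    apply hre.prim
    apply PrimrecPred.and
    · exact Primrec.eq.comp (Primrec.snd.comp Primrec.fst) (hl.comp Primrec.snd)
    · exact Primrec.eq.comp (Primrec.fst.comp Primrec.fst) (ho.comp Primrec.snd)
  obtain ⟨c, hc⟩ := hlop (fun (x : ℕ) (L : List ℕ) => ∃ w : W, L = l w ∧ x = o w) hR
  rw [hop]
  refine ⟨c, ?_⟩
  rw [hc B]
  ext x
  rw [h x]
  constructor
  · rintro ⟨w, h1, h2⟩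
    exact ⟨l w, h1, w, rfl, h2⟩
  · rintro ⟨L, h1, w, h2, h3⟩
    subst h2
    exact ⟨w, h1, h3⟩

theorem RDX_jn0 (A B : Set ℕ) (n : ℕ) : Nat.pair 0 n ∈ jn A B ↔ n ∈ A := by
  simp [jn]

theorem RDX_jn1 (A B : Set ℕ) (n : ℕ) : Nat.pair 1 n ∈ jn A B ↔ n ∈ B := by
  simp [jn]

theorem RDX_cP (p : P) (n s t : ℕ) :
    Nat.pair n (Nat.pair s t) ∈ cP p ↔ s = (p n).toNat ∧ t = (-(p n)).toNat := by
  unfold cP graph encZ
  constructor
  · rintro ⟨m, hm⟩
    rw [Nat.pair_eq_pair, Nat.pair_eq_pair] at hm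
    obtain ⟨h1, h2, h3⟩ := hm
    subst h1
    exact ⟨h2, h3⟩
  · rintro ⟨h1, h2⟩
    exact ⟨n, by rw [h1, h2]⟩

theorem RDX_cP' (p : P) (n e : ℕ) : Nat.pair n e ∈ cP p ↔ e = encZ (p n) := by
  unfold cP graph
  constructor
  · rintro ⟨m, hm⟩
    rw [Nat.pair_eq_pair] at hm
    obtain ⟨h1, h2⟩ := hm
    subst h1
    exact h2
  · intro h1
    exact ⟨n, by rw [h1]⟩

theorem RDX_cV {A : Set ℕ} (v : ℕ → A) (n e : ℕ) : Nat.pair n e ∈ cV v ↔ e = (v n : ℕ) := by
  unfold cV graph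
  constructor
  · rintro ⟨m, hm⟩
    rw [Nat.pair_eq_pair] at hm
    obtain ⟨h1, h2⟩ := hm
    subst h1
    exact h2
  · intro h1
    exact ⟨n, by rw [h1]⟩

theorem RDX_mem (p : P) (x : ℕ) : x ∈ cP p ↔ ∃ n, x = Nat.pair n (encZ (p n)) := Iff.rfl

theorem RDX_add (hre : RELib) (hlop : T_LOP) (hop : T_OP) (a b : P) :
    ERed (cP (a + b)) (jn (cP a) (cP b)) := by
  apply RDX_redf hre hlop hop (W := ℕ × (ℕ × ℕ) × (ℕ × ℕ)) _ _
    (fun w => [Nat.pair 0 (Nat.pair w.1 (Nat.pair w.2.1.1 w.2.1.2)),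
      Nat.pair 1 (Nat.pair w.1 (Nat.pair w.2.2.1 w.2.2.2))])
    (fun w => Nat.pair w.1 (Nat.pair ((w.2.1.1 + w.2.2.1) - (w.2.1.2 + w.2.2.2))
      ((w.2.1.2 + w.2.2.2) - (w.2.1.1 + w.2.2.1))))
  · have e1 : Primrec (fun w : ℕ × (ℕ × ℕ) × (ℕ × ℕ) => w.1) := Primrec.fst
    have e2 : Primrec (fun w : ℕ × (ℕ × ℕ) × (ℕ × ℕ) => w.2.1.1) :=
      Primrec.fst.comp (Primrec.fst.comp Primrec.snd)
    have e3 : Primrec (fun w : ℕ × (ℕ × ℕ) × (ℕ × ℕ) => w.2.1.2) :=
      Primrec.snd.comp (Primrec.fst.comp Primrec.snd)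
    have e4 : Primrec (fun w : ℕ × (ℕ × ℕ) × (ℕ × ℕ) => w.2.2.1) :=
      Primrec.fst.comp (Primrec.snd.comp Primrec.snd)
    have e5 : Primrec (fun w : ℕ × (ℕ × ℕ) × (ℕ × ℕ) => w.2.2.2) :=
      Primrec.snd.comp (Primrec.snd.comp Primrec.snd)
    exact Primrec.list_cons.comp
      (Primrec₂.natPair.comp (Primrec.const 0)
        (Primrec₂.natPair.comp e1 (Primrec₂.natPair.comp e2 e3)))
      (Primrec.list_cons.comp
        (Primrec₂.natPair.comp (Primrec.const 1)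
          (Primrec₂.natPair.comp e1 (Primrec₂.natPair.comp e4 e5)))
        (Primrec.const []))
  · have e1 : Primrec (fun w : ℕ × (ℕ × ℕ) × (ℕ × ℕ) => w.1) := Primrec.fst
    have e2 : Primrec (fun w : ℕ × (ℕ × ℕ) × (ℕ × ℕ) => w.2.1.1) :=
      Primrec.fst.comp (Primrec.fst.comp Primrec.snd)
    have e3 : Primrec (fun w : ℕ × (ℕ × ℕ) × (ℕ × ℕ) => w.2.1.2) :=
      Primrec.snd.comp (Primrec.fst.comp Primrec.snd)
    have e4 : Primrec (fun w : ℕ × (ℕ × ℕ) × (ℕ × ℕ) => w.2.2.1) :=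
      Primrec.fst.comp (Primrec.snd.comp Primrec.snd)
    have e5 : Primrec (fun w : ℕ × (ℕ × ℕ) × (ℕ × ℕ) => w.2.2.2) :=
      Primrec.snd.comp (Primrec.snd.comp Primrec.snd)
    have s1 := Primrec.nat_add.comp e2 e4
    have s2 := Primrec.nat_add.comp e3 e5
    exact Primrec₂.natPair.comp e1
      (Primrec₂.natPair.comp (Primrec.nat_sub.comp s1 s2) (Primrec.nat_sub.comp s2 s1))
  · intro x
    rw [RDX_mem]
    constructor
    · rintro ⟨n, hn⟩
      refine ⟨(n, ((a n).toNat, (-(a n)).toNat), ((b n).toNat, (-(b n)).toNat)), ?_, ?_⟩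
      · intro y hy
        simp only [List.mem_cons, List.not_mem_nil, or_false] at hy
        rcases hy with hy | hy
        · rw [hy, RDX_jn0, RDX_cP]
          exact ⟨rfl, rfl⟩
        · rw [hy, RDX_jn1, RDX_cP]
          exact ⟨rfl, rfl⟩
      · rw [hn]
        simp only [Pi.add_apply, encZ]
        congr 2 <;> omega
    · rintro ⟨⟨n, ⟨s, t⟩, ⟨s', t'⟩⟩, h1, h2⟩
      have h3 := h1 _ (List.mem_cons_self)
      have h4 := h1 _ (List.mem_cons_of_mem _ List.mem_cons_self)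
      rw [RDX_jn0, RDX_cP] at h3
      rw [RDX_jn1, RDX_cP] at h4
      simp only at h2 h3 h4
      refine ⟨n, ?_⟩
      rw [h2]
      simp only [Pi.add_apply, encZ]
      congr 2 <;> omega

theorem RDX_neg (hre : RELib) (hlop : T_LOP) (hop : T_OP) (p : P) :
    ERed (cP (-p)) (cP p) := by
  apply RDX_redf hre hlop hop (W := ℕ × ℕ × ℕ) _ _
    (fun w => [Nat.pair w.1 (Nat.pair w.2.1 w.2.2)])
    (fun w => Nat.pair w.1 (Nat.pair w.2.2 w.2.1))
  · exact Primrec.list_cons.comp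
      (Primrec₂.natPair.comp Primrec.fst
        (Primrec₂.natPair.comp (Primrec.fst.comp Primrec.snd) (Primrec.snd.comp Primrec.snd)))
      (Primrec.const [])
  · exact Primrec₂.natPair.comp Primrec.fst
      (Primrec₂.natPair.comp (Primrec.snd.comp Primrec.snd) (Primrec.fst.comp Primrec.snd))
  · intro x
    rw [RDX_mem]
    constructor
    · rintro ⟨n, hn⟩
      refine ⟨(n, (p n).toNat, (-(p n)).toNat), ?_, ?_⟩
      · intro y hy
        simp only [List.mem_cons, List.not_mem_nil, or_false] at hy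
        rw [hy, RDX_cP]
        exact ⟨rfl, rfl⟩
      · rw [hn]
        simp only [Pi.neg_apply, encZ, neg_neg]
    · rintro ⟨⟨n, s, t⟩, h1, h2⟩
      have h3 := h1 _ (List.mem_cons_self)
      rw [RDX_cP] at h3
      simp only at h2 h3
      refine ⟨n, ?_⟩
      rw [h2]
      simp only [Pi.neg_apply, encZ, neg_neg]
      rw [h3.1, h3.2]

theorem RDX_gam {A : Set ℕ} (v : ℕ → A) (j : ℤ) :
    gam v j = if (-j).toNat = 0 ∧ (v j.toNat.unpair.1 : ℕ) = j.toNat.unpair.2 then 0 else 1 := by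
  unfold gam
  have : (0 ≤ j) ↔ (-j).toNat = 0 := by omega
  simp only [this]

theorem RDX_mulgam (hre : RELib) (hlop : T_LOP) (hop : T_OP) {A : Set ℕ} (v : ℕ → A) (p r : P) :
    ERed (cP (fun i => p i * gam v (r i))) (jn (cP p) (jn (cV v) (cP r))) := by
  apply RDX_redf hre hlop hop (W := (ℕ × ℕ) × (ℕ × ℕ) × ℕ) _ _
    (fun w => [Nat.pair 0 (Nat.pair w.1.1 w.1.2),
      Nat.pair 1 (Nat.pair 0 (Nat.pair w.2.1.1.unpair.1 w.2.2)),
      Nat.pair 1 (Nat.pair 1 (Nat.pair w.1.1 (Nat.pair w.2.1.1 w.2.1.2)))])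
    (fun w => if w.2.1.2 = 0 ∧ w.2.2 = w.2.1.1.unpair.2 then Nat.pair w.1.1 (Nat.pair 0 0)
      else Nat.pair w.1.1 w.1.2)
  · have e1 : Primrec (fun w : (ℕ × ℕ) × (ℕ × ℕ) × ℕ => w.1.1) :=
      Primrec.fst.comp Primrec.fst
    have e2 : Primrec (fun w : (ℕ × ℕ) × (ℕ × ℕ) × ℕ => w.1.2) :=
      Primrec.snd.comp Primrec.fst
    have e3 : Primrec (fun w : (ℕ × ℕ) × (ℕ × ℕ) × ℕ => w.2.1.1) :=
      Primrec.fst.comp (Primrec.fst.comp Primrec.snd)
    have e4 : Primrec (fun w : (ℕ × ℕ) × (ℕ × ℕ) × ℕ => w.2.1.2) :=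
      Primrec.snd.comp (Primrec.fst.comp Primrec.snd)
    have e5 : Primrec (fun w : (ℕ × ℕ) × (ℕ × ℕ) × ℕ => w.2.2) :=
      Primrec.snd.comp Primrec.snd
    have e6 : Primrec (fun w : (ℕ × ℕ) × (ℕ × ℕ) × ℕ => w.2.1.1.unpair.1) :=
      Primrec.fst.comp (Primrec.unpair.comp e3)
    exact Primrec.list_cons.comp
      (Primrec₂.natPair.comp (Primrec.const 0) (Primrec₂.natPair.comp e1 e2))
      (Primrec.list_cons.comp
        (Primrec₂.natPair.comp (Primrec.const 1)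
          (Primrec₂.natPair.comp (Primrec.const 0) (Primrec₂.natPair.comp e6 e5)))
        (Primrec.list_cons.comp
          (Primrec₂.natPair.comp (Primrec.const 1)
            (Primrec₂.natPair.comp (Primrec.const 1)
              (Primrec₂.natPair.comp e1 (Primrec₂.natPair.comp e3 e4))))
          (Primrec.const [])))
  · have e1 : Primrec (fun w : (ℕ × ℕ) × (ℕ × ℕ) × ℕ => w.1.1) :=
      Primrec.fst.comp Primrec.fst
    have e2 : Primrec (fun w : (ℕ × ℕ) × (ℕ × ℕ) × ℕ => w.1.2) :=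
      Primrec.snd.comp Primrec.fst
    have e3 : Primrec (fun w : (ℕ × ℕ) × (ℕ × ℕ) × ℕ => w.2.1.1) :=
      Primrec.fst.comp (Primrec.fst.comp Primrec.snd)
    have e4 : Primrec (fun w : (ℕ × ℕ) × (ℕ × ℕ) × ℕ => w.2.1.2) :=
      Primrec.snd.comp (Primrec.fst.comp Primrec.snd)
    have e5 : Primrec (fun w : (ℕ × ℕ) × (ℕ × ℕ) × ℕ => w.2.2) :=
      Primrec.snd.comp Primrec.snd
    have e6 : Primrec (fun w : (ℕ × ℕ) × (ℕ × ℕ) × ℕ => w.2.1.1.unpair.2) :=
      Primrec.snd.comp (Primrec.unpair.comp e3)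
    apply Primrec.ite
    · apply PrimrecPred.and
      · exact Primrec.eq.comp e4 (Primrec.const 0)
      · exact Primrec.eq.comp e5 e6
    · exact Primrec₂.natPair.comp e1 (Primrec.const _)
    · exact Primrec₂.natPair.comp e1 e2
  · intro x
    rw [RDX_mem]
    constructor
    · rintro ⟨n, hn⟩
      refine ⟨((n, encZ (p n)), ((r n).toNat, (-(r n)).toNat),
        (v (r n).toNat.unpair.1 : ℕ)), ?_, ?_⟩
      · intro y hy
        simp only [List.mem_cons, List.not_mem_nil, or_false] at hy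
        rcases hy with hy | hy | hy
        · rw [hy, RDX_jn0, RDX_cP']
        · rw [hy, RDX_jn1, RDX_jn0, RDX_cV]
        · rw [hy, RDX_jn1, RDX_jn1, RDX_cP]
          exact ⟨rfl, rfl⟩
      · rw [hn]
        simp only [RDX_gam]
        split_ifs with h
        · simp [encZ]
        · simp
    · rintro ⟨⟨⟨n, e⟩, ⟨s, t⟩, b⟩, h1, h2⟩
      have h3 := h1 _ (List.mem_cons_self)
      have h4 := h1 _ (List.mem_cons_of_mem _ List.mem_cons_self)
      have h5 := h1 _ (List.mem_cons_of_mem _ (List.mem_cons_of_mem _ List.mem_cons_self))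
      rw [RDX_jn0, RDX_cP'] at h3
      rw [RDX_jn1, RDX_jn0, RDX_cV] at h4
      rw [RDX_jn1, RDX_jn1, RDX_cP] at h5
      simp only at h2 h3 h4 h5
      refine ⟨n, ?_⟩
      rw [h2]
      simp only [RDX_gam]
      rw [← h5.1, ← h5.2, ← h4]
      split_ifs with h
      · simp [encZ]
      · rw [h3]
        simp

theorem p_RDX (hre : RELib) (hlop : T_LOP) (hop : T_OP) (hlat : LatLib) : T_RDX := by
  have tr : ∀ {A B C : Set ℕ}, ERed A B → ERed B C → ERed A C := hlat.trans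
  have hV : ∀ (A : Set ℕ) (x : X A) (C : Set ℕ), ERed (cV x.1) (jn (cX x) C) :=
    fun A x C => tr (hlat.left _ _) (hlat.left _ _)
  have hY : ∀ (A : Set ℕ) (x : X A) (C : Set ℕ), ERed (cP x.2.1) (jn (cX x) C) :=
    fun A x C => tr (hlat.left _ _) (tr (hlat.right _ _) (hlat.left _ _))
  have hR : ∀ (A : Set ℕ) (x : X A) (C : Set ℕ), ERed (cP x.2.2) (jn (cX x) C) :=
    fun A x C => tr (hlat.right _ _) (tr (hlat.right _ _) (hlat.left _ _))
  have hadd : ∀ (a b : P) (C : Set ℕ), ERed (cP a) C → ERed (cP b) C → ERed (cP (a + b)) C :=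
    fun a b C h1 h2 => tr (RDX_add hre hlop hop a b) (hlat.lub h1 h2)
  refine ⟨?_, ?_, ?_, ?_, ?_⟩
  · intro A p x
    refine hlat.lub (hV A x _) (hlat.lub (hY A x _) ?_)
    exact hadd _ _ _ (hR A x _) (hlat.right _ _)
  · intro A p x
    refine hlat.lub (hV A x _) (hlat.lub ?_ (hR A x _))
    refine hadd _ _ _ (hY A x _) ?_
    refine tr (RDX_mulgam hre hlop hop x.1 p x.2.2) ?_
    exact hlat.lub (hlat.right _ _) (hlat.lub (hV A x _) (hR A x _))
  · intro A p x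
    refine hlat.lub (hV A x _) (hlat.lub ?_ (hR A x _))
    exact hadd _ _ _ (hY A x _) (hlat.right _ _)
  · intro p
    exact RDX_neg hre hlop hop p
  · intro A p x
    have e : p = (x.2.1 + p) + -x.2.1 := by
      funext i
      simp
    have h : ERed (cP ((x.2.1 + p) + -x.2.1)) (jn (cX x) (cX (act3 p x))) := by
      refine hadd _ _ _ ?_ ?_
      · exact tr (hlat.left _ _) (tr (hlat.right _ _) (hlat.right _ _))
      · exact tr (RDX_neg hre hlop hop _) (hY A x _)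
    rw [← e] at h
    exact h

end Pool.Agent.RIG
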