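import Pool.Agent.RIG.Targets

set_option autoImplicit false

/-!
# RIG, target REL: closure properties of the semidecidable predicates
-/

namespace Pool.Agent.RIG

open Topology Filter Nat.Partrec

namespace REL_

/-- A stage function from a primitive recursive relation. -/
theorem re_of_rel {α : Type} [Primcodable α] {p : α → Prop} {R : α → ℕ → Prop}
    (hR : PrimrecRel R) (h : ∀ a, p a ↔ ∃ k, R a k) : RE p := by
  obtain ⟨hd, hR⟩ := hR
  refine ⟨fun a k => @decide (R a k) (hd (a, k)), ?_, fun a => ?_⟩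
  · exact hR
  · rw [h a]
    simp

theorem rel_of_bool {α : Type} [Primcodable α] {f : α → ℕ → Bool} (hf : Primrec₂ f) :
    PrimrecRel fun a k => f a k = true := by
  refine ⟨fun x => inferInstance, ?_⟩
  exact Primrec.of_eq hf fun x => by simp

theorem of_code {α : Type} [Primcodable α] {p : α → Prop} (c : α → Code) (n : α → ℕ)
    (hc : Primrec c) (hn : Primrec n) (h : ∀ a, p a ↔ (Code.eval (c a) (n a)).Dom) : RE p := by
  refine ⟨fun a k => (Code.evaln k (c a) (n a)).isSome, ?_, fun a => ?_⟩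
  · exact Primrec.option_isSome.comp (Code.primrec_evaln.comp
      ((Primrec.snd.pair (hc.comp Primrec.fst)).pair (hn.comp Primrec.fst)))
  · rw [h a, Part.dom_iff_mem]
    constructor
    · rintro ⟨y, hy⟩
      obtain ⟨k, hk⟩ := Code.evaln_complete.1 hy
      exact ⟨k, Option.isSome_iff_exists.2 ⟨y, hk⟩⟩
    · rintro ⟨k, hk⟩
      obtain ⟨y, hy⟩ := Option.isSome_iff_exists.1 hk
      exact ⟨y, Code.evaln_complete.2 ⟨k, hy⟩⟩

theorem of_repred {α : Type} [Primcodable α] {p : α → Prop} (h : REPred p) : RE p := by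
  obtain ⟨c, hc⟩ := Code.exists_code.1 h
  refine of_code (fun _ => c) (fun a => Encodable.encode a) (Primrec.const c) Primrec.encode ?_
  intro a
  rw [hc]
  simp [Part.assert]

theorem to_repred {α : Type} [Primcodable α] {p : α → Prop} (h : RE p) : REPred p := by
  obtain ⟨f, hf, hp⟩ := h
  have h1 : Partrec fun a => Nat.rfind fun k => (Part.some (f a k) : Part Bool) :=
    Partrec.rfind (Primrec₂.to_comp hf).partrec₂
  refine (Partrec.dom_re h1).of_eq fun a => ?_
  rw [hp a]
  constructor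
  · intro hd
    obtain ⟨k, hk⟩ := Part.dom_iff_mem.1 hd
    have := (Nat.mem_rfind.1 hk).1
    exact ⟨k, (Part.mem_some_iff.1 this).symm⟩
  · rintro ⟨k, hk⟩
    refine Nat.rfind_dom.2 ⟨k, ?_, fun _ => trivial⟩
    rw [hk]
    exact Part.mem_some _

theorem re_ex {α β : Type} [Primcodable α] [Primcodable β] {p : α → β → Prop}
    (h : RE (fun a : α × β => p a.1 a.2)) : RE (fun a => ∃ b, p a b) := by
  obtain ⟨f, hf, hp⟩ := h
  refine ⟨fun a k => Option.casesOn (motive := fun _ => Bool)
    (Encodable.decode (α := β) k.unpair.1) false fun b => f (a, b) k.unpair.2, ?_, fun a => ?_⟩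
  · refine Primrec.option_casesOn ?_ (Primrec.const false) ?_
    · exact Primrec.decode.comp (Primrec.fst.comp (Primrec.unpair.comp Primrec.snd))
    · exact hf.comp ((Primrec.fst.comp Primrec.fst).pair Primrec.snd)
        (Primrec.snd.comp (Primrec.unpair.comp (Primrec.snd.comp Primrec.fst)))
  · constructor
    · rintro ⟨b, hb⟩
      obtain ⟨k, hk⟩ := (hp (a, b)).1 hb
      refine ⟨Nat.pair (Encodable.encode b) k, ?_⟩
      simpa using hk
    · rintro ⟨k, hk⟩
      cases hd : Encodable.decode (α := β) k.unpair.1 with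
      | none => simp [hd] at hk
      | some b =>
        refine ⟨b, (hp (a, b)).2 ⟨k.unpair.2, ?_⟩⟩
        simpa [hd] using hk

theorem bound {β : Type} (L : List β) (F : β → ℕ → Prop) (h : ∀ b ∈ L, ∃ k, F b k) :
    ∃ K, ∀ b ∈ L, ∃ k < K, F b k := by
  induction L with
  | nil => exact ⟨0, fun b hb => by simp at hb⟩
  | cons c L ih =>
    obtain ⟨K, hK⟩ := ih fun b hb => h b (List.mem_cons_of_mem c hb)
    obtain ⟨k, hk⟩ := h c List.mem_cons_self
    refine ⟨max K (k + 1), fun b hb => ?_⟩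
    rcases List.mem_cons.1 hb with rfl | hb
    · exact ⟨k, by omega, hk⟩
    · obtain ⟨k', hk', hF⟩ := hK b hb
      exact ⟨k', by omega, hF⟩

theorem re_allL {α β : Type} [Primcodable α] [Primcodable β] {l : α → List β}
    {p : α → β → Prop} (hl : Primrec l) (h : RE (fun a : α × β => p a.1 a.2)) :
    RE (fun a => ∀ b ∈ l a, p a b) := by
  obtain ⟨f, hf, hp⟩ := h
  have h1 : PrimrecRel fun (k : ℕ) (x : α × β) => f x k = true :=
    (rel_of_bool hf).comp Primrec.snd Primrec.fst
  have h2 : PrimrecRel fun (K : ℕ) (x : α × β) => ∃ k < K, f x k = true := by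
    obtain ⟨hd, h2⟩ := h1.exists_mem_list.comp (Primrec.list_range.comp Primrec.fst) Primrec.snd
    exact PrimrecPred.of_eq ⟨hd, h2⟩ fun x => by simp
  have h3 : PrimrecRel fun (b : β) (y : α × ℕ) => ∃ k < y.2, f (y.1, b) k = true :=
    h2.comp (Primrec.snd.comp Primrec.snd) ((Primrec.fst.comp Primrec.snd).pair Primrec.fst)
  have h4 : PrimrecRel fun (L : List β) (y : α × ℕ) => ∀ b ∈ L, ∃ k < y.2,
      f (y.1, b) k = true := h3.forall_mem_list
  have h5 : PrimrecRel fun (a : α) (K : ℕ) => ∀ b ∈ l a, ∃ k < K, f (a, b) k = true :=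
    h4.comp (hl.comp Primrec.fst) (Primrec.fst.pair Primrec.snd)
  refine re_of_rel h5 fun a => ?_
  constructor
  · intro hb
    exact bound (l a) (fun b k => f (a, b) k = true) fun b hb' => (hp (a, b)).1 (hb b hb')
  · rintro ⟨K, hK⟩ b hb
    obtain ⟨k, -, hk⟩ := hK b hb
    exact (hp (a, b)).2 ⟨k, hk⟩

theorem re_and {α : Type} [Primcodable α] {p q : α → Prop} (hp : RE p) (hq : RE q) :
    RE (fun a => p a ∧ q a) := by
  obtain ⟨f, hf, hp⟩ := hp
  obtain ⟨g, hg, hq⟩ := hq
  refine ⟨fun a k => f a k.unpair.1 && g a k.unpair.2, ?_, fun a => ?_⟩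
  · exact Primrec.and.comp
      (hf.comp Primrec.fst (Primrec.fst.comp (Primrec.unpair.comp Primrec.snd)))
      (hg.comp Primrec.fst (Primrec.snd.comp (Primrec.unpair.comp Primrec.snd)))
  · change (p a ∧ q a) ↔ _
    rw [hp a, hq a]
    constructor
    · rintro ⟨⟨k, hk⟩, m, hm⟩
      exact ⟨Nat.pair k m, by simp [hk, hm]⟩
    · rintro ⟨k, hk⟩
      rw [Bool.and_eq_true] at hk
      exact ⟨⟨_, hk.1⟩, _, hk.2⟩

theorem re_or {α : Type} [Primcodable α] {p q : α → Prop} (hp : RE p) (hq : RE q) :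
    RE (fun a => p a ∨ q a) := by
  obtain ⟨f, hf, hp⟩ := hp
  obtain ⟨g, hg, hq⟩ := hq
  refine ⟨fun a k => f a k || g a k, ?_, fun a => ?_⟩
  · exact Primrec.or.comp (hf.comp Primrec.fst Primrec.snd) (hg.comp Primrec.fst Primrec.snd)
  · change (p a ∨ q a) ↔ _
    rw [hp a, hq a]
    constructor
    · rintro (⟨k, hk⟩ | ⟨k, hk⟩)
      · exact ⟨k, by simp [hk]⟩
      · exact ⟨k, by simp [hk]⟩
    · rintro ⟨k, hk⟩
      rw [Bool.or_eq_true] at hk
      rcases hk with hk | hk
      · exact Or.inl ⟨k, hk⟩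
      · exact Or.inr ⟨k, hk⟩

theorem re_comp {α β : Type} [Primcodable α] [Primcodable β] {f : α → β} {p : β → Prop}
    (hf : Primrec f) (hp : RE p) : RE (fun a => p (f a)) := by
  obtain ⟨g, hg, hp⟩ := hp
  exact ⟨fun a k => g (f a) k, hg.comp (hf.comp Primrec.fst) Primrec.snd, fun a => hp (f a)⟩

theorem re_compC {α β : Type} [Primcodable α] [Primcodable β] {f : α → β} {p : β → Prop}
    (hf : Computable f) (hp : RE p) : RE (fun a => p (f a)) := by
  have h := to_repred hp
  have h1 : REPred fun a => p (f a) := by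
    unfold REPred at h ⊢
    exact Partrec.comp h hf
  exact of_repred h1

end REL_

open REL_ in
theorem p_REL : RELib where
  ofREPred := of_repred
  toREPred := to_repred
  prim := by
    intro α _ p hp
    refine re_of_rel (R := fun a _ => p a) ?_ fun a => ?_
    · exact hp.comp Primrec.fst
    · simp
  and := re_and
  or := re_or
  ex := re_ex
  allL := re_allL
  comp := re_comp
  compC := re_compC
  ev := of_code (fun a : Code × ℕ => a.1) (fun a => a.2) Primrec.fst Primrec.snd fun _ => Iff.rfl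

end Pool.Agent.RIG
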