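import Pool.Agent.RIG.Targets

set_option autoImplicit false

/-!
# Rigidity of the enumeration degrees: cylinders and hitting every value

Project RIG (MP_431ff4_lc). Proofs of `SpLib` and `T_HIT`.
-/

namespace Pool.Agent.RIG

open Topology Filter Nat.Partrec

namespace SPL_

/-- cylinder in a sequence space -/
def cyl {E : Type} (z : ℕ → E) (s : ℕ) : Set (ℕ → E) := {z' | ∀ i < s, z' i = z i}

lemma isOpen_coord {E : Type} [TopologicalSpace E] [DiscreteTopology E] (i : ℕ) (e : E) :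
    IsOpen {z : ℕ → E | z i = e} := by
  have hc : Continuous (fun z : ℕ → E => z i) := continuous_apply i
  exact (isOpen_discrete ({e} : Set E)).preimage hc

lemma isOpen_cyl {E : Type} [TopologicalSpace E] [DiscreteTopology E] (z : ℕ → E) (s : ℕ) :
    IsOpen (cyl z s) := by
  have h : cyl z s = ⋂ i ∈ Finset.range s, {z' : ℕ → E | z' i = z i} := by
    ext z'
    simp [cyl]
  rw [h]
  exact isOpen_biInter_finset fun i _ => isOpen_coord i (z i)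

lemma cyl_anti {E : Type} (z : ℕ → E) {s t : ℕ} (h : s ≤ t) : cyl z t ⊆ cyl z s :=
  fun _ hz i hi => hz i (lt_of_lt_of_le hi h)

lemma cyl_nhds {E : Type} [TopologicalSpace E] {O : Set (ℕ → E)} (hO : IsOpen O) {z : ℕ → E}
    (hz : z ∈ O) : ∃ s, cyl z s ⊆ O := by
  obtain ⟨I, u, hu, hsub⟩ := isOpen_pi_iff.1 hO z hz
  refine ⟨I.sup id + 1, fun z' hz' => hsub ?_⟩
  intro i hi
  have hle : i < I.sup id + 1 := Nat.lt_succ_of_le (Finset.le_sup (f := id) hi)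
  rw [hz' i hle]
  exact (hu i hi).2

lemma boxX_eq {A : Set ℕ} (x : X A) (s : ℕ) :
    boxX x s = cyl x.1 s ×ˢ (cyl x.2.1 s ×ˢ cyl x.2.2 s) := by
  ext x'
  constructor
  · intro h
    exact ⟨fun i hi => (h i hi).1, fun i hi => (h i hi).2.1, fun i hi => (h i hi).2.2⟩
  · intro h i hi
    exact ⟨h.1 i hi, h.2.1 i hi, h.2.2 i hi⟩

lemma boxX_anti {A : Set ℕ} (x : X A) {s t : ℕ} (h : s ≤ t) : boxX x t ⊆ boxX x s :=
  fun _ hz i hi => hz i (lt_of_lt_of_le hi h)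

lemma boxP_anti (p : P) {s t : ℕ} (h : s ≤ t) : boxP p t ⊆ boxP p s :=
  fun _ hz i hi => hz i (lt_of_lt_of_le hi h)

lemma openX (A : Set ℕ) (x : X A) (s : ℕ) : IsOpen (boxX x s) := by
  rw [boxX_eq]
  exact (isOpen_cyl _ s).prod ((isOpen_cyl _ s).prod (isOpen_cyl _ s))

lemma openP (p : P) (s : ℕ) : IsOpen (boxP p s) := isOpen_cyl p s

lemma nhX' {A : Set ℕ} {O : Set (X A)} {x : X A} (hO : IsOpen O) (hx : x ∈ O) :
    ∃ s, boxX x s ⊆ O := by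
  obtain ⟨x1, x2, x3⟩ := x
  obtain ⟨U, V, hU, hV, h1, h2, hUV⟩ := isOpen_prod_iff.1 hO x1 (x2, x3) hx
  obtain ⟨V1, V2, hV1, hV2, h3, h4, hV12⟩ := isOpen_prod_iff.1 hV x2 x3 h2
  obtain ⟨s1, hs1⟩ := cyl_nhds hU h1
  obtain ⟨s2, hs2⟩ := cyl_nhds hV1 h3
  obtain ⟨s3, hs3⟩ := cyl_nhds hV2 h4
  refine ⟨max s1 (max s2 s3), fun z hz => hUV ⟨?_, hV12 ⟨?_, ?_⟩⟩⟩
  · exact hs1 fun i hi => (hz i (lt_of_lt_of_le hi (le_max_left _ _))).1
  · exact hs2 fun i hi => (hz i (lt_of_lt_of_le hi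
      ((le_max_left _ _).trans (le_max_right _ _)))).2.1
  · exact hs3 fun i hi => (hz i (lt_of_lt_of_le hi
      ((le_max_right _ _).trans (le_max_right _ _)))).2.2

lemma nhP' {O : Set P} {p : P} (hO : IsOpen O) (hp : p ∈ O) : ∃ s, boxP p s ⊆ O :=
  cyl_nhds hO hp

lemma nhX (A : Set ℕ) (O : Set (X A)) (x : X A) (hO : IsOpen O) (hx : x ∈ O) :
    ∃ s, ∀ t, s ≤ t → boxX x t ⊆ O := by
  obtain ⟨s, hs⟩ := nhX' hO hx
  exact ⟨s, fun t ht => (boxX_anti x ht).trans hs⟩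

lemma nhP (O : Set P) (p : P) (hO : IsOpen O) (hp : p ∈ O) :
    ∃ s, ∀ t, s ≤ t → boxP p t ⊆ O := by
  obtain ⟨s, hs⟩ := nhP' hO hp
  exact ⟨s, fun t ht => (boxP_anti p ht).trans hs⟩

lemma nhXP (A : Set ℕ) (O : Set (X A × P)) (x : X A) (p : P) (hO : IsOpen O)
    (hx : (x, p) ∈ O) : ∃ s, ∀ t, s ≤ t → boxX x t ×ˢ boxP p t ⊆ O := by
  obtain ⟨U, V, hU, hV, h1, h2, hUV⟩ := isOpen_prod_iff.1 hO x p hx
  obtain ⟨s1, hs1⟩ := nhX A U x hU h1
  obtain ⟨s2, hs2⟩ := nhP V p hV h2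
  refine ⟨max s1 s2, fun t ht => ?_⟩
  refine (Set.prod_mono ?_ ?_).trans hUV
  · exact hs1 t ((le_max_left _ _).trans ht)
  · exact hs2 t ((le_max_right _ _).trans ht)

lemma residual_hit {A : Set ℕ} (a : A) (m : ℕ) :
    {v : ℕ → A | ∃ k, m ≤ k ∧ v k = a} ∈ residual (ℕ → A) := by
  refine residual_of_dense_open ?_ ?_
  · have h : {v : ℕ → A | ∃ k, m ≤ k ∧ v k = a} =
        ⋃ k, ⋃ (_ : m ≤ k), {v : ℕ → A | v k = a} := by
      ext v
      simp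
    rw [h]
    exact isOpen_iUnion fun k => isOpen_iUnion fun _ => isOpen_coord k a
  · rw [dense_iff_inter_open]
    rintro U hU ⟨v, hv⟩
    obtain ⟨s, hs⟩ := cyl_nhds hU hv
    refine ⟨fun i => if i < max s m then v i else a, hs ?_, max s m, le_max_right _ _, ?_⟩
    · intro i hi
      have : i < max s m := lt_of_lt_of_le hi (le_max_left _ _)
      simp [this]
    · simp

end SPL_

/-- SPL -/
theorem p_SPL : SpLib where
  openX := SPL_.openX
  openP := SPL_.openP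
  nhX := SPL_.nhX
  nhP := SPL_.nhP
  nhXP := SPL_.nhXP

/-- HIT -/
theorem p_HIT : T_HIT := by
  intro A
  unfold IsMeagre
  have h : {v : ℕ → A | ¬ ∀ a : A, ∀ m : ℕ, ∃ k, m ≤ k ∧ v k = a}ᶜ =
      ⋂ a : A, ⋂ m : ℕ, {v : ℕ → A | ∃ k, m ≤ k ∧ v k = a} := by
    ext v
    simp
  rw [h]
  exact countable_iInter_mem.2 fun a => countable_iInter_mem.2 fun m => SPL_.residual_hit a m

end Pool.Agent.RIG
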