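import Pool.Agent.RIG.Defs

set_option autoImplicit false

/-!
# Rigidity of the enumeration degrees: targets

Project RIG (MP_431ff4_lc). Paper proof: ideas row 2381 (helper70).
-/

namespace Pool.Agent.RIG

open Topology Filter Nat.Partrec

/-! ## Part A: computability -/

/-- REL. Closure properties of `RE`. All stage functions are primitive recursive.
`ofREPred`: `p a` iff `Code.eval c (encode a)` is defined iff some `Code.evaln k c (encode a)` is
some value (`Code.evaln_complete`, `Code.primrec_evaln`). `toREPred`: unbounded search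
(`Partrec.rfind` or `REPred` from `Partrec.dom_re`). `and`: stage `⟨k1,k2⟩`. `ex`: stage
`⟨code of b, k⟩`. `allL`: stage `K`: for all `b` in the list there is `k < K` with
`f (a,b) k = true` (`PrimrecRel.forall_mem_list`, `exists_lt`). `compC`: via `REPred`. -/
structure RELib : Prop where
  ofREPred : ∀ {α : Type} [Primcodable α] {p : α → Prop}, REPred p → RE p
  toREPred : ∀ {α : Type} [Primcodable α] {p : α → Prop}, RE p → REPred p
  prim : ∀ {α : Type} [Primcodable α] {p : α → Prop}, PrimrecPred p → RE p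
  and : ∀ {α : Type} [Primcodable α] {p q : α → Prop}, RE p → RE q → RE (fun a => p a ∧ q a)
  or : ∀ {α : Type} [Primcodable α] {p q : α → Prop}, RE p → RE q → RE (fun a => p a ∨ q a)
  ex : ∀ {α β : Type} [Primcodable α] [Primcodable β] {p : α → β → Prop},
    RE (fun a : α × β => p a.1 a.2) → RE (fun a => ∃ b, p a b)
  allL : ∀ {α β : Type} [Primcodable α] [Primcodable β] {l : α → List β} {p : α → β → Prop},
    Primrec l → RE (fun a : α × β => p a.1 a.2) → RE (fun a => ∀ b ∈ l a, p a b)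
  comp : ∀ {α β : Type} [Primcodable α] [Primcodable β] {f : α → β} {p : β → Prop},
    Primrec f → RE p → RE (fun a => p (f a))
  compC : ∀ {α β : Type} [Primcodable α] [Primcodable β] {f : α → β} {p : β → Prop},
    Computable f → RE p → RE (fun a => p (f a))
  ev : RE (fun a : Code × ℕ => (Code.eval a.1 a.2).Dom)

/-- LOP. Every c.e. relation `R x L` is the relation of a code.
PROOF. `fun n => R n.unpair.1 (list coded by n.unpair.2)` is `REPred` on the natural numbers (if
`n.unpair.2` does not code a list: false), so the domain of some `Code.eval c`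
(`Code.exists_code`). -/
def T_LOP : Prop := ∀ R : ℕ → List ℕ → Prop, RE (fun a : ℕ × List ℕ => R a.1 a.2) →
  ∃ c : Code, ∀ B : Set ℕ, op c B = {x | ∃ L : List ℕ, (∀ y ∈ L, y ∈ B) ∧ R x L}

/-- OP. `A ≤_e B` iff `A = op c B` for some code.
PROOF. From left to right: `R x L := ∃ u, (∀ y ≤ u, testBit u y → y ∈ L) ∧ pair x u ∈ W`
(`testBit u y` implies `y < u`), a c.e. relation, use LOP. From right to left:
`W = {n | ∃ L, (∀ y ∈ L, testBit n.unpair.2 y) ∧ eval c (pair n.unpair.1 (encode L)) is defined}`;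
for a list `L` there is `u` with `testBit u y` iff `y ∈ L` (sum of `2^y`, induction with
`Nat.testBit_or`, `Nat.testBit_two_pow`). `Nat.testBit` is primitive recursive (`u / 2^y % 2`). -/
def T_OP : Prop := ∀ A B : Set ℕ, ERed A B ↔ ∃ c : Code, A = op c B

/-- CMP. Composition of operators is computable on codes.
PROOF. `x ∈ op c (op d B)` iff there is a list `T` of pairs `(y, L_y)` with
`eval c (pair x (encode (T.map fst)))` defined, `eval d (pair y (encode L_y))` defined for all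
members, and all members of `(T.map snd).flatten` in `B`. So with the c.e. relation
`Q (c,d) x L := ∃ T, L = (T.map snd).flatten ∧ ...` take a code `e` of the domain
`{pair (encode (c,d)) (pair x (encode L)) | Q}` and `cmp c d = Code.curry e (encode (c,d))`. -/
def T_CMP : Prop := ∃ cmp : Code → Code → Code, Primrec₂ cmp ∧
  ∀ (c d : Code) (B : Set ℕ), op (cmp c d) B = op c (op d B)

/-- LAT. Enumeration reducibility is a preorder and `jn` is the join; `fam` of finitely many
nonempty columns. PROOF. With OP, LOP (explicit relations); `trans` from CMP; `famk` by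
induction on `k` or directly. -/
structure LatLib : Prop where
  refl : ∀ A : Set ℕ, ERed A A
  trans : ∀ {A B C : Set ℕ}, ERed A B → ERed B C → ERed A C
  left : ∀ A B : Set ℕ, ERed A (jn A B)
  right : ∀ A B : Set ℕ, ERed B (jn A B)
  lub : ∀ {A B C : Set ℕ}, ERed A C → ERed B C → ERed (jn A B) C
  empty : ∀ C : Set ℕ, ERed ∅ C
  col : ∀ (M : ℕ → Set ℕ) (i : ℕ), ERed (M i) (fam M)
  famk : ∀ (M : ℕ → Set ℕ) (C : Set ℕ) (k : ℕ), (∀ i, k ≤ i → M i = ∅) →
    (∀ i < k, ERed (M i) C) → ERed (fam M) C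

/-- STEP. The operator which replaces column `t` by `op c (column i ⊕ column j)`.
PROOF. LOP with the relation: `n = pair a b`, if `a ≠ t` then `n ∈ L`, if `a = t` there is a list
`L'` with `eval c (pair b (encode L'))` defined and every member `y` of `L'` is `pair 0 y'` with
`pair i y' ∈ L` or `pair 1 y'` with `pair j y' ∈ L`. -/
def T_STEP : Prop := ∀ (c : Code) (i j t : ℕ), ∃ s : Code, ∀ M : ℕ → Set ℕ,
  op s (fam M) = fam (Function.update M t (op c (jn (M i) (M j))))

/-- UNI. Decoding with a computable sequence of operators. PROOF. The relation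
`R a L := ∃ n, Q a n ∧ eval (cs n) (pair n0 (encode L))` is defined, is c.e. -/
def T_UNI : Prop := ∀ (cs : ℕ → Code) (Q : ℕ → ℕ → Prop) (n0 : ℕ) (J : Set ℕ), Computable cs →
  RE (fun a : ℕ × ℕ => Q a.1 a.2) → ERed {a | ∃ n, Q a n ∧ n0 ∈ op (cs n) J} J

/-- The operator `B ↦ V'(V(B ⊕ C1) ⊕ C2)`. -/
def Th (c c' : Code) (C1 C2 B : Set ℕ) : Set ℕ := op c' (jn (op c (jn B C1)) C2)

/-- DEC. Decoding of `A`.
PROOF. Let `M` be the family with columns `0..6` = `N0, C1, .., C6`, others empty. By STEP and CMP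
there are codes `t, h, t'` with: `op t` replaces column `0` (content `B`) by `Th c c' C1 C2 B`
(and changes only column `7` besides), `op h` by `Th d d' C5 C6 B`, `op t'` by `Th c c' C3 C4 B`.
Iterating with CMP gives a computable sequence of codes `cs n` (of `op t'^[n] ∘ op h ∘ op t^[n]`,
followed by the projection to column `0`, which is an operator by LOP) with
`op (cs n) (fam M) = (Th c c' C3 C4)^[n] (Th d d' C5 C6 ((Th c c' C1 C2)^[n] N0))`.
Now `A = {a | ∃ n, Q a n ∧ n0 ∈ op (cs n) (fam M)}` with `Q a n`: there is `m` with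
`ρ + n = pair m a` (as integers): if `n0 ∈ ..` then `gam v (ρ+n) = 0`, so `v m = a`, `a ∈ A`; if
`a ∈ A` there is `m ≥ ρ.toNat` with `v m = a`, and `pair m a ≥ m`. Use UNI and
`fam M ≤_e N0 ⊕ ...` (`famk`, `left`, `right`). -/
def T_DEC : Prop := ∀ (A : Set ℕ) (v : ℕ → A) (c c' d d' : Code)
  (N0 C1 C2 C3 C4 C5 C6 : Set ℕ) (n0 : ℕ) (ρ : ℤ),
  (∀ n : ℕ, n0 ∈ (Th c c' C3 C4)^[n] (Th d d' C5 C6 ((Th c c' C1 C2)^[n] N0)) ↔
    gam v (ρ + n) = 0) →
  (∀ a : A, ∀ m : ℕ, ∃ k, m ≤ k ∧ v k = a) →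
  ERed A (jn N0 (jn C1 (jn C2 (jn C3 (jn C4 (jn C5 C6))))))

/-! ## Part B: category -/

/-- K1 (Banach). PROOF. Let `𝒰` be the basic open sets `U` with `N ∩ U` meager, `W` their union.
`N ∩ W` is meager. `O` = complement of the closure of `W`. If `O` were empty, `W` would be dense,
its complement closed nowhere dense and `N` meager. An open `U ⊆ O` with `N ∩ U` meager contains
a member of `𝒰`, so meets `W`: it is empty. -/
def T_K1 : Prop := ∀ (T : Type) [TopologicalSpace T] [SecondCountableTopology T] (N : Set T),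
  ¬ IsMeagre N → ∃ O : Set T, IsOpen O ∧ O.Nonempty ∧ EN N O

/-- K7. A nonmeager Baire measurable subset of an open set is comeager in a nonempty open
subset. PROOF. `BaireMeasurableSet.residualEq_isOpen` gives an open `V`; `U = V ∩ O`. -/
def T_K7 : Prop := ∀ (T : Type) [TopologicalSpace T] (B O : Set T), BaireMeasurableSet B →
  ¬ IsMeagre B → IsOpen O → B ⊆ O →
  ∃ U : Set T, U ⊆ O ∧ IsOpen U ∧ U.Nonempty ∧ IsMeagre (U \ B)

/-- K2. PROOF. If `O \ R` were nonmeager it would be comeager in a nonempty open `U ⊆ O` (K7);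
`N ∩ U` is contained in the union of the meager sets `U \ (O \ R)` and `(N ∩ O) \ R`. -/
def T_K2 : Prop := ∀ (T : Type) [TopologicalSpace T] (N O R : Set T), IsOpen O → EN N O →
  BaireMeasurableSet R → IsMeagre ((N ∩ O) \ R) → IsMeagre (O \ R)

/-- K3 (Kuratowski and Ulam, the direction valid for all sets). PROOF. Enough for dense open sets
(`mem_residual` / countable generation): for `U` dense open in `S × T` and `V` basic open
nonempty in `T` the projection of `U ∩ (S × V)` is dense open; for `x` in all of them the section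
of `U` is dense open. -/
def T_K3 : Prop := ∀ (S T : Type) [TopologicalSpace S] [TopologicalSpace T]
  [SecondCountableTopology T] (M : Set (S × T)), IsMeagre M →
  IsMeagre {x : S | ¬ IsMeagre {y : T | (x, y) ∈ M}}

/-- K4. PROOF. From K3: otherwise comeager many `x` have a meager section; some `x ∈ A`, the
section is `B`. -/
def T_K4 : Prop := ∀ (S T : Type) [TopologicalSpace S] [TopologicalSpace T]
  [SecondCountableTopology T] (A : Set S) (B : Set T), ¬ IsMeagre A → ¬ IsMeagre B →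
  ¬ IsMeagre (A ×ˢ B)

/-- K5 (uniformisation). PROOF. Some `N i ∩ S` is nonmeager, K1 gives `O`, intersect with `O0`
(`N i ∩ S ∩ O ≠ ∅`), then K2. -/
def T_K5 : Prop := ∀ (T : Type) [TopologicalSpace T] [SecondCountableTopology T] (ι : Type)
  [Countable ι] (N R : ι → Set T) (S O0 : Set T), ¬ IsMeagre S → IsOpen O0 → S ⊆ O0 →
  IsMeagre (S \ ⋃ i, N i) → (∀ i, N i ⊆ R i) → (∀ i, BaireMeasurableSet (R i)) →
  ∃ (i : ι) (O : Set T), O ⊆ O0 ∧ IsOpen O ∧ O.Nonempty ∧ EN (N i ∩ S) O ∧ IsMeagre (O \ R i)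

/-- K6. PROOF. If `m '' O \ R` is nonmeager it is comeager in a nonempty open `U ⊆ m '' O` (K7).
`O ∩ m ⁻¹' U` is nonempty open and contained in the union of `O \ m ⁻¹' R` and
`m ⁻¹' (U \ (m '' O \ R))`, both meager (`IsMeagre.preimage_of_isOpenMap`). -/
def T_K6 : Prop := ∀ (S T : Type) [TopologicalSpace S] [TopologicalSpace T] [BaireSpace S]
  (m : S → T) (O : Set S) (R : Set T), Continuous m → IsOpenMap m → IsOpen O →
  BaireMeasurableSet R → IsMeagre (O \ m ⁻¹' R) → IsMeagre (m '' O \ R)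

/-- BML. Baire measurability. PROOF. `bop`: countable union over the lists; `beq`: countable
intersection over `n`; `bcomp`: `BaireMeasurableSet.preimage`; graphs: `{z | pair n m ∈ graph}`
is clopen. `bred`: the set is the union over the codes `c` of `{z | f z = op c (g z)}` (OP). -/
structure BMLib : Prop where
  bop : ∀ {T : Type} [TopologicalSpace T] {f : T → Set ℕ} (c : Code), BM f →
    BM (fun z => op c (f z))
  bjn : ∀ {T : Type} [TopologicalSpace T] {f g : T → Set ℕ}, BM f → BM g →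
    BM (fun z => jn (f z) (g z))
  bconst : ∀ {T : Type} [TopologicalSpace T] (B : Set ℕ), BM (fun _ : T => B)
  beq : ∀ {T : Type} [TopologicalSpace T] {f g : T → Set ℕ}, BM f → BM g →
    BaireMeasurableSet {z | f z = g z}
  bcomp : ∀ {S T : Type} [TopologicalSpace S] [TopologicalSpace T] {f : T → Set ℕ} {m : S → T},
    Continuous m → IsOpenMap m → BM f → BM (fun z => f (m z))
  bred : ∀ {T : Type} [TopologicalSpace T] {f g : T → Set ℕ}, BM f → BM g →
    BaireMeasurableSet {z | ERed (f z) (g z)}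
  bP : BM cP
  bV : ∀ A : Set ℕ, BM (cV : (ℕ → A) → Set ℕ)
  bX : ∀ A : Set ℕ, BM (cX : X A → Set ℕ)
  bZ : ∀ A : Set ℕ, BM (cZ : Z A → Set ℕ)

/-- SPL. Cylinders. PROOF. Product topology, discrete entries. -/
structure SpLib : Prop where
  openX : ∀ (A : Set ℕ) (x : X A) (s : ℕ), IsOpen (boxX x s)
  openP : ∀ (p : P) (s : ℕ), IsOpen (boxP p s)
  nhX : ∀ (A : Set ℕ) (O : Set (X A)) (x : X A), IsOpen O → x ∈ O →
    ∃ s, ∀ t, s ≤ t → boxX x t ⊆ O
  nhP : ∀ (O : Set P) (p : P), IsOpen O → p ∈ O → ∃ s, ∀ t, s ≤ t → boxP p t ⊆ O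
  nhXP : ∀ (A : Set ℕ) (O : Set (X A × P)) (x : X A) (p : P), IsOpen O → (x, p) ∈ O →
    ∃ s, ∀ t, s ≤ t → boxX x t ×ˢ boxP p t ⊆ O

/-- HIT. Comeager many `v` take every value infinitely often. PROOF. For `a, m` the set
`{v | ∃ k ≥ m, v k = a}` is open and dense. -/
def T_HIT : Prop := ∀ A : Set ℕ,
  IsMeagre {v : ℕ → A | ¬ ∀ a : A, ∀ m : ℕ, ∃ k, m ≤ k ∧ v k = a}

/-! ## Part C: elimination, names -/

/-- ELG. Elimination for sequences `ℕ → E` with a coding `enc`.
PROOF. `{z | ERed Y (c z ⊕ K)}` is the union over the codes of `N_c = {z | Y = op c (c z ⊕ K)}`,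
so some `N_c` is nonmeager, not nowhere dense, so dense in some nonempty open set and in a cylinder
`{z | z i = z0 i for i < s}`. Then `y ∈ Y` iff there are a finite list `D` of pairs `(n, e)`,
`e ∈ range enc`, which is single valued and agrees with `z0` below `s`, and a list `E ⊆ K`, such
that `eval c (pair y (encode L))` is defined for some list `L` all of whose members are
`pair 0 (pair n e)`, `(n,e) ∈ D`, or `pair 1 k`, `k ∈ E`. (If so, extend `D` and `z0` below `s` to
a function and take `z ∈ N_c` in the cylinder of a length above all `n` in `D`; the converse is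
clear.) This is a c.e. relation between `y` and a finite subset of `range enc ⊕ K`. -/
def T_ELG : Prop := ∀ (E : Type) [TopologicalSpace E] [DiscreteTopology E] [Nonempty E]
  (enc : E → ℕ), Function.Injective enc →
  Elim (fun z : ℕ → E => graph enc z) (Set.range enc)

/-- ELV. PROOF. ELG, `range = A`. -/
def T_ELV : Prop := ∀ A : Set ℕ, A.Nonempty → Elim (cV : (ℕ → A) → Set ℕ) A

/-- ELP. PROOF. ELG; `range encZ` is a c.e. set (primitive recursive), so
`range encZ ⊕ K ≤_e K ≤_e A ⊕ K`. -/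
def T_ELP : Prop := ∀ A : Set ℕ, Elim cP A

/-- ELQ. Elimination for products.
PROOF. Let `B = {(z,w) | ERed Y ((c z ⊕ d w) ⊕ K)}` be nonmeager; it is Baire measurable
(`bred`), so comeager in a nonempty open set (K7), so in a box `U × V`; by K3 for comeager many
`z ∈ U` comeager many `w ∈ V` are in the section. `V` is nonmeager (Baire space). For such `z`,
`Y ≤_e d w ⊕ (c z ⊕ K)` for nonmeager many `w`, so `Y ≤_e A ⊕ (c z ⊕ K) ≤_e c z ⊕ (A ⊕ K)`, for
nonmeager many `z`; so `Y ≤_e A ⊕ (A ⊕ K) ≤_e A ⊕ K`. -/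
def T_ELQ : Prop := ∀ (S T : Type) [TopologicalSpace S] [TopologicalSpace T] [BaireSpace S]
  [BaireSpace T] [SecondCountableTopology S] [SecondCountableTopology T]
  (c : S → Set ℕ) (d : T → Set ℕ) (A : Set ℕ), BM c → BM d → Elim c A → Elim d A →
  Elim (fun z : S × T => jn (c z.1) (d z.2)) A

/-- ELZ. PROOF. ELV, ELP, ELQ (nested). -/
def T_ELZ : Prop := ∀ A : Set ℕ, A.Nonempty →
  Elim (cX : X A → Set ℕ) A ∧ Elim (cZ : Z A → Set ℕ) A

/-- IND. An independent sequence over a given set.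
PROOF. On the space `ℕ → ℕ → Bool` put `G n = {m | g n m = true}`. For `n` and a code `c` the set
`B` of all `g` with `G n = op c (B ⊕ fam (others))` is Baire measurable. If nonmeager it is
comeager in a cylinder (values `g i j`, `i, j < s` prescribed). Changing the value `g n s` is a
homeomorphism of the cylinder; so some `g` and the changed `g'` both belong to `B`; the right
side is the same for both, the left side is not. So all these sets are meager; take `g`
outside. -/
def T_IND : Prop := ∀ B : Set ℕ, ∃ G : ℕ → Set ℕ,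
  ∀ n, ¬ ERed (G n) (jn B (fam (fun k => if k = n then (∅ : Set ℕ) else G k)))

/-- AJN. Automorphisms respect joins. PROOF. `jn (F A) (F B) ≤ F (G (jn (F A) (F B)))`, and
`A ≤ G (F A) ≤ G (jn (F A) (F B))`, same for `B`, so `jn A B ≤ G (jn (F A) (F B))`, apply `F`.
`red`: `ERed (F A) B → ERed A (G B)` and back. `inv`: the inverse automorphism. -/
structure AutLib : Prop where
  fj : ∀ (φ : Aut) (A B : Set ℕ), ERed (φ.F (jn A B)) (jn (φ.F A) (φ.F B))
  fj' : ∀ (φ : Aut) (A B : Set ℕ), ERed (jn (φ.F A) (φ.F B)) (φ.F (jn A B))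
  up : ∀ (φ : Aut) (A B : Set ℕ), ERed (φ.F A) B ↔ ERed A (φ.G B)
  down : ∀ (φ : Aut) (A B : Set ℕ), ERed A (φ.F B) ↔ ERed (φ.G A) B
  inj : ∀ (φ : Aut) (A B : Set ℕ), ERed (φ.F A) (φ.F B) → ERed A B
  inv : ∀ φ : Aut, ∃ ψ : Aut, ψ.F = φ.G ∧ ψ.G = φ.F

/-- NAM. Names (Lemma 1 of row 2381).
PROOF. `B0 = F A`; `G n` from IND for `B0`; `Gn' = fam (others)`, `GG = fam G`. `D = φ.G GG`,
`D n = φ.G (G n)`, `H n = φ.G Gn'`. `M n = {z | ERed (D n) (c z ⊕ H n)}` is meager: otherwise
`Elim` gives `D n ≤_e A ⊕ H n`, apply `F`: `G n ≤_e F A ⊕ Gn'`. The names are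
`f e z = {n | ERed (D n) (op e (c z ⊕ D))}`, Baire measurable (`bred`, `bop`, `bjn`, `bconst`).
For `z` outside of all `M n` put `Y = F (c z)`, `B = fam (fun k => if k ∈ Y then G k else ∅)`
(`= {m | m.unpair.1 ∈ Y ∧ m.unpair.2 ∈ G m.unpair.1}`). `B ≤_e Y ⊕ GG`, so
`φ.G B ≤_e φ.G (F (c z) ⊕ GG) ≤_e c z ⊕ D`, so `φ.G B = op e (c z ⊕ D)` for some `e`. `n ∈ Y`
gives `G n ≤_e B`, `D n ≤_e φ.G B`. `n ∉ Y` gives `B ≤_e Y ⊕ Gn'`; if `D n ≤_e φ.G B`
then `D n ≤_e φ.G (F (c z) ⊕ Gn') ≤_e c z ⊕ H n`, contradiction. So `f e z = Y`. -/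
def T_NAM : Prop := ∀ (φ : Aut) (A : Set ℕ) (T : Type) [TopologicalSpace T] (c : T → Set ℕ),
  BM c → Elim c A → ∃ f : Code → T → Set ℕ, (∀ e, BM (f e)) ∧
    IsMeagre {z | ¬ ∃ e, EEqv (f e z) (φ.F (c z))}

/-! ## Part D: the actions -/

/-- RDX. The explicit reductions. PROOF. `RED1` lemma: if every element of `Y` is obtained by a
c.e. relation from finitely many elements of `B` then `ERed Y B` (LOP, OP). The element
`pair n (encZ (a + b))` of the graph of `y + p` is computed from `pair n (encZ a)` in the graph of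
`y` and `pair n (encZ b)` in the graph of `p`: `encZ (a + b) = pair (s - t) (t - s)` with
`s`, `t` the sums of the first and second components (truncated subtraction);
`encZ (-a)` = components exchanged. For `act2`: `encZ (p i * gam ..)` is `encZ (p i)` or
`encZ 0`, decided by `encZ (r i) = pair j 0` and the element `pair j.unpair.1 b` of the graph of
`v` with `b = j.unpair.2` or not (if the second component of `encZ (r i)` is positive:
`gam = 1`). Use `LatLib.lub`, `left`, `right`, `trans` to treat the coordinates separately. -/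
def T_RDX : Prop :=
  (∀ (A : Set ℕ) (p : P) (x : X A), ERed (cX (act1 p x)) (jn (cX x) (cP p))) ∧
  (∀ (A : Set ℕ) (p : P) (x : X A), ERed (cX (act2 p x)) (jn (cX x) (cP p))) ∧
  (∀ (A : Set ℕ) (p : P) (x : X A), ERed (cX (act3 p x)) (jn (cX x) (cP p))) ∧
  (∀ p : P, ERed (cP (-p)) (cP p)) ∧
  (∀ (A : Set ℕ) (p : P) (x : X A), ERed (cP p) (jn (cX x) (cX (act3 p x))))

/-- ACT. The three actions are good. PROOF. `cont`: coordinatewise, locally constant functions
of finitely many entries (for `act2` the entry `v (r i).toNat.unpair.1`: evaluation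
`(ℕ → A) × ℕ → A` is continuous). `red`: every element of the graph of a coordinate of
`al p x` is computed from at most four elements of the graphs:
`encZ (a + b)` is `pair (s - t) (t - s)` with `s, t` the sums of the components. -/
structure ActLib : Prop where
  a1 : ∀ A : Set ℕ, GoodAct (act1 : P → X A → X A)
  a2 : ∀ A : Set ℕ, GoodAct (act2 : P → X A → X A)
  a3 : ∀ A : Set ℕ, GoodAct (act3 : P → X A → X A)
  neg : ∀ p : P, ERed (cP (-p)) (cP p)
  diff : ∀ (A : Set ℕ) (p : P) (x : X A), ERed (cP p) (jn (cX x) (cX (act3 p x)))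

/-! ## Part E: uniformisation, group chunk, edge -/

/-- UNF (Lemma 2 of row 2381). PROOF. Names `f' e` on `X A` (NAM, ELZ) and `g e` on `P`
(NAM, ELP). `S' = S ∩ O` is nonmeager, `S' × P` is nonmeager (K4). Index set `Code^5`:
`i = (e2, e3, e5, c, c')`, `N i` = the set of all `(x,p)`, `x ∈ S`, with `g e2 p ≡ F (cP p)`,
`f' e3 (al p x) ≡ F (cX (al p x))`, `g e5 (-p) ≡ F (cP (-p))` and the two relations;
`R i` = the two relations (Baire measurable: `BMLib`, the map `(x,p) ↦ al p x` is continuous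
and open since `(x,p) ↦ (al p x, p)` is a homeomorphism, inverse `(x,p) ↦ (al (-p) x, p)`).
`S' × P` is covered up to a meager set: for comeager many `(x,p)` the points `p`, `-p`,
`al p x` have true names, and `F(cX(al p x)) ≤ F(cX x) ⊕ F(cP p)` (`red`, AutLib),
`F(cX x) ≤ F(cX(al p x)) ⊕ F(cP(-p))`. K5 gives `i` and an open set, take a box in it.
`g' p = g e5 (-p)`. `EN` for `Q`: `(N i ∩ S) ∩ (boxX × V) ⊆ boxX × (Q ∩ V)`. -/
def T_UNF : Prop := ∀ (φ : Aut) (A : Set ℕ), A.Nonempty → ∀ (al : P → X A → X A), GoodAct al →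
  ∀ f : X A → Set ℕ, BM f → ∀ S O : Set (X A), IsOpen O → O.Nonempty → EN S O →
  (∀ x ∈ S, EEqv (f x) (φ.F (cX x))) →
  ∃ (x0 : X A) (p0 : P) (s : ℕ) (g g' : P → Set ℕ) (F : X A → Set ℕ) (c c' : Code),
    boxX x0 s ⊆ O ∧
    EN {p | EEqv (g p) (φ.F (cP p)) ∧ EEqv (g' p) (φ.F (cP p))} (boxP p0 s) ∧
    IsMeagre {z : X A × P | z.1 ∈ boxX x0 s ∧ z.2 ∈ boxP p0 s ∧
      ¬ (F (al z.2 z.1) = op c (jn (f z.1) (g z.2)) ∧
        f z.1 = op c' (jn (F (al z.2 z.1)) (g' z.2)))}

/-- UN3 (Lemma 2, relation (R3)). PROOF. Same with index `(e2, e3, c)` and the relation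
`g e2 p = op c (f x ⊕ f' e3 (act3 p x))` (`ActLib.diff`). -/
def T_UN3 : Prop := ∀ (φ : Aut) (A : Set ℕ), A.Nonempty →
  ∀ f : X A → Set ℕ, BM f → ∀ S O : Set (X A), IsOpen O → O.Nonempty → EN S O →
  (∀ x ∈ S, EEqv (f x) (φ.F (cX x))) →
  ∃ (x0 : X A) (p0 : P) (s : ℕ) (g : P → Set ℕ) (F : X A → Set ℕ) (c : Code),
    boxX x0 s ⊆ O ∧ EN {p | EEqv (g p) (φ.F (cP p))} (boxP p0 s) ∧
    IsMeagre {z : X A × P | z.1 ∈ boxX x0 s ∧ z.2 ∈ boxP p0 s ∧
      g z.2 ≠ op c (jn (f z.1) (F (act3 z.2 z.1)))}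

/-- CHK (Lemma 3). PROOF. The map `(x,p,p') ↦ (al (p-p') x, p, p')` is a homeomorphism
of `X A × P × P` (inverse `al (p'-p)`). For `x, p, p'` in the boxes `x' = al (p-p') x` is in
`boxX x0 s` (`loc`) and `al p' x' = al p x`. Pull back the meager set of UNF under the
continuous open maps `(x,p,p') ↦ (x,p)` and `(x,p,p') ↦ (x',p')`. -/
def T_CHK : Prop := ∀ (A : Set ℕ) (al : P → X A → X A), GoodAct al →
  ∀ (f F : X A → Set ℕ) (g g' : P → Set ℕ) (c c' : Code) (x0 : X A) (p0 : P) (s : ℕ),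
    IsMeagre {z : X A × P | z.1 ∈ boxX x0 s ∧ z.2 ∈ boxP p0 s ∧
      ¬ (F (al z.2 z.1) = op c (jn (f z.1) (g z.2)) ∧
        f z.1 = op c' (jn (F (al z.2 z.1)) (g' z.2)))} →
    IsMeagre {z : X A × P × P | z.1 ∈ boxX x0 s ∧ z.2.1 ∈ boxP p0 s ∧ z.2.2 ∈ boxP p0 s ∧
      f (al (z.2.1 - z.2.2) z.1) ≠ Th c c' (g z.2.1) (g' z.2.2) (f z.1)}

/-- INV. If `f` does not see any single change of `y` beyond `s`, it does not see
any change of `y` beyond `s`.
PROOF. First for every `t` with finite support and `t i = 0` for `i < s`: `f (act3 t x) = f x`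
for comeager many `x` in the box (both inclusions from the hypothesis with `k` and `-k`,
translations are homeomorphisms of the box; induction on the support). Let `n` be given and
`E1 = {(x,t) | x ∈ box, t = 0 below s, n ∈ f x, n ∉ f (act3 t x)}`, Baire measurable. If
nonmeager it is comeager in a box `boxX b l × boxP th l` (K7), `l ≥ s`, inside. Let `w = th` below
`l`, zero beyond. By K6 (projection) `n ∈ f x` for comeager many `x ∈ boxX b l`; by K6 for
`(x,t) ↦ act3 t x` (open, continuous) `n ∉ f x'` for comeager many `x'` in the image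
`boxX (act3 w b) l`, so `n ∉ f (act3 w x)` for comeager many `x ∈ boxX b l`: contradiction.
Same for `n ∉ f x, n ∈ f (act3 t x)`. Union over `n`. -/
def T_INV : Prop := ∀ (A : Set ℕ) (f : X A → Set ℕ), BM f → ∀ (x0 : X A) (s : ℕ),
  (∀ (n i : ℕ) (k : ℤ), s ≤ i →
    IsMeagre {x | x ∈ boxX x0 s ∧ n ∈ f x ∧ n ∉ f (act3 (unitP i k) x)}) →
  IsMeagre {z : X A × P | z.1 ∈ boxX x0 s ∧ (∀ i < s, z.2 i = 0) ∧ f (act3 z.2 z.1) ≠ f z.1}

/-- CTM. A degree contains only countably many parameters, countable sets are meager.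
PROOF. `cP p = op c B`, `cP` is injective; singletons are closed and nowhere dense. -/
def T_CTM : Prop := ∀ B : Set ℕ, IsMeagre {p : P | EEqv (cP p) B}

/-- EDG (Lemma 4). PROOF. Apply UN3 to the open set `boxX x1 s1`; get `x0, p0, s`; we may
enlarge `s` (EN and the meager set are inherited by smaller boxes; `p0` stays) so that `s1 ≤ s`.
If there is no edge in `boxX x0 s` beyond `s`: the hypothesis of INV holds (a nonmeager Baire
measurable set would be comeager in some `boxX a l`, `l > i`, by K7 and SPL). For comeager many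
`(x,p,p1)` in `boxX x0 s × boxP p0 s × boxP p0 s`: (R3) at `(x,p)`, (R3) at
`(act3 (p-p1) x, p1)` (`act3 p1 (act3 (p-p1) x) = act3 p x`), and
`f (act3 (p-p1) x) = f x` (INV; `(x,p,p1) ↦ (x,p-p1)` is continuous and open): so
`g p = g p1`. By K3 (twice; Baire) there is `p1` in the box with `g p = g p1 =: K` for comeager
many `p` in the box; so nonmeager many `p` satisfy `K ≡ F (cP p)`, so `cP p ≡ φ.G K`:
contradiction to CTM. -/
def T_EDG : Prop := ∀ (φ : Aut) (A : Set ℕ), A.Nonempty →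
  ∀ f : X A → Set ℕ, BM f → ∀ S O : Set (X A), IsOpen O → EN S O →
  (∀ x ∈ S, EEqv (f x) (φ.F (cX x))) → ∀ (x1 : X A) (s1 : ℕ), boxX x1 s1 ⊆ O →
  ∃ (n0 i0 : ℕ) (k0 : ℤ) (a : X A) (l : ℕ), s1 ≤ i0 ∧ i0 < l ∧ boxX a l ⊆ boxX x1 s1 ∧
    IsMeagre {x | x ∈ boxX a l ∧ ¬ (n0 ∈ f x ∧ n0 ∉ f (act3 (unitP i0 k0) x))}

/-! ## Part F: the end -/

/-- END. PROOF. Let `W` be the box of all `z` with `x ∈ boxX x2 s2`, `p, p', q, q'` as below.
`τ z = (act1 (p-p') x, p, p', q, q')`, `τ' z = (act1 (p'-p) x, ..)`,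
`η z = (act2 (q-q') x, ..)` are homeomorphisms of the total space which map `W` to itself
(`p - p'` and `q - q'` vanish below `i0`). Comeager many `z ∈ W` satisfy: `f (τ z).1 = ...` (CHK
relation for `act1` at `(x,p,p')`), the one at `(x,p',p)`, the one for `act2` at `(x,q,q')`, and
the edge relation if `x ∈ boxX a l`; pulling back under `τ^n`, `τ'^m η τ^n` (countably many)
the same holds at all these points. So for `x ∈ boxX a l`:
`(Th ..)^[n] (f x) = f (T^n x)`, `Th .. = f (H T^n x)`, and `n` more steps: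
`f (T'^n H T^n x)`. The point `x_n = T'^n H T^n x` has the same `v`, `r`, and `y` changed by
`(q-q') * gam v (r + n(p-p'))`, below `l` this is `k0 * gam v (ρ + n)` at `i0` only,
`ρ = a.2.2 i0`. If `gam = 0` then `x_n ∈ boxX a l`, so `n0 ∈ f x_n`; if `gam = 1` then
`x_n = act3 (unitP i0 k0) x'` with `x' = act3 (- unitP i0 k0) x_n ∈ boxX a l`; the map `z ↦ x'`
is continuous and open on the total space, so for comeager many `z` `n0 ∉ f x_n`. -/
def T_END : Prop := ∀ (A : Set ℕ) (f : X A → Set ℕ) (x1 x2 : X A) (p0 q0 : P) (s1 s2 : ℕ)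
  (g g' h h' : P → Set ℕ) (c c' d d' : Code) (n0 i0 : ℕ) (k0 : ℤ) (a : X A) (l : ℕ),
  boxX x2 s2 ⊆ boxX x1 s1 → boxX a l ⊆ boxX x2 s2 → s1 ≤ i0 → s2 ≤ i0 → i0 < l →
  IsMeagre {z : X A × P × P | z.1 ∈ boxX x1 s1 ∧ z.2.1 ∈ boxP p0 s1 ∧ z.2.2 ∈ boxP p0 s1 ∧
    f (act1 (z.2.1 - z.2.2) z.1) ≠ Th c c' (g z.2.1) (g' z.2.2) (f z.1)} →
  IsMeagre {z : X A × P × P | z.1 ∈ boxX x2 s2 ∧ z.2.1 ∈ boxP q0 s2 ∧ z.2.2 ∈ boxP q0 s2 ∧
    f (act2 (z.2.1 - z.2.2) z.1) ≠ Th d d' (h z.2.1) (h' z.2.2) (f z.1)} →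
  IsMeagre {x | x ∈ boxX a l ∧ ¬ (n0 ∈ f x ∧ n0 ∉ f (act3 (unitP i0 k0) x))} →
  IsMeagre {z : Z A | z.1 ∈ boxX a l ∧ z.2.1 ∈ boxP p0 l ∧
    z.2.2.1 ∈ boxP (p0 - unitP i0 1) l ∧ z.2.2.2.1 ∈ boxP q0 l ∧
    z.2.2.2.2 ∈ boxP (q0 - unitP i0 k0) l ∧
    ¬ ∀ n : ℕ, (n0 ∈ (Th c c' (g z.2.2.1) (g' z.2.1))^[n]
        (Th d d' (h z.2.2.2.1) (h' z.2.2.2.2) ((Th c c' (g z.2.1) (g' z.2.2.1))^[n] (f z.1))) ↔
      gam z.1.1 (a.2.2 i0 + n) = 0)}

/-- FIN. The inverse of an automorphism is decreasing.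
PROOF. `A = ∅`: `φ.G ∅ ≤_e φ.G (φ.F ∅) ≤_e ∅`. `A` nonempty: names `f' e` on `X A` (NAM, ELZ);
some `S = {x | f' e x ≡ F (cX x)}` is nonmeager; `f = f' e`; EN on an open `O` (K1). UNF and CHK
for `act1` on `O`: `x1, p0, s1, g, g', c, c'`, with the everywhere nonmeager set `Q1`. UNF, CHK
for `act2` on the open set `boxX x1 s1`: `x2, q0, s2, h, h', d, d', Q2`. EDG for
`boxX x2 (max s1 s2)`. END (with `boxX x2 (max s1 s2)`: restrict the relations; `boxP q0 s2`
shrinks to `boxP q0 (max s1 s2)`). The set of all `z` in the box of END with `x ∈ S`,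
`p, p' ∈ Q1`, `q, q' ∈ Q2` is a product of nonmeager sets, nonmeager (K4); remove the meager
set of END and the meager set where `v` does not hit everything infinitely often (HIT). For the
rest DEC gives `A ≤_e f x ⊕ g p ⊕ g' p' ⊕ g p' ⊕ g' p ⊕ h q ⊕ h' q'`, each of them
`≤_e F (its point) ≤_e F (cZ z)`. So `A ≤_e F (cZ z)`, `φ.G A ≤_e cZ z ≤_e cZ z ⊕ ∅` for
nonmeager many `z`; ELZ gives `φ.G A ≤_e A ⊕ ∅ ≤_e A`. -/
def T_FIN : Prop := ∀ (φ : Aut) (A : Set ℕ), ERed (φ.G A) A

end Pool.Agent.RIG
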